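import Pool.Agent.Lib_MP_c588fa_an.Defs

set_option autoImplicit false
open MeasureTheory Filter Set Complex

namespace MP_c588fa_an

theorem finite_nu {w : ℝ → ℝ} (hwc : Continuous w) (hwpos : ∀ x, 0 < w x)
    (hlim : Tendsto (fun x => Real.log (w x) / x) atTop atBot) :
    IntegrableOn w (Ici 0) ∧
      IsFiniteMeasure ((volume.restrict (Ici (0 : ℝ))).withDensity
        (fun x => ENNReal.ofReal (w x))) := by
  have h1 : IntegrableOn w (Ici 0) := by
    have h2 : ∀ᶠ x in atTop, Real.log (w x) / x ≤ -1 := hlim.eventually (eventually_le_atBot (-1))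
    obtain ⟨N, hN⟩ := eventually_atTop.mp (h2.and (eventually_gt_atTop 0))
    have hN0 : 0 < N := (hN N le_rfl).2
    have h3 : ∀ x, N ≤ x → w x ≤ Real.exp (-x) := by
      intro x hx
      obtain ⟨h4, h5⟩ := hN x hx
      have h6 : Real.log (w x) ≤ -x := by
        rw [div_le_iff₀ h5] at h4
        linarith
      calc w x = Real.exp (Real.log (w x)) := (Real.exp_log (hwpos x)).symm
        _ ≤ Real.exp (-x) := Real.exp_le_exp.mpr h6
    have h4 : IntegrableOn w (Icc 0 N) := hwc.continuousOn.integrableOn_Icc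
    have h5 : IntegrableOn w (Ioi N) := by
      have h6 : IntegrableOn (fun x : ℝ => Real.exp (-x)) (Ioi N) := integrableOn_exp_neg_Ioi N
      refine Integrable.mono' h6 hwc.aestronglyMeasurable ?_
      refine (ae_restrict_mem measurableSet_Ioi).mono (fun x hx => ?_)
      rw [Real.norm_of_nonneg (hwpos x).le]
      exact h3 x (le_of_lt hx)
    have h6 : Ici (0:ℝ) = Icc 0 N ∪ Ioi N := by
      rw [Icc_union_Ioi_eq_Ici hN0.le]
    rw [h6]
    exact h4.union h5
  exact ⟨h1, isFiniteMeasure_withDensity_ofReal h1.2⟩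

lemma integrable_nu_iff {w : ℝ → ℝ} (hwc : Continuous w) (hwpos : ∀ x, 0 < w x)
    {ν : Measure ℝ} (hν : ν = (volume.restrict (Ici (0 : ℝ))).withDensity
      (fun x => ENNReal.ofReal (w x))) (u : ℝ → ℂ) :
    Integrable u ν ↔ Integrable (fun x => (w x : ℂ) * u x) (volume.restrict (Ici (0 : ℝ))) := by
  rw [hν, integrable_withDensity_iff_integrable_smul' (by fun_prop) (by simp)]
  refine integrable_congr (Eventually.of_forall fun x => ?_)
  simp [ENNReal.toReal_ofReal (hwpos x).le]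

lemma integral_nu {w : ℝ → ℝ} (hwc : Continuous w) (hwpos : ∀ x, 0 < w x)
    {ν : Measure ℝ} (hν : ν = (volume.restrict (Ici (0 : ℝ))).withDensity
      (fun x => ENNReal.ofReal (w x))) (u : ℝ → ℂ) :
    ∫ x, u x ∂ν = ∫ x in Ici (0 : ℝ), (w x : ℂ) * u x := by
  rw [hν, integral_withDensity_eq_integral_toReal_smul (by fun_prop) (by simp)]
  refine integral_congr_ae (Eventually.of_forall fun x => ?_)
  simp [ENNReal.toReal_ofReal (hwpos x).le]

lemma ae_nu_of {w : ℝ → ℝ} {ν : Measure ℝ} (hν : ν = (volume.restrict (Ici (0 : ℝ))).withDensity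
      (fun x => ENNReal.ofReal (w x))) {P : ℝ → Prop}
    (h : ∀ᵐ x ∂(volume.restrict (Ici (0 : ℝ))), P x) : ∀ᵐ x ∂ν, P x := by
  rw [hν]
  exact (withDensity_absolutelyContinuous _ _) h

lemma ae_vol_of {w : ℝ → ℝ} (hwc : Continuous w) (hwpos : ∀ x, 0 < w x)
    {ν : Measure ℝ} (hν : ν = (volume.restrict (Ici (0 : ℝ))).withDensity
      (fun x => ENNReal.ofReal (w x))) {P : ℝ → Prop}
    (h : ∀ᵐ x ∂ν, P x) : ∀ᵐ x ∂(volume.restrict (Ici (0 : ℝ))), P x := by
  rw [hν, ae_withDensity_iff (by fun_prop)] at h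
  filter_upwards [h] with x hx
  exact hx (by simp [hwpos x])

lemma conv_lemma {w : ℝ → ℝ} (hwc : Continuous w) (hwpos : ∀ x, 0 < w x)
    (hsm : ∀ s t : ℝ, 0 ≤ s → 0 ≤ t → w (s + t) ≤ w s * w t)
    {f : ℝ → ℂ} (hfm : Measurable f)
    (hfi : Integrable (fun x => (w x : ℂ) * f x) (volume.restrict (Ici (0 : ℝ))))
    (hwi : Integrable (fun x => (w x : ℂ)) (volume.restrict (Ici (0 : ℝ))))
    {k : ℝ → ℂ} (hk : Measurable k) {C : ℝ} (hkC : ∀ x, ‖k x‖ ≤ C)
    {B : Set ℝ} (hB : MeasurableSet B) :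
    Integrable ((Ici (0:ℝ)).indicator (fun a => ∫ x in Ioi (0 : ℝ), f x * (k (x + a) * (w (x + a) : ℂ)))) ∧
    Integrable ((Ici (0:ℝ)).indicator (fun x =>
      (∫ t in (0 : ℝ)..x, f t * B.indicator (fun _ => (1:ℂ)) (x - t)) * (k x * (w x : ℂ)))) ∧
    ∫ x, (Ici (0:ℝ)).indicator (fun x =>
      (∫ t in (0 : ℝ)..x, f t * B.indicator (fun _ => (1:ℂ)) (x - t)) * (k x * (w x : ℂ))) x =
      ∫ a in B, (Ici (0:ℝ)).indicator
        (fun a => ∫ x in Ioi (0 : ℝ), f x * (k (x + a) * (w (x + a) : ℂ))) a := by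
  have hC0 : 0 ≤ C := (norm_nonneg _).trans (hkC 0)
  -- the kernel
  set S : Set (ℝ × ℝ) := (Ioi (0:ℝ)) ×ˢ (Ici (0:ℝ)) with hS
  have hSm : MeasurableSet S := measurableSet_Ioi.prod measurableSet_Ici
  let K0 : ℝ × ℝ → ℂ := S.indicator (fun z => f z.1 * (k (z.1 + z.2) * (w (z.1 + z.2) : ℂ)))
  have hK0m : Measurable K0 := by
    refine Measurable.indicator ?_ hSm
    exact (hfm.comp measurable_fst).mul ((hk.comp (measurable_fst.add measurable_snd)).mul
      ((measurable_ofReal.comp hwc.measurable).comp (measurable_fst.add measurable_snd)))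
  have hdom : Integrable (fun z : ℝ × ℝ =>
      ((Ici (0:ℝ)).indicator (fun x => (w x : ℂ) * f x) z.1) *
        ((Ici (0:ℝ)).indicator (fun x => (w x : ℂ)) z.2)) (volume.prod volume) := by
    exact Integrable.mul_prod ((integrable_indicator_iff measurableSet_Ici).mpr hfi)
      ((integrable_indicator_iff measurableSet_Ici).mpr hwi)
  have hK0i : Integrable K0 (volume.prod volume) := by
    refine Integrable.mono' (hdom.norm.const_mul C) hK0m.aestronglyMeasurable ?_
    refine Eventually.of_forall (fun z => ?_)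
    by_cases hz : z ∈ S
    · have hz1 : (0:ℝ) < z.1 := (mem_prod.mp hz).1
      have hz2 : (0:ℝ) ≤ z.2 := (mem_prod.mp hz).2
      have e1 : K0 z = f z.1 * (k (z.1 + z.2) * (w (z.1 + z.2) : ℂ)) := indicator_of_mem hz _
      rw [e1, indicator_of_mem (show z.1 ∈ Ici (0:ℝ) from hz1.le),
        indicator_of_mem (show z.2 ∈ Ici (0:ℝ) from hz2)]
      simp only [norm_mul, Complex.norm_real, Real.norm_of_nonneg (hwpos _).le]
      have := hsm z.1 z.2 hz1.le hz2
      have h2 := hkC (z.1 + z.2)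
      calc ‖f z.1‖ * (‖k (z.1 + z.2)‖ * w (z.1 + z.2))
          ≤ ‖f z.1‖ * (C * (w z.1 * w z.2)) := by
            refine mul_le_mul_of_nonneg_left ?_ (norm_nonneg _)
            exact mul_le_mul h2 this (hwpos _).le hC0
        _ = C * (w z.1 * ‖f z.1‖ * w z.2) := by ring
    · have e1 : K0 z = 0 := indicator_of_notMem hz _
      rw [e1, norm_zero]
      positivity
  -- H
  let H : ℝ → ℂ := fun a => ∫ x in Ioi (0 : ℝ), f x * (k (x + a) * (w (x + a) : ℂ))
  have hHK : ∀ a : ℝ, (∫ t : ℝ, K0 (t, a)) = (Ici (0:ℝ)).indicator H a := by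
    intro a
    by_cases ha : a ∈ Ici (0:ℝ)
    · rw [indicator_of_mem ha]
      have : ∀ t : ℝ, K0 (t, a) = (Ioi (0:ℝ)).indicator
          (fun x => f x * (k (x + a) * (w (x + a) : ℂ))) t := by
        intro t
        by_cases ht : t ∈ Ioi (0:ℝ)
        · rw [indicator_of_mem ht]
          exact indicator_of_mem (show (t, a) ∈ S from ⟨ht, ha⟩) _
        · rw [indicator_of_notMem ht]
          exact indicator_of_notMem (fun h => ht (mem_prod.mp h).1) _
      simp_rw [this]
      rw [integral_indicator measurableSet_Ioi]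
    · rw [indicator_of_notMem ha]
      have : ∀ t : ℝ, K0 (t, a) = 0 := by
        intro t
        exact indicator_of_notMem (fun h => ha (mem_prod.mp h).2) _
      simp_rw [this]
      simp
  have hHi : Integrable ((Ici (0:ℝ)).indicator H) := by
    have := hK0i.integral_prod_right
    refine this.congr (Eventually.of_forall (fun a => ?_))
    exact hHK a
  -- kernel with B
  let K1 : ℝ × ℝ → ℂ := fun z => K0 z * B.indicator (fun _ => (1:ℂ)) z.2
  have hK1m : Measurable K1 := hK0m.mul ((measurable_const.indicator hB).comp measurable_snd)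
  have hK1i : Integrable K1 (volume.prod volume) := by
    refine Integrable.mono hK0i hK1m.aestronglyMeasurable (Eventually.of_forall fun z => ?_)
    show ‖K0 z * B.indicator (fun _ => (1:ℂ)) z.2‖ ≤ ‖K0 z‖
    by_cases hz : z.2 ∈ B
    · rw [indicator_of_mem hz, mul_one]
    · rw [indicator_of_notMem hz, mul_zero, norm_zero]
      exact norm_nonneg _
  -- the sheared kernel
  let K2 : ℝ × ℝ → ℂ := fun z => K1 (z.1, z.2 - z.1)
  have hmp : MeasurePreserving (fun z : ℝ × ℝ => (z.1, z.2 - z.1)) (volume.prod volume)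
      (volume.prod volume) := measurePreserving_prod_sub volume volume
  have hK2i : Integrable K2 (volume.prod volume) :=
    hmp.integrable_comp_of_integrable hK1i
  have hin : ∀ x : ℝ, (∫ t : ℝ, K2 (t, x)) = (Ici (0:ℝ)).indicator (fun x =>
      (∫ t in (0 : ℝ)..x, f t * B.indicator (fun _ => (1:ℂ)) (x - t)) * (k x * (w x : ℂ))) x := by
    intro x
    by_cases hx : x ∈ Ici (0:ℝ)
    · rw [indicator_of_mem hx, intervalIntegral.integral_of_le hx]
      have : ∀ t : ℝ, K2 (t, x) = (Ioc (0:ℝ) x).indicator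
          (fun t => f t * B.indicator (fun _ => (1:ℂ)) (x - t) * (k x * (w x : ℂ))) t := by
        intro t
        by_cases ht : t ∈ Ioc (0:ℝ) x
        · rw [indicator_of_mem ht]
          have e1 : K0 (t, x - t) = f t * (k (t + (x - t)) * (w (t + (x - t)) : ℂ)) :=
            indicator_of_mem (show (t, x - t) ∈ S from ⟨ht.1, sub_nonneg.mpr ht.2⟩) _
          show K0 (t, x - t) * B.indicator (fun _ => (1:ℂ)) (x - t) = _
          rw [e1, add_sub_cancel]
          ring
        · rw [indicator_of_notMem ht]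
          have e1 : K0 (t, x - t) = 0 := by
            refine indicator_of_notMem (fun h => ht ?_) _
            exact ⟨(mem_prod.mp h).1, sub_nonneg.mp (mem_prod.mp h).2⟩
          show K0 (t, x - t) * B.indicator (fun _ => (1:ℂ)) (x - t) = _
          rw [e1, zero_mul]
      simp_rw [this]
      rw [integral_indicator measurableSet_Ioc, integral_mul_const]
    · rw [indicator_of_notMem hx]
      have : ∀ t : ℝ, K2 (t, x) = 0 := by
        intro t
        have e1 : K0 (t, x - t) = 0 := by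
          refine indicator_of_notMem (fun h => hx ?_) _
          have h1 : (0:ℝ) < t := (mem_prod.mp h).1
          have h2 : (0:ℝ) ≤ x - t := (mem_prod.mp h).2
          exact (show (0:ℝ) ≤ x by linarith)
        show K0 (t, x - t) * B.indicator (fun _ => (1:ℂ)) (x - t) = _
        rw [e1, zero_mul]
      simp_rw [this]
      simp
  refine ⟨hHi, ?_, ?_⟩
  · exact (hK2i.integral_prod_right).congr (Eventually.of_forall (fun x => hin x))
  · calc ∫ x, (Ici (0:ℝ)).indicator (fun x =>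
          (∫ t in (0 : ℝ)..x, f t * B.indicator (fun _ => (1:ℂ)) (x - t)) * (k x * (w x : ℂ))) x
        = ∫ x, ∫ t, K2 (t, x) := by
          refine integral_congr_ae (Eventually.of_forall (fun x => ?_))
          exact (hin x).symm
      _ = ∫ z, K2 z ∂(volume.prod volume) := (integral_prod_symm _ hK2i).symm
      _ = ∫ t, ∫ x, K2 (t, x) := integral_prod _ hK2i
      _ = ∫ t, ∫ a, K1 (t, a) := by
          refine integral_congr_ae (Eventually.of_forall (fun t => ?_))
          exact integral_sub_right_eq_self (fun a => K1 (t, a)) t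
      _ = ∫ z, K1 z ∂(volume.prod volume) := (integral_prod _ hK1i).symm
      _ = ∫ a, ∫ t, K1 (t, a) := integral_prod_symm _ hK1i
      _ = ∫ a, B.indicator ((Ici (0:ℝ)).indicator H) a := by
          refine integral_congr_ae (Eventually.of_forall (fun a => ?_))
          show ∫ t, K0 (t, a) * B.indicator (fun _ => (1:ℂ)) a = _
          rw [integral_mul_const, hHK a]
          by_cases ha : a ∈ B
          · rw [indicator_of_mem ha, indicator_of_mem ha, mul_one]
          · rw [indicator_of_notMem ha, indicator_of_notMem ha, mul_zero]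
      _ = _ := by rw [integral_indicator hB]

theorem annih {w : ℝ → ℝ} (hwc : Continuous w) (hwpos : ∀ x, 0 < w x)
    (hsm : ∀ s t : ℝ, 0 ≤ s → 0 ≤ t → w (s + t) ≤ w s * w t)
    {ν : Measure ℝ} (hν : ν = (volume.restrict (Ici (0 : ℝ))).withDensity
      (fun x => ENNReal.ofReal (w x))) [IsFiniteMeasure ν]
    {I : Submodule ℂ (Lp ℂ 1 ν)}
    (hI : ∀ f ∈ I, ∀ g h : Lp ℂ 1 ν, (h : ℝ → ℂ) =ᵐ[ν]
      (fun x => ∫ t in (0 : ℝ)..x, (f : ℝ → ℂ) t * (g : ℝ → ℂ) (x - t)) → h ∈ I)
    {φ : Lp ℂ 1 ν →L[ℂ] ℂ} (hφ : ∀ f ∈ I, φ f = 0) {k : ℝ → ℂ} (hk : Measurable k) {C : ℝ}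
    (hkC : ∀ x, ‖k x‖ ≤ C) (hrep : ∀ u : Lp ℂ 1 ν, φ u = ∫ x, (u : ℝ → ℂ) x * k x ∂ν)
    {f : Lp ℂ 1 ν} (hf : f ∈ I) :
    ∀ᵐ a : ℝ, 0 ≤ a →
      ∫ x in Ioi (0 : ℝ), (f : ℝ → ℂ) x * (k (x + a) * (w (x + a) : ℂ)) = 0 := by
  have hfm : Measurable (f : ℝ → ℂ) := (Lp.stronglyMeasurable f).measurable
  have hfi : Integrable (fun x => (w x : ℂ) * f x) (volume.restrict (Ici (0 : ℝ))) :=
    (integrable_nu_iff hwc hwpos hν _).mp (L1.integrable_coeFn f)
  have hwi : Integrable (fun x => (w x : ℂ)) (volume.restrict (Ici (0 : ℝ))) := by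
    have := (integrable_nu_iff hwc hwpos hν (fun _ => (1 : ℂ))).mp (integrable_const _)
    simpa using this
  let H : ℝ → ℂ := fun a => ∫ x in Ioi (0 : ℝ), (f : ℝ → ℂ) x * (k (x + a) * (w (x + a) : ℂ))
  have key : ∀ B : Set ℝ, MeasurableSet B → ∫ a in B, (Ici (0:ℝ)).indicator H a = 0 := by
    intro B hB
    have hg0 : Integrable (B.indicator (fun _ => (1:ℂ))) ν :=
      (integrable_const (1:ℂ)).indicator hB
    let g : Lp ℂ 1 ν := hg0.toL1 _
    have hg : (g : ℝ → ℂ) =ᵐ[ν] B.indicator (fun _ => (1:ℂ)) := hg0.coeFn_toL1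
    have hg' : ∀ᵐ x ∂(volume.restrict (Ici (0 : ℝ))),
        (g : ℝ → ℂ) x = B.indicator (fun _ => (1:ℂ)) x :=
      ae_vol_of hwc hwpos hν hg
    have hg'' : ∀ᵐ x : ℝ, x ∈ Ici (0:ℝ) → (g : ℝ → ℂ) x = B.indicator (fun _ => (1:ℂ)) x :=
      (ae_restrict_iff' measurableSet_Ici).mp hg'
    let h0 : ℝ → ℂ := fun x => ∫ t in (0 : ℝ)..x, (f : ℝ → ℂ) t * B.indicator (fun _ => (1:ℂ)) (x - t)
    obtain ⟨-, hh1, -⟩ := conv_lemma hwc hwpos hsm hfm hfi hwi (k := fun _ => 1) measurable_const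
      (C := 1) (by simp) hB
    have hh0 : Integrable h0 ν := by
      rw [integrable_nu_iff hwc hwpos hν]
      rw [integrable_indicator_iff measurableSet_Ici] at hh1
      refine hh1.congr (Eventually.of_forall (fun x => ?_))
      show h0 x * (1 * (w x : ℂ)) = (w x : ℂ) * h0 x
      ring
    let h : Lp ℂ 1 ν := hh0.toL1 _
    have hh : (h : ℝ → ℂ) =ᵐ[ν] h0 := hh0.coeFn_toL1
    have hmem : h ∈ I := by
      refine hI f hf g h (hh.trans ?_)
      refine ae_nu_of hν ?_
      refine (ae_restrict_mem measurableSet_Ici).mono (fun x hx => ?_)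
      show (∫ t in (0 : ℝ)..x, (f : ℝ → ℂ) t * B.indicator (fun _ => (1:ℂ)) (x - t)) =
        ∫ t in (0 : ℝ)..x, (f : ℝ → ℂ) t * (g : ℝ → ℂ) (x - t)
      refine intervalIntegral.integral_congr_ae ?_
      have hq : ∀ᵐ t : ℝ, (x - t) ∈ Ici (0:ℝ) →
          (g : ℝ → ℂ) (x - t) = B.indicator (fun _ => (1:ℂ)) (x - t) :=
        (quasiMeasurePreserving_sub_left volume x).ae hg''
      filter_upwards [hq] with t ht htm
      rw [uIoc_of_le hx] at htm
      rw [ht (sub_nonneg.mpr htm.2)]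
    have hzero : φ h = 0 := hφ h hmem
    rw [hrep] at hzero
    obtain ⟨-, hk1, hk2⟩ := conv_lemma hwc hwpos hsm hfm hfi hwi hk hkC hB
    rw [← hk2, integral_indicator measurableSet_Ici, ← hzero, integral_nu hwc hwpos hν]
    have hhv : ∀ᵐ x ∂(volume.restrict (Ici (0 : ℝ))), (h : ℝ → ℂ) x = h0 x :=
      ae_vol_of hwc hwpos hν hh
    refine integral_congr_ae ?_
    filter_upwards [hhv] with x hx
    rw [hx]
    show h0 x * (k x * (w x : ℂ)) = (w x : ℂ) * (h0 x * k x)
    ring
  obtain ⟨hHi, -, -⟩ := conv_lemma hwc hwpos hsm hfm hfi hwi hk hkC MeasurableSet.univ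
  have hz := Integrable.ae_eq_zero_of_forall_setIntegral_eq_zero hHi (fun s hs _ => key s hs)
  filter_upwards [hz] with a ha ha0
  rw [indicator_of_mem (show a ∈ Ici (0:ℝ) from ha0)] at ha
  exact ha

end MP_c588fa_an
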