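import Mathlib

set_option autoImplicit false
open MeasureTheory Filter Set Complex

namespace MP_c588fa_an

/-- the Poisson kernel of a half plane, at distance `x` from the boundary line -/
noncomputable def pk (x t : ℝ) : ℝ := (1 / Real.pi) * (x / (x ^ 2 + t ^ 2))

lemma pk_nonneg {x : ℝ} (hx : 0 ≤ x) (t : ℝ) : 0 ≤ pk x t := by
  unfold pk; positivity

lemma pk_pos {x : ℝ} (hx : 0 < x) (t : ℝ) : 0 < pk x t := by
  unfold pk; positivity

lemma pk_le {x : ℝ} (hx : 0 < x) (t : ℝ) : pk x t ≤ 1 / (Real.pi * x) := by
  unfold pk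
  rw [one_div_mul_eq_div, div_div, div_le_div_iff₀ (by positivity) (by positivity)]
  have := Real.pi_pos
  nlinarith [mul_nonneg this.le (sq_nonneg t)]

lemma continuous_pk {x : ℝ} (hx : 0 < x) : Continuous (pk x) := by
  unfold pk
  refine continuous_const.mul (continuous_const.div (by fun_prop) ?_)
  intro t; positivity

end MP_c588fa_an
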