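import Pool.Agent.Lib_MP_c588fa_an.Defs

set_option autoImplicit false
open MeasureTheory Filter Set Complex

namespace MP_c588fa_an

private lemma memLp_one {ν : Measure ℝ} [IsFiniteMeasure ν] (f : Lp ℂ 2 ν) :
    MemLp (f : ℝ → ℂ) 1 ν := (Lp.memLp f).mono_exponent (by norm_num)

/-- the inclusion of `L²` into `L¹` -/
private noncomputable def incl (ν : Measure ℝ) [IsFiniteMeasure ν] :
    Lp ℂ 2 ν →L[ℂ] Lp ℂ 1 ν :=
  LinearMap.mkContinuous
    { toFun := fun f => (memLp_one f).toLp _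
      map_add' := fun f g => by
        rw [← MemLp.toLp_add]
        exact MemLp.toLp_congr _ _ (Lp.coeFn_add f g)
      map_smul' := fun c f => by
        rw [RingHom.id_apply, ← MemLp.toLp_const_smul]
        exact MemLp.toLp_congr _ _ (Lp.coeFn_smul c f) }
    ((ν univ) ^ (1 / (1 : ENNReal).toReal - 1 / (2 : ENNReal).toReal)).toReal
    (fun f => by
      show ‖(memLp_one f).toLp _‖ ≤ _
      rw [Lp.norm_toLp, Lp.norm_def, mul_comm, ← ENNReal.toReal_mul]
      refine ENNReal.toReal_mono ?_ ?_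
      · refine ENNReal.mul_ne_top (Lp.eLpNorm_ne_top f) ?_
        exact ENNReal.rpow_ne_top_of_nonneg (by norm_num) (measure_ne_top _ _)
      · exact eLpNorm_le_eLpNorm_mul_rpow_measure_univ (by norm_num) (Lp.aestronglyMeasurable f))

private lemma incl_ae {ν : Measure ℝ} [IsFiniteMeasure ν] (f : Lp ℂ 2 ν) :
    (incl ν f : ℝ → ℂ) =ᵐ[ν] f := (memLp_one f).coeFn_toLp

private lemma integrable_mul_k {ν : Measure ℝ} {k : ℝ → ℂ} (hk : Measurable k) {M : ℝ}
    (hkM : ∀ x, ‖k x‖ ≤ M) (u : Lp ℂ 1 ν) : Integrable (fun x => (u : ℝ → ℂ) x * k x) ν :=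
  (L1.integrable_coeFn u).mul_bdd hk.aestronglyMeasurable (Eventually.of_forall hkM)

private noncomputable def lam {ν : Measure ℝ} {k : ℝ → ℂ} (hk : Measurable k) {M : ℝ}
    (hkM : ∀ x, ‖k x‖ ≤ M) : Lp ℂ 1 ν →L[ℂ] ℂ :=
  LinearMap.mkContinuous
    { toFun := fun u => ∫ x, (u : ℝ → ℂ) x * k x ∂ν
      map_add' := fun u v => by
        rw [← integral_add (integrable_mul_k hk hkM u) (integrable_mul_k hk hkM v)]
        refine integral_congr_ae ?_
        filter_upwards [Lp.coeFn_add u v] with x hx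
        rw [hx, Pi.add_apply, add_mul]
      map_smul' := fun c u => by
        rw [RingHom.id_apply, smul_eq_mul, ← integral_const_mul]
        refine integral_congr_ae ?_
        filter_upwards [Lp.coeFn_smul c u] with x hx
        rw [hx, Pi.smul_apply, smul_eq_mul, mul_assoc] }
    M
    (fun u => by
      show ‖∫ x, (u : ℝ → ℂ) x * k x ∂ν‖ ≤ _
      rw [L1.norm_eq_integral_norm, ← integral_const_mul]
      refine (norm_integral_le_integral_norm _).trans ?_
      refine integral_mono_of_nonneg (Eventually.of_forall fun x => norm_nonneg _)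
        ((L1.integrable_coeFn u).norm.const_mul M) (Eventually.of_forall fun x => ?_)
      show ‖(u : ℝ → ℂ) x * k x‖ ≤ M * ‖(u : ℝ → ℂ) x‖
      rw [norm_mul, mul_comm]
      exact mul_le_mul_of_nonneg_right (hkM x) (norm_nonneg _))

theorem dual_L1 {ν : Measure ℝ} [IsFiniteMeasure ν] (φ : Lp ℂ 1 ν →L[ℂ] ℂ) :
    ∃ k : ℝ → ℂ, Measurable k ∧ (∀ x, ‖k x‖ ≤ ‖φ‖) ∧
      ∀ u : Lp ℂ 1 ν, φ u = ∫ x, (u : ℝ → ℂ) x * k x ∂ν := by
  set ψ : Lp ℂ 2 ν →L[ℂ] ℂ := φ.comp (incl ν) with hψ
  set g : Lp ℂ 2 ν := (InnerProductSpace.toDual ℂ (Lp ℂ 2 ν)).symm ψ with hg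
  have hgψ : ∀ f : Lp ℂ 2 ν, ∫ x, (f : ℝ → ℂ) x * (starRingEnd ℂ) ((g : ℝ → ℂ) x) ∂ν =
      φ (incl ν f) := by
    intro f
    have h1 : inner ℂ g f = ψ f := InnerProductSpace.toDual_symm_apply
    have h2 : φ (incl ν f) = ψ f := rfl
    rw [h2, ← h1, L2.inner_def]
    refine integral_congr_ae (Eventually.of_forall fun x => ?_)
    beta_reduce
    rw [RCLike.inner_apply]
  -- a measurable version
  set g0 : ℝ → ℂ := (Lp.aestronglyMeasurable g).mk _ with hg0
  have hg0m : Measurable g0 := (Lp.aestronglyMeasurable g).stronglyMeasurable_mk.measurable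
  have hg0e : (g : ℝ → ℂ) =ᵐ[ν] g0 := (Lp.aestronglyMeasurable g).ae_eq_mk
  set M : ℝ := ‖φ‖ with hM
  have hM0 : 0 ≤ M := norm_nonneg _
  set A : Set ℝ := {x | M < ‖g0 x‖} with hA
  have hAm : MeasurableSet A := measurableSet_lt measurable_const hg0m.norm
  -- test function
  set u : ℝ → ℂ := fun x => A.indicator (fun x => g0 x / (‖g0 x‖ : ℂ)) x with hu
  have hum : Measurable u :=
    (hg0m.div (Complex.measurable_ofReal.comp hg0m.norm)).indicator hAm
  have hu1 : ∀ x, ‖u x‖ ≤ 1 := by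
    intro x
    rw [hu]
    by_cases hx : x ∈ A
    · beta_reduce
      rw [indicator_of_mem hx, norm_div, norm_real, norm_norm]
      exact div_self_le_one _
    · beta_reduce
      rw [indicator_of_notMem hx]
      simp
  have hunorm : ∀ x, ‖u x‖ ≤ A.indicator (fun _ => (1 : ℝ)) x := by
    intro x
    by_cases hx : x ∈ A
    · rw [indicator_of_mem hx]
      exact hu1 x
    · rw [indicator_of_notMem hx, hu]
      beta_reduce
      rw [indicator_of_notMem hx]
      simp
  have hul2 : MemLp u 2 ν := MemLp.of_bound hum.aestronglyMeasurable 1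
    (Eventually.of_forall hu1)
  have hgint : Integrable (fun x => ‖g0 x‖) ν := by
    have : Integrable (fun x => (g : ℝ → ℂ) x) ν := memLp_one_iff_integrable.1 (memLp_one g)
    exact (this.congr hg0e).norm
  have hkey : ∫ x in A, ‖g0 x‖ ∂ν ≤ M * ν.real A := by
    have h1 : ((∫ x in A, ‖g0 x‖ ∂ν : ℝ) : ℂ) = φ (incl ν (hul2.toLp u)) := by
      rw [← hgψ, ← integral_complex_ofReal, ← integral_indicator hAm]
      refine integral_congr_ae ?_
      filter_upwards [hul2.coeFn_toLp, hg0e] with x hx hx2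
      rw [hx, hx2, hu]
      beta_reduce
      by_cases hxA : x ∈ A
      · rw [indicator_of_mem hxA, indicator_of_mem hxA]
        have hpos : 0 < ‖g0 x‖ := lt_of_le_of_lt hM0 hxA
        have hne : (‖g0 x‖ : ℂ) ≠ 0 := by exact_mod_cast hpos.ne'
        rw [div_mul_eq_mul_div, mul_conj', sq, mul_div_assoc, div_self hne, mul_one]
      · rw [indicator_of_notMem hxA, indicator_of_notMem hxA, zero_mul]
    have h0 : 0 ≤ ∫ x in A, ‖g0 x‖ ∂ν := integral_nonneg fun x => norm_nonneg _
    have h2 : ∫ x in A, ‖g0 x‖ ∂ν = ‖φ (incl ν (hul2.toLp u))‖ := by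
      rw [← h1, norm_real, Real.norm_of_nonneg h0]
    rw [h2]
    refine (φ.le_opNorm _).trans ?_
    refine mul_le_mul_of_nonneg_left ?_ hM0
    rw [L1.norm_eq_integral_norm]
    have h3 : ν.real A = ∫ x, A.indicator (fun _ => (1 : ℝ)) x ∂ν := by
      rw [integral_indicator hAm, setIntegral_const]
      simp
    rw [h3]
    refine integral_mono_of_nonneg (Eventually.of_forall fun x => norm_nonneg _)
      ((integrable_const (1 : ℝ)).indicator hAm) ?_
    filter_upwards [incl_ae (hul2.toLp u), hul2.coeFn_toLp] with x hx hx2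
    rw [hx, hx2]
    exact hunorm x
  have hAnull : ν A = 0 := by
    have h1 : ∫ x in A, (‖g0 x‖ - M) ∂ν ≤ 0 := by
      rw [integral_sub hgint.integrableOn (integrable_const _), setIntegral_const]
      have : ν.real A • M = M * ν.real A := by rw [smul_eq_mul, mul_comm]
      rw [this]
      linarith
    have h2 : 0 ≤ᵐ[ν.restrict A] fun x => ‖g0 x‖ - M := by
      refine (ae_restrict_iff' hAm).2 (Eventually.of_forall fun x hx => ?_)
      have : M < ‖g0 x‖ := hx
      show 0 ≤ ‖g0 x‖ - M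
      linarith
    have h3 : ∫ x in A, (‖g0 x‖ - M) ∂ν = 0 := le_antisymm h1 (integral_nonneg_of_ae h2)
    rw [integral_eq_zero_iff_of_nonneg_ae h2
      (hgint.integrableOn.sub (integrable_const _))] at h3
    have h4 : ∀ᵐ x ∂(ν.restrict A), x ∉ A := by
      filter_upwards [h3] with x hx hxA
      have h5 : M < ‖g0 x‖ := hxA
      have h6 : ‖g0 x‖ - M = 0 := hx
      linarith
    rw [ae_restrict_iff' hAm] at h4
    rw [measure_eq_zero_iff_ae_notMem]
    filter_upwards [h4] with x hx hxA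
    exact hx hxA hxA
  -- the bounded density
  set k : ℝ → ℂ := fun x => (starRingEnd ℂ) (Aᶜ.indicator g0 x) with hk
  have hkm : Measurable k := Complex.continuous_conj.measurable.comp
    (hg0m.indicator hAm.compl)
  have hkM : ∀ x, ‖k x‖ ≤ M := by
    intro x
    rw [hk]
    beta_reduce
    rw [RCLike.norm_conj]
    by_cases hx : x ∈ A
    · rw [indicator_of_notMem (by simpa using hx)]
      simpa using hM0
    · rw [indicator_of_mem (by simpa using hx)]
      exact not_lt.1 hx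
  have hkg : ∀ᵐ x ∂ν, (starRingEnd ℂ) ((g : ℝ → ℂ) x) = k x := by
    have h1 : ∀ᵐ x ∂ν, x ∉ A := measure_eq_zero_iff_ae_notMem.1 hAnull
    filter_upwards [hg0e, h1] with x hx hxA
    rw [hx, hk]
    beta_reduce
    rw [indicator_of_mem (by simpa using hxA)]
  have hlam : ∀ u : Lp ℂ 1 ν, lam (ν := ν) hkm hkM u = ∫ x, (u : ℝ → ℂ) x * k x ∂ν :=
    fun _ => rfl
  have hJ : ∀ f : Lp ℂ 2 ν, φ (incl ν f) = lam (ν := ν) hkm hkM (incl ν f) := by
    intro f
    rw [hlam, ← hgψ]
    refine integral_congr_ae ?_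
    filter_upwards [incl_ae f, hkg] with x hx hx2
    rw [hx, hx2]
  refine ⟨k, hkm, hkM, fun u => ?_⟩
  rw [← hlam]
  refine Lp.induction (by norm_num) (fun u => φ u = lam (ν := ν) hkm hkM u) ?_ ?_ ?_ u
  · intro c s hs hμs
    have : ((Lp.simpleFunc.indicatorConst 1 hs hμs.ne c : Lp.simpleFunc ℂ 1 ν) : Lp ℂ 1 ν) =
        incl ν (indicatorConstLp 2 hs hμs.ne c) := by
      rw [Lp.simpleFunc.coe_indicatorConst]
      apply Lp.ext
      filter_upwards [incl_ae (indicatorConstLp 2 hs hμs.ne c),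
        indicatorConstLp_coeFn (p := 1) (hs := hs) (hμs := hμs.ne) (c := c),
        indicatorConstLp_coeFn (p := 2) (hs := hs) (hμs := hμs.ne) (c := c)] with x h1 h2 h3
      rw [h1, h2, h3]
    rw [this]
    exact hJ _
  · intro f g hf hg _ h1 h2
    rw [map_add, map_add, h1, h2]
  · exact isClosed_eq φ.continuous (lam (ν := ν) hkm hkM).continuous

end MP_c588fa_an
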