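import Pool.Agent.Lib_MP_c588fa_an.Defs

set_option autoImplicit false
open MeasureTheory Filter Set Complex

namespace MP_c588fa_an

theorem integrable_pk {x : ℝ} (hx : 0 < x) (τ : ℝ) : Integrable (fun t : ℝ => pk x (t - τ)) := by
  have h : pk x = fun t => (1 / Real.pi) * ((1 / x) * (1 + (t / x) ^ 2)⁻¹) := by
    funext t
    unfold pk
    field_simp
  have h1 : Integrable (pk x) := by
    rw [h]
    exact ((integrable_inv_one_add_sq.comp_div hx.ne').const_mul _).const_mul _
  exact h1.comp_sub_right τ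

theorem integral_pk {x : ℝ} (hx : 0 < x) (τ : ℝ) : ∫ t : ℝ, pk x (t - τ) = 1 := by
  have h : pk x = fun t => (1 / Real.pi) * ((1 / x) * (1 + (t / x) ^ 2)⁻¹) := by
    funext t
    unfold pk
    field_simp
  rw [integral_sub_right_eq_self (pk x) τ, h, integral_const_mul, integral_const_mul,
    Measure.integral_comp_div (fun y : ℝ => (1 + y ^ 2)⁻¹) x, integral_univ_inv_one_add_sq,
    abs_of_pos hx, smul_eq_mul]
  have := Real.pi_pos
  field_simp

/-- sub mean value property of the positive part of the logarithm of an analytic function -/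
theorem posLog_le_circleAverage {h : ℂ → ℂ} {r : ℝ} (hr : 0 < r)
    (hh : AnalyticOnNhd ℂ h (Metric.closedBall 0 r)) :
    Real.posLog ‖h 0‖ ≤ Real.circleAverage (fun z => Real.posLog ‖h z‖) 0 r := by
  by_cases h0 : ‖h 0‖ ≤ 1
  · rw [(Real.posLog_eq_zero_iff _).mpr (by simpa using h0)]
    exact Real.circleAverage_nonneg_of_nonneg fun z _ => Real.posLog_nonneg
  have h0' : 1 < ‖h 0‖ := not_le.mp h0
  have hne : h 0 ≠ 0 := by
    intro he
    rw [he, norm_zero] at h0'
    linarith
  have habs : |r| = r := abs_of_pos hr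
  have hJ := AnalyticOnNhd.circleAverage_log_norm (c := 0) (R := r) (f := h) hr.ne'
    (by rwa [habs]) hne
  have hsum : 0 ≤ ∑ᶠ u, MeromorphicOn.divisor h (Metric.closedBall 0 |r|) u *
      Real.log (r * ‖0 - u‖⁻¹) := by
    apply finsum_nonneg
    intro u
    by_cases hu : u ∈ Metric.closedBall (0 : ℂ) |r|
    · by_cases hu0 : u = 0
      · subst hu0
        simp
      · apply mul_nonneg
        · exact_mod_cast MeromorphicOn.AnalyticOnNhd.divisor_nonneg (by rwa [habs]) u
        · apply Real.log_nonneg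
          rw [Metric.mem_closedBall, dist_zero_right, habs] at hu
          have hup : 0 < ‖u‖ := norm_pos_iff.mpr hu0
          rw [zero_sub, norm_neg, ← div_eq_mul_inv, le_div_iff₀ hup]
          linarith
    · rw [Function.locallyFinsuppWithin.apply_eq_zero_of_notMem _ hu]
      simp
  have hcont : ContinuousOn (fun z => Real.posLog ‖h z‖) (Metric.sphere 0 |r|) := by
    rw [habs]
    exact Real.continuous_posLog.comp_continuousOn
      ((hh.continuousOn.mono Metric.sphere_subset_closedBall).norm)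
  have hle : Real.circleAverage (fun z => Real.log ‖h z‖) 0 r ≤
      Real.circleAverage (fun z => Real.posLog ‖h z‖) 0 r := by
    apply Real.circleAverage_mono
    · refine MeromorphicOn.circleIntegrable_log_norm ?_
      rw [habs]
      exact (hh.mono Metric.sphere_subset_closedBall).meromorphicOn
    · exact hcont.circleIntegrable'
    · intro z _
      exact le_max_right _ _
  rw [Real.posLog_eq_log (by simpa using h0'.le)]
  linarith

/-- the Cayley map from the disc to the half plane `c < Re s` sending `0` to `c + x + i τ` -/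
noncomputable def cay (c x τ : ℝ) (z : ℂ) : ℂ := (c : ℂ) + (τ : ℂ) * I + (x : ℂ) * ((1 + z) / (1 - z))

theorem cay_zero (c x τ : ℝ) : cay c x τ 0 = ((c + x : ℝ) : ℂ) + (τ : ℂ) * I := by
  unfold cay
  push_cast
  simp
  ring

theorem cay_re (c x τ : ℝ) (z : ℂ) :
    (cay c x τ z).re = c + x * ((1 - ‖z‖ ^ 2) / ‖1 - z‖ ^ 2) := by
  have h1 : ((1 + z) / (1 - z)).re = (1 - ‖z‖ ^ 2) / ‖1 - z‖ ^ 2 := by
    rw [Complex.div_re, ← Complex.normSq_eq_norm_sq, ← Complex.normSq_eq_norm_sq,
      Complex.normSq_apply z]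
    simp only [add_re, one_re, sub_re, add_im, one_im, sub_im]
    ring
  unfold cay
  rw [add_re, add_re, Complex.re_ofReal_mul x, h1]
  simp

theorem cay_mem {c x τ : ℝ} (hx : 0 < x) {z : ℂ} (hz : ‖z‖ < 1) : c < (cay c x τ z).re := by
  rw [cay_re]
  have h1 : (0 : ℝ) < ‖1 - z‖ ^ 2 := by
    have : (1 : ℂ) - z ≠ 0 := by
      intro h
      have : z = 1 := (sub_eq_zero.mp h).symm
      rw [this, norm_one] at hz
      linarith
    positivity
  have h2 : 0 < 1 - ‖z‖ ^ 2 := by nlinarith [norm_nonneg z]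
  have : 0 < x * ((1 - ‖z‖ ^ 2) / ‖1 - z‖ ^ 2) := by positivity
  linarith

theorem cay_mem' {c x τ : ℝ} (hx : 0 < x) {z : ℂ} (hz : ‖z‖ ≤ 1) : c ≤ (cay c x τ z).re := by
  rw [cay_re]
  have h2 : 0 ≤ 1 - ‖z‖ ^ 2 := by nlinarith [norm_nonneg z]
  have : 0 ≤ x * ((1 - ‖z‖ ^ 2) / ‖1 - z‖ ^ 2) := by positivity
  linarith

theorem cay_continuousAt {c x τ : ℝ} {z : ℂ} (hz : z ≠ 1) : ContinuousAt (cay c x τ) z := by
  unfold cay
  have : (1 : ℂ) - z ≠ 0 := sub_ne_zero.mpr (Ne.symm hz)
  fun_prop (disch := assumption)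

theorem cay_differentiableAt {c x τ : ℝ} {z : ℂ} (hz : z ≠ 1) :
    DifferentiableAt ℂ (cay c x τ) z := by
  unfold cay
  have : (1 : ℂ) - z ≠ 0 := sub_ne_zero.mpr (Ne.symm hz)
  fun_prop (disch := assumption)

/-- the angle -/
noncomputable def ang (x τ t : ℝ) : ℝ := Real.pi - 2 * Real.arctan ((t - τ) / x)

theorem ang_hasDeriv {x : ℝ} (hx : 0 < x) (τ t : ℝ) :
    HasDerivAt (ang x τ) (-(2 * Real.pi * pk x (t - τ))) t := by
  have h1 : HasDerivAt (fun t : ℝ => (t - τ) / x) (1 / x) t :=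
    ((hasDerivAt_id t).sub_const τ).div_const x
  have h2 := ((h1.arctan).const_mul 2).const_sub Real.pi
  have h3 : -(2 * (1 / (1 + ((t - τ) / x) ^ 2) * (1 / x))) = -(2 * Real.pi * pk x (t - τ)) := by
    unfold pk
    have := Real.pi_pos
    field_simp
  rw [h3] at h2
  exact h2

theorem ang_injective {x : ℝ} (hx : 0 < x) (τ : ℝ) : Function.Injective (ang x τ) := by
  intro s t hst
  unfold ang at hst
  have h1 : Real.arctan ((s - τ) / x) = Real.arctan ((t - τ) / x) := by linarith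
  have h2 := Real.arctan_injective h1
  have h3 : s - τ = t - τ := by
    field_simp at h2
    linarith
  linarith

theorem ang_image {x : ℝ} (hx : 0 < x) (τ : ℝ) : ang x τ '' univ = Ioo 0 (2 * Real.pi) := by
  ext θ
  constructor
  · rintro ⟨t, -, rfl⟩
    have h1 := Real.arctan_lt_pi_div_two ((t - τ) / x)
    have h2 := Real.neg_pi_div_two_lt_arctan ((t - τ) / x)
    unfold ang
    constructor <;> linarith
  · rintro ⟨h1, h2⟩
    refine ⟨τ + x * Real.tan ((Real.pi - θ) / 2), mem_univ _, ?_⟩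
    unfold ang
    have h3 : (τ + x * Real.tan ((Real.pi - θ) / 2) - τ) / x = Real.tan ((Real.pi - θ) / 2) := by
      field_simp
      ring
    rw [h3, Real.arctan_tan (by linarith) (by linarith)]
    ring

theorem circleMap_ang {x : ℝ} (τ t : ℝ) : circleMap 0 1 (ang x τ t) =
    -((1 - (((t - τ) / x : ℝ) : ℂ) * I) ^ 2 / (1 + (((t - τ) / x : ℝ) : ℂ) ^ 2)) := by
  set v : ℝ := (t - τ) / x with hv
  have hw : cexp (-((Real.arctan v : ℂ)) * I) = (1 - (v : ℂ) * I) / (Real.sqrt (1 + v ^ 2) : ℂ) := by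
    rw [Complex.exp_mul_I, Complex.cos_neg, Complex.sin_neg, ← Complex.ofReal_cos,
      ← Complex.ofReal_sin, Real.cos_arctan, Real.sin_arctan]
    push_cast
    ring
  have hang : circleMap 0 1 (ang x τ t) = -(cexp (-((Real.arctan v : ℂ)) * I)) ^ 2 := by
    rw [circleMap_zero]
    unfold ang
    rw [← hv]
    have : ((Real.pi - 2 * Real.arctan v : ℝ) : ℂ) * I =
        Real.pi * I + (-((Real.arctan v : ℂ)) * I + -((Real.arctan v : ℂ)) * I) := by
      push_cast
      ring
    rw [this, Complex.exp_add, Complex.exp_pi_mul_I, Complex.exp_add]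
    push_cast
    ring
  rw [hang, hw, div_pow]
  have hs : ((Real.sqrt (1 + v ^ 2) : ℝ) : ℂ) ^ 2 = 1 + (v : ℂ) ^ 2 := by
    rw [← Complex.ofReal_pow, Real.sq_sqrt (by positivity)]
    push_cast
    ring
  rw [hs]

theorem cay_circleMap {c x : ℝ} (hx : 0 < x) (τ t : ℝ) :
    cay c x τ (circleMap 0 1 (ang x τ t)) = (c : ℂ) + (t : ℂ) * I := by
  rw [circleMap_ang]
  set v : ℝ := (t - τ) / x with hv
  have hxv : (x : ℂ) * (v : ℂ) = (t : ℂ) - (τ : ℂ) := by
    have : x * v = t - τ := by rw [hv]; field_simp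
    exact_mod_cast this
  have h1 : (1 : ℂ) + (v : ℂ) ^ 2 ≠ 0 := by
    have : (0 : ℝ) < 1 + v ^ 2 := by positivity
    exact_mod_cast this.ne'
  have h2 : (1 : ℂ) - (v : ℂ) * I ≠ 0 := by
    intro h
    apply h1
    have : (1 : ℂ) + (v : ℂ) ^ 2 = (1 - (v : ℂ) * I) * (1 + (v : ℂ) * I) := by
      linear_combination ((v : ℂ) ^ 2) * Complex.I_sq
    rw [this, h, zero_mul]
  have h3 : (1 + -((1 - (v : ℂ) * I) ^ 2 / (1 + (v : ℂ) ^ 2))) /
      (1 - -((1 - (v : ℂ) * I) ^ 2 / (1 + (v : ℂ) ^ 2))) = (v : ℂ) * I := by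
    have h4 : 1 - -((1 - (v : ℂ) * I) ^ 2 / (1 + (v : ℂ) ^ 2)) =
        2 * (1 - (v : ℂ) * I) / (1 + (v : ℂ) ^ 2) := by
      field_simp
      linear_combination ((v : ℂ) ^ 2) * Complex.I_sq
    have h5 : 1 + -((1 - (v : ℂ) * I) ^ 2 / (1 + (v : ℂ) ^ 2)) =
        2 * ((v : ℂ) * I) * (1 - (v : ℂ) * I) / (1 + (v : ℂ) ^ 2) := by
      field_simp
      linear_combination ((v : ℂ) ^ 2) * Complex.I_sq
    rw [h4, h5]
    field_simp
  unfold cay
  rw [h3]
  linear_combination I * hxv

/-- the inequality for the positive part of the logarithm -/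
theorem halfPlane_posLog {F : ℂ → ℂ} {c B : ℝ}
    (hF : DiffContOnCl ℂ F {s : ℂ | c < s.re}) (hB : ∀ s : ℂ, c ≤ s.re → ‖F s‖ ≤ B)
    {x : ℝ} (hx : 0 < x) (τ : ℝ) :
    Real.posLog ‖F (((c + x : ℝ) : ℂ) + (τ : ℂ) * I)‖ ≤
      ∫ t : ℝ, pk x (t - τ) * Real.posLog ‖F ((c : ℂ) + (t : ℂ) * I)‖ := by
  have hopen : IsOpen {s : ℂ | c < s.re} := isOpen_lt continuous_const Complex.continuous_re
  have hcl : closure {s : ℂ | c < s.re} = {s : ℂ | c ≤ s.re} := Complex.closure_setOfPred_lt_re c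
  have hFc : ContinuousOn F {s : ℂ | c ≤ s.re} := by
    rw [← hcl]; exact hF.continuousOn
  set h : ℂ → ℂ := fun z => F (cay c x τ z) with hh
  have hne1 : ∀ z : ℂ, ‖z‖ < 1 → z ≠ 1 := by
    intro z hz he
    rw [he, norm_one] at hz
    exact lt_irrefl _ hz
  have hd : DifferentiableOn ℂ h (Metric.ball 0 1) := by
    intro z hz
    rw [Metric.mem_ball, dist_zero_right] at hz
    have h1 : DifferentiableAt ℂ F (cay c x τ z) :=
      hF.differentiableOn.differentiableAt (hopen.mem_nhds (cay_mem hx hz))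
    exact (h1.comp z (cay_differentiableAt (hne1 z hz))).differentiableWithinAt
  have hana : AnalyticOnNhd ℂ h (Metric.ball 0 1) := hd.analyticOnNhd Metric.isOpen_ball
  -- step 1
  have hstep1 : ∀ r : ℝ, 0 < r → r < 1 → 2 * Real.pi * Real.posLog ‖h 0‖ ≤
      ∫ θ in (0 : ℝ)..2 * Real.pi, Real.posLog ‖h (circleMap 0 r θ)‖ := by
    intro r hr0 hr1
    have h1 := posLog_le_circleAverage hr0
      (hana.mono (Metric.closedBall_subset_ball hr1))
    rw [Real.circleAverage_def, smul_eq_mul] at h1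
    have h2 := mul_le_mul_of_nonneg_left h1 Real.two_pi_pos.le
    rwa [mul_inv_cancel_left₀ Real.two_pi_pos.ne'] at h2
  -- step 2
  have hlim : Tendsto (fun r : ℝ => ∫ θ in (0 : ℝ)..2 * Real.pi,
      Real.posLog ‖h (circleMap 0 r θ)‖) (nhdsWithin 1 (Ioo 0 1))
      (nhds (∫ θ in (0 : ℝ)..2 * Real.pi, Real.posLog ‖h (circleMap 0 1 θ)‖)) := by
    apply intervalIntegral.tendsto_integral_filter_of_dominated_convergence
      (fun _ => Real.posLog B)
    · filter_upwards [self_mem_nhdsWithin] with r hr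
      apply Continuous.aestronglyMeasurable
      apply Real.continuous_posLog.comp
      apply Continuous.norm
      apply hd.continuousOn.comp_continuous (continuous_circleMap 0 r)
      intro θ
      rw [Metric.mem_ball, dist_zero_right, circleMap_zero, norm_mul, Complex.norm_exp_ofReal_mul_I,
        mul_one, Complex.norm_real, Real.norm_of_nonneg hr.1.le]
      exact hr.2
    · filter_upwards [self_mem_nhdsWithin] with r hr
      refine Eventually.of_forall fun θ _ => ?_
      rw [Real.norm_of_nonneg Real.posLog_nonneg]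
      apply Real.posLog_le_posLog (norm_nonneg _)
      apply hB
      apply cay_mem' hx
      rw [circleMap_zero, norm_mul, Complex.norm_exp_ofReal_mul_I, mul_one, Complex.norm_real,
        Real.norm_of_nonneg hr.1.le]
      exact hr.2.le
    · exact intervalIntegrable_const
    · have hae : ∀ᵐ θ : ℝ, θ ≠ 2 * Real.pi := by
        rw [ae_iff]
        simp
      filter_upwards [hae] with θ hθ hθ2
      rw [uIoc_of_le Real.two_pi_pos.le] at hθ2
      have hθ3 : θ ∈ Ioo 0 (2 * Real.pi) := ⟨hθ2.1, lt_of_le_of_ne hθ2.2 hθ⟩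
      rw [← ang_image hx τ] at hθ3
      obtain ⟨t, -, ht⟩ := hθ3
      have hz1 : circleMap 0 1 θ ≠ 1 := by
        intro he
        have h1 := cay_circleMap (c := c) hx τ t
        rw [ht, circleMap_zero] at h1
        rw [circleMap_zero] at he
        have h2 : (((1 : ℝ) : ℂ) * cexp (θ * I)).re = 1 := by rw [he]; simp
        have h3 : Real.cos θ = 1 := by
          simpa [Complex.exp_ofReal_mul_I_re] using h2
        have h4 := (Real.cos_eq_one_iff θ).mp h3
        obtain ⟨n, hn⟩ := h4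
        have hp := Real.two_pi_pos
        have h5 : (0 : ℝ) < n * (2 * Real.pi) := by rw [hn]; exact hθ2.1
        have h6 : (n : ℝ) * (2 * Real.pi) < 1 * (2 * Real.pi) := by
          rw [hn, one_mul]; exact lt_of_le_of_ne hθ2.2 hθ
        have h7 : (0 : ℝ) < n := by
          by_contra hcon
          push Not at hcon
          nlinarith
        have h8 : (n : ℝ) < 1 := lt_of_mul_lt_mul_right h6 hp.le
        have h9 : (0 : ℤ) < n := by exact_mod_cast h7
        have h10 : n < (1 : ℤ) := by exact_mod_cast h8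
        omega
      have hcm : Tendsto (fun r : ℝ => circleMap 0 r θ) (nhdsWithin 1 (Ioo 0 1))
          (nhds (circleMap 0 1 θ)) := by
        have : Continuous fun r : ℝ => circleMap 0 r θ := by
          unfold circleMap
          fun_prop
        exact (this.tendsto 1).mono_left nhdsWithin_le_nhds
      have hcay : Tendsto (fun r : ℝ => cay c x τ (circleMap 0 r θ)) (nhdsWithin 1 (Ioo 0 1))
          (nhdsWithin (cay c x τ (circleMap 0 1 θ)) {s : ℂ | c ≤ s.re}) := by
        apply tendsto_nhdsWithin_of_tendsto_nhds_of_eventually_within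
        · exact (cay_continuousAt hz1).tendsto.comp hcm
        · filter_upwards [self_mem_nhdsWithin] with r hr
          apply cay_mem' hx
          rw [circleMap_zero, norm_mul, Complex.norm_exp_ofReal_mul_I, mul_one, Complex.norm_real,
            Real.norm_of_nonneg hr.1.le]
          exact hr.2.le
      have hmem : cay c x τ (circleMap 0 1 θ) ∈ {s : ℂ | c ≤ s.re} := by
        apply cay_mem' hx
        simp [circleMap_zero]
      have h1 := (hFc _ hmem).tendsto.comp hcay
      exact (Real.continuous_posLog.tendsto _).comp h1.norm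
  have hle : 2 * Real.pi * Real.posLog ‖h 0‖ ≤
      ∫ θ in (0 : ℝ)..2 * Real.pi, Real.posLog ‖h (circleMap 0 1 θ)‖ := by
    have : (nhdsWithin (1 : ℝ) (Ioo 0 1)).NeBot := by
      rw [← mem_closure_iff_nhdsWithin_neBot, closure_Ioo (by norm_num)]
      exact right_mem_Icc.mpr zero_le_one
    refine ge_of_tendsto hlim ?_
    filter_upwards [self_mem_nhdsWithin] with r hr
    exact hstep1 r hr.1 hr.2
  -- step 3
  have hsub : ∫ θ in (0 : ℝ)..2 * Real.pi, Real.posLog ‖h (circleMap 0 1 θ)‖ =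
      ∫ t : ℝ, 2 * Real.pi * (pk x (t - τ) * Real.posLog ‖F ((c : ℂ) + (t : ℂ) * I)‖) := by
    rw [intervalIntegral.integral_of_le Real.two_pi_pos.le, integral_Ioc_eq_integral_Ioo,
      ← ang_image hx τ,
      integral_image_eq_integral_abs_deriv_smul MeasurableSet.univ
        (fun t _ => (ang_hasDeriv hx τ t).hasDerivWithinAt) (ang_injective hx τ).injOn,
      Measure.restrict_univ]
    congr 1
    funext t
    rw [abs_neg, abs_of_nonneg (mul_nonneg Real.two_pi_pos.le (pk_nonneg hx.le _)), smul_eq_mul,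
      hh]
    simp only
    rw [cay_circleMap hx, mul_assoc]
  rw [hsub, integral_const_mul] at hle
  have h0 : h 0 = F (((c + x : ℝ) : ℂ) + (τ : ℂ) * I) := by
    rw [hh]
    simp only
    rw [cay_zero]
  rw [h0] at hle
  exact le_of_mul_le_mul_left hle Real.two_pi_pos

theorem halfPlane_jensen {F : ℂ → ℂ} {c B : ℝ}
    (hF : DiffContOnCl ℂ F {s : ℂ | c < s.re}) (hB : ∀ s : ℂ, c ≤ s.re → ‖F s‖ ≤ B)
    {δ : ℝ} (hδ : 0 < δ) {x : ℝ} (hx : 0 < x) (τ : ℝ) :
    Real.log (max ‖F (((c + x : ℝ) : ℂ) + (τ : ℂ) * I)‖ δ) ≤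
      ∫ t : ℝ, pk x (t - τ) * Real.log (max ‖F ((c : ℂ) + (t : ℂ) * I)‖ δ) := by
  have key : ∀ z : ℂ, Real.log (max ‖z‖ δ) = Real.log δ + Real.posLog ‖z / (δ : ℂ)‖ := by
    intro z
    have h1 : ‖z / (δ : ℂ)‖ = ‖z‖ / δ := by
      rw [norm_div, Complex.norm_real, Real.norm_of_nonneg hδ.le]
    rw [h1, Real.posLog_eq_log_max_one (by positivity), ← Real.log_mul hδ.ne' (by positivity)]
    congr 1
    rw [mul_max_of_nonneg _ _ hδ.le, mul_one, mul_div_cancel₀ _ hδ.ne', max_comm]
  have hFd : DiffContOnCl ℂ (fun s => F s / (δ : ℂ)) {s : ℂ | c < s.re} := by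
    have h1 := hF.const_smul ((δ : ℂ)⁻¹)
    have h2 : (fun s => F s / (δ : ℂ)) = (δ : ℂ)⁻¹ • F := by
      funext s
      rw [Pi.smul_apply, smul_eq_mul, div_eq_inv_mul]
    rwa [h2]
  have hBd : ∀ s : ℂ, c ≤ s.re → ‖F s / (δ : ℂ)‖ ≤ B / δ := by
    intro s hs
    rw [norm_div, Complex.norm_real, Real.norm_of_nonneg hδ.le]
    exact div_le_div_of_nonneg_right (hB s hs) hδ.le
  have h1 := halfPlane_posLog hFd hBd hx τ
  have hcl : closure {s : ℂ | c < s.re} = {s : ℂ | c ≤ s.re} := Complex.closure_setOfPred_lt_re c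
  have hcont : Continuous fun t : ℝ => Real.posLog ‖F ((c : ℂ) + (t : ℂ) * I) / (δ : ℂ)‖ := by
    apply Real.continuous_posLog.comp
    apply Continuous.norm
    apply Continuous.div_const
    have hFc : ContinuousOn F {s : ℂ | c ≤ s.re} := by
      rw [← hcl]; exact hF.continuousOn
    apply hFc.comp_continuous (by fun_prop)
    intro t
    simp
  have hint : Integrable fun t : ℝ =>
      pk x (t - τ) * Real.posLog ‖F ((c : ℂ) + (t : ℂ) * I) / (δ : ℂ)‖ := by
    apply (integrable_pk hx τ).mul_bdd (c := Real.posLog (B / δ)) hcont.aestronglyMeasurable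
    refine Eventually.of_forall fun t => ?_
    rw [Real.norm_of_nonneg Real.posLog_nonneg]
    apply Real.posLog_le_posLog (norm_nonneg _)
    apply hBd
    simp
  have h2 : ∫ t : ℝ, pk x (t - τ) * Real.log (max ‖F ((c : ℂ) + (t : ℂ) * I)‖ δ) =
      Real.log δ + ∫ t : ℝ, pk x (t - τ) * Real.posLog ‖F ((c : ℂ) + (t : ℂ) * I) / (δ : ℂ)‖ := by
    have h3 : ∀ t : ℝ, pk x (t - τ) * Real.log (max ‖F ((c : ℂ) + (t : ℂ) * I)‖ δ) =
        pk x (t - τ) * Real.log δ +
          pk x (t - τ) * Real.posLog ‖F ((c : ℂ) + (t : ℂ) * I) / (δ : ℂ)‖ := by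
      intro t
      rw [key, mul_add]
    simp_rw [h3]
    rw [integral_add ((integrable_pk hx τ).mul_const _) hint, integral_mul_const, integral_pk hx τ,
      one_mul]
  rw [h2, key]
  linarith

theorem halfPlane_jensen_left {G : ℂ → ℂ} (hG : Differentiable ℂ G) {c B : ℝ}
    (hB : ∀ s : ℂ, s.re ≤ c → ‖G s‖ ≤ B) {s : ℂ} (hs : s.re < c) :
    Real.log (max ‖G s‖ 1) ≤
      ∫ t : ℝ, pk (c - s.re) (t - s.im) * Real.log (max ‖G ((c : ℂ) + (t : ℂ) * I)‖ 1) := by
  have hF : Differentiable ℂ fun z => G (-z) := hG.comp differentiable_neg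
  have h1 := halfPlane_jensen (F := fun z => G (-z)) (c := -c) (B := B)
    hF.diffContOnCl (fun z hz => hB (-z) (by rw [neg_re]; linarith)) one_pos
    (x := c - s.re) (by linarith) (-s.im)
  have h2 : -((((-c + (c - s.re)) : ℝ) : ℂ) + ((-s.im : ℝ) : ℂ) * I) = s := by
    apply Complex.ext <;> simp
  rw [h2] at h1
  refine h1.trans (le_of_eq ?_)
  rw [← integral_neg_eq_self (μ := volume)]
  congr 1
  funext t
  have h3 : pk (c - s.re) (-t - -s.im) = pk (c - s.re) (t - s.im) := by
    unfold pk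
    congr 3
    ring
  have h4 : -(((-c : ℝ) : ℂ) + ((-t : ℝ) : ℂ) * I) = (c : ℂ) + (t : ℂ) * I := by
    push_cast
    ring
  rw [h3, h4]

end MP_c588fa_an
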