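import Pool.Agent.Lib_MP_c588fa_an.Defs

set_option autoImplicit false
open MeasureTheory Filter Set Complex

namespace MP_c588fa_an

private lemma gauss_ft {ν : ℝ} (hν : 0 < ν) (c : ℝ) :
    ∫ t : ℝ, cexp (-(ν : ℂ) * (t : ℂ) ^ 2) * cexp ((t : ℂ) * (c : ℂ) * I) =
      ((Real.sqrt (Real.pi / ν) * Real.exp (-(1 / (4 * ν)) * c ^ 2) : ℝ) : ℂ) := by
  have h := fourierIntegral_gaussian (b := (ν : ℂ)) (by simpa using hν) (c : ℂ)
  have e : ∀ t : ℝ, cexp (-(ν : ℂ) * (t : ℂ) ^ 2) * cexp ((t : ℂ) * (c : ℂ) * I) =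
      cexp (I * c * t) * cexp (-(ν : ℂ) * t ^ 2) := by
    intro t
    rw [mul_comm]
    congr 2
    ring
  simp_rw [e]
  rw [h]
  push_cast
  congr 1
  · rw [← ofReal_div, show (1 / 2 : ℂ) = ((1 / 2 : ℝ) : ℂ) by push_cast; rfl,
      ← ofReal_cpow (by positivity), Real.sqrt_eq_rpow]
  · congr 1
    field_simp

private lemma gauss_mass {ν : ℝ} (hν : 0 < ν) (b : ℝ) :
    ∫ a : ℝ, Real.sqrt (Real.pi / ν) * Real.exp (-(1 / (4 * ν)) * (a - b) ^ 2) =
      2 * Real.pi := by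
  rw [integral_const_mul]
  rw [integral_sub_right_eq_self (fun a : ℝ => Real.exp (-(1 / (4 * ν)) * a ^ 2)) b]
  rw [integral_gaussian, ← Real.sqrt_mul (by positivity)]
  have : Real.pi / ν * (Real.pi / (1 / (4 * ν))) = (2 * Real.pi) ^ 2 := by
    field_simp
    ring
  rw [this, Real.sqrt_sq (by positivity)]

private lemma integrable_gauss {ν : ℝ} (hν : 0 < ν) (b : ℝ) :
    Integrable (fun a : ℝ => Real.sqrt (Real.pi / ν) *
      Real.exp (-(1 / (4 * ν)) * (a - b) ^ 2)) :=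
  ((integrable_exp_neg_mul_sq (b := 1 / (4 * ν)) (by positivity)).comp_sub_right b).const_mul _

/-- the kernel-weighted double integral -/
private lemma schur {ν : ℝ} (hν : 0 < ν) {X : ℝ → ℂ}
    (hX2 : Integrable (fun a : ℝ => ‖X a‖ ^ 2)) :
    ∫ z : ℝ × ℝ, ‖X z.1‖ * ‖X z.2‖ * (Real.sqrt (Real.pi / ν) *
      Real.exp (-(1 / (4 * ν)) * (z.1 - z.2) ^ 2)) ≤ 2 * Real.pi * ∫ a : ℝ, ‖X a‖ ^ 2 := by
  set K : ℝ × ℝ → ℝ := fun z => Real.sqrt (Real.pi / ν) *
      Real.exp (-(1 / (4 * ν)) * (z.1 - z.2) ^ 2) with hK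
  have hKc : Continuous K := by rw [hK]; fun_prop
  have hK0 : ∀ z, 0 ≤ K z := fun z => by rw [hK]; positivity
  -- first part
  have hI2 : Integrable (fun z : ℝ × ℝ => ‖X z.2‖ ^ 2 * K z) := by
    rw [Measure.volume_eq_prod]
    refine (integrable_prod_iff' ?_).2 ⟨?_, ?_⟩
    · exact (hX2.1.comp_snd).mul hKc.aestronglyMeasurable
    · refine Eventually.of_forall fun y => ?_
      exact (integrable_gauss hν y).const_mul (‖X y‖ ^ 2)
    · have : (fun y : ℝ => ∫ x : ℝ, ‖‖X y‖ ^ 2 * K (x, y)‖) =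
          fun y => ‖X y‖ ^ 2 * (2 * Real.pi) := by
        funext y
        have : ∀ x : ℝ, ‖‖X y‖ ^ 2 * K (x, y)‖ = ‖X y‖ ^ 2 * K (x, y) := fun x =>
          Real.norm_of_nonneg (mul_nonneg (by positivity) (hK0 _))
        simp_rw [this]
        rw [integral_const_mul]
        congr 1
        exact gauss_mass hν y
      simp only [this]
      exact hX2.mul_const _
  have hI2v : ∫ z : ℝ × ℝ, ‖X z.2‖ ^ 2 * K z = 2 * Real.pi * ∫ a : ℝ, ‖X a‖ ^ 2 := by
    rw [Measure.volume_eq_prod] at hI2 ⊢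
    rw [integral_prod_symm _ hI2]
    have : ∀ y : ℝ, ∫ x : ℝ, ‖X y‖ ^ 2 * K (x, y) = ‖X y‖ ^ 2 * (2 * Real.pi) := by
      intro y
      rw [integral_const_mul]
      congr 1
      exact gauss_mass hν y
    simp_rw [this]
    rw [integral_mul_const, mul_comm]
  have hsymm : ∀ z : ℝ × ℝ, K z.swap = K z := by
    intro z
    simp only [hK, Prod.fst_swap, Prod.snd_swap]
    congr 3
    ring
  have hI1 : Integrable (fun z : ℝ × ℝ => ‖X z.1‖ ^ 2 * K z) := by
    have := hI2.swap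
    refine this.congr (Eventually.of_forall fun z => ?_)
    simp only [Function.comp, Prod.snd_swap, hsymm]
  have hI1v : ∫ z : ℝ × ℝ, ‖X z.1‖ ^ 2 * K z = 2 * Real.pi * ∫ a : ℝ, ‖X a‖ ^ 2 := by
    rw [← hI2v]
    rw [Measure.volume_eq_prod, ← integral_prod_swap]
    refine integral_congr_ae (Eventually.of_forall fun z => ?_)
    simp only [Prod.fst_swap, hsymm]
  calc ∫ z : ℝ × ℝ, ‖X z.1‖ * ‖X z.2‖ * K z
      ≤ ∫ z : ℝ × ℝ, ((1 / 2) * (‖X z.1‖ ^ 2 * K z) + (1 / 2) * (‖X z.2‖ ^ 2 * K z)) := by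
        refine integral_mono_of_nonneg (Eventually.of_forall fun z => ?_)
          ((hI1.const_mul _).add (hI2.const_mul _)) (Eventually.of_forall fun z => ?_)
        · exact mul_nonneg (by positivity) (hK0 z)
        · show ‖X z.1‖ * ‖X z.2‖ * K z ≤
            (1 / 2) * (‖X z.1‖ ^ 2 * K z) + (1 / 2) * (‖X z.2‖ ^ 2 * K z)
          nlinarith [mul_nonneg (sq_nonneg (‖X z.1‖ - ‖X z.2‖)) (hK0 z)]
    _ = 2 * Real.pi * ∫ a : ℝ, ‖X a‖ ^ 2 := by
        rw [integral_add (hI1.const_mul _) (hI2.const_mul _), integral_const_mul,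
          integral_const_mul, hI1v, hI2v]
        ring

private lemma gauss_reg {ν : ℝ} (hν : 0 < ν) {X : ℝ → ℂ} (hX : Integrable X)
    (hX2 : Integrable (fun a : ℝ => ‖X a‖ ^ 2)) :
    ∫ t : ℝ, Real.exp (-ν * t ^ 2) * ‖∫ a : ℝ, X a * cexp ((t : ℂ) * (a : ℂ) * I)‖ ^ 2 ≤
      2 * Real.pi * ∫ a : ℝ, ‖X a‖ ^ 2 := by
  -- the squared modulus as a double integral
  have h1 : ∀ t : ℝ, (((‖∫ a : ℝ, X a * cexp ((t : ℂ) * (a : ℂ) * I)‖ ^ 2 : ℝ)) : ℂ) =
      ∫ z : ℝ × ℝ, (X z.1 * (starRingEnd ℂ) (X z.2)) *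
        cexp ((t : ℂ) * ((z.1 - z.2 : ℝ) : ℂ) * I) := by
    intro t
    rw [ofReal_pow, ← mul_conj', ← integral_conj]
    rw [← integral_prod_mul]
    rw [Measure.volume_eq_prod]
    refine integral_congr_ae (Eventually.of_forall fun z => ?_)
    show X z.1 * cexp ((t : ℂ) * (z.1 : ℂ) * I) *
      (starRingEnd ℂ) (X z.2 * cexp ((t : ℂ) * (z.2 : ℂ) * I)) = _
    rw [map_mul, ← exp_conj]
    simp only [map_mul, conj_ofReal, conj_I]
    have : cexp ((t : ℂ) * ((z.1 - z.2 : ℝ) : ℂ) * I) =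
        cexp ((t : ℂ) * (z.1 : ℂ) * I) * cexp ((t : ℂ) * (z.2 : ℂ) * -I) := by
      rw [← Complex.exp_add]
      congr 1
      push_cast
      ring
    rw [this]
    ring
  have hXX : Integrable (fun z : ℝ × ℝ => X z.1 * (starRingEnd ℂ) (X z.2)) := by
    rw [Measure.volume_eq_prod]
    exact hX.mul_prod ((LinearIsometryEquiv.integrable_comp_iff conjLIE).2 hX)
  have hG : Integrable (fun t : ℝ => cexp (-(ν : ℂ) * (t : ℂ) ^ 2)) :=
    integrable_cexp_neg_mul_sq (by simpa using hν)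
  have hF : Integrable (Function.uncurry fun (t : ℝ) (z : ℝ × ℝ) =>
      cexp (-(ν : ℂ) * (t : ℂ) ^ 2) * ((X z.1 * (starRingEnd ℂ) (X z.2)) *
        cexp ((t : ℂ) * ((z.1 - z.2 : ℝ) : ℂ) * I))) (volume.prod volume) := by
    have h0 := hG.mul_prod hXX
    have : Integrable (fun w : ℝ × (ℝ × ℝ) =>
        (cexp (-(ν : ℂ) * (w.1 : ℂ) ^ 2) * (X w.2.1 * (starRingEnd ℂ) (X w.2.2))) *
        cexp ((w.1 : ℂ) * ((w.2.1 - w.2.2 : ℝ) : ℂ) * I)) (volume.prod volume) := by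
      refine h0.mul_bdd (c := 1) ?_ ?_
      · exact (by fun_prop : Continuous fun w : ℝ × (ℝ × ℝ) =>
          cexp ((w.1 : ℂ) * ((w.2.1 - w.2.2 : ℝ) : ℂ) * I)).aestronglyMeasurable
      · refine Eventually.of_forall fun w => ?_
        rw [← ofReal_mul, norm_exp_ofReal_mul_I]
    refine this.congr (Eventually.of_forall fun w => ?_)
    simp only [Function.uncurry]
    ring
  have h2 : ((∫ t : ℝ, Real.exp (-ν * t ^ 2) *
      ‖∫ a : ℝ, X a * cexp ((t : ℂ) * (a : ℂ) * I)‖ ^ 2 : ℝ) : ℂ) =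
      ∫ z : ℝ × ℝ, (X z.1 * (starRingEnd ℂ) (X z.2)) *
        ((Real.sqrt (Real.pi / ν) * Real.exp (-(1 / (4 * ν)) * (z.1 - z.2) ^ 2) : ℝ) : ℂ) := by
    rw [← integral_complex_ofReal]
    calc ∫ t : ℝ, ((Real.exp (-ν * t ^ 2) *
          ‖∫ a : ℝ, X a * cexp ((t : ℂ) * (a : ℂ) * I)‖ ^ 2 : ℝ) : ℂ)
        = ∫ t : ℝ, ∫ z : ℝ × ℝ, cexp (-(ν : ℂ) * (t : ℂ) ^ 2) *
          ((X z.1 * (starRingEnd ℂ) (X z.2)) *
          cexp ((t : ℂ) * ((z.1 - z.2 : ℝ) : ℂ) * I)) := by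
          refine integral_congr_ae (Eventually.of_forall fun t => ?_)
          beta_reduce
          rw [integral_const_mul, ofReal_mul, h1 t]
          push_cast
          rfl
      _ = ∫ z : ℝ × ℝ, ∫ t : ℝ, cexp (-(ν : ℂ) * (t : ℂ) ^ 2) *
          ((X z.1 * (starRingEnd ℂ) (X z.2)) *
          cexp ((t : ℂ) * ((z.1 - z.2 : ℝ) : ℂ) * I)) := integral_integral_swap hF
      _ = _ := by
          refine integral_congr_ae (Eventually.of_forall fun z => ?_)
          beta_reduce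
          rw [← gauss_ft hν (z.1 - z.2), ← integral_const_mul]
          refine integral_congr_ae (Eventually.of_forall fun t => ?_)
          beta_reduce
          ring
  have h0 : 0 ≤ ∫ t : ℝ, Real.exp (-ν * t ^ 2) *
      ‖∫ a : ℝ, X a * cexp ((t : ℂ) * (a : ℂ) * I)‖ ^ 2 :=
    integral_nonneg fun t => by positivity
  calc ∫ t : ℝ, Real.exp (-ν * t ^ 2) * ‖∫ a : ℝ, X a * cexp ((t : ℂ) * (a : ℂ) * I)‖ ^ 2
      = ‖((∫ t : ℝ, Real.exp (-ν * t ^ 2) *
          ‖∫ a : ℝ, X a * cexp ((t : ℂ) * (a : ℂ) * I)‖ ^ 2 : ℝ) : ℂ)‖ := by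
        rw [norm_real, Real.norm_of_nonneg h0]
    _ ≤ ∫ z : ℝ × ℝ, ‖(X z.1 * (starRingEnd ℂ) (X z.2)) *
        ((Real.sqrt (Real.pi / ν) * Real.exp (-(1 / (4 * ν)) * (z.1 - z.2) ^ 2) : ℝ) : ℂ)‖ := by
        rw [h2]
        exact norm_integral_le_integral_norm _
    _ = ∫ z : ℝ × ℝ, ‖X z.1‖ * ‖X z.2‖ * (Real.sqrt (Real.pi / ν) *
        Real.exp (-(1 / (4 * ν)) * (z.1 - z.2) ^ 2)) := by
        refine integral_congr_ae (Eventually.of_forall fun z => ?_)
        show ‖(X z.1 * (starRingEnd ℂ) (X z.2)) *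
        ((Real.sqrt (Real.pi / ν) * Real.exp (-(1 / (4 * ν)) * (z.1 - z.2) ^ 2) : ℝ) : ℂ)‖ = _
        rw [norm_mul, norm_mul, norm_real, RCLike.norm_conj,
          Real.norm_of_nonneg (by positivity)]
    _ ≤ _ := schur hν hX2

private lemma integrable_pk' {x : ℝ} (hx : 0 < x) : Integrable (pk x) := by
  have h := (integrable_inv_one_add_sq.comp_div (R := x) hx.ne').const_mul (1 / (Real.pi * x))
  refine h.congr (Eventually.of_forall fun t => ?_)
  show 1 / (Real.pi * x) * (1 + (t / x) ^ 2)⁻¹ = pk x t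
  unfold pk
  have : 0 < x ^ 2 + t ^ 2 := by positivity
  field_simp

theorem l2_bound {X : ℝ → ℂ} (hX : Integrable X) (hX2 : Integrable (fun a : ℝ => ‖X a‖ ^ 2))
    {x : ℝ} (hx : 0 < x) :
    Integrable (fun t : ℝ => pk x t * ‖∫ a : ℝ, X a * cexp ((t : ℂ) * (a : ℂ) * I)‖ ^ 2) ∧
    ∫ t : ℝ, pk x t * ‖∫ a : ℝ, X a * cexp ((t : ℂ) * (a : ℂ) * I)‖ ^ 2 ≤
      (2 / x) * ∫ a : ℝ, ‖X a‖ ^ 2 := by
  set H : ℝ → ℝ := fun t => ‖∫ a : ℝ, X a * cexp ((t : ℂ) * (a : ℂ) * I)‖ ^ 2 with hH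
  have hn : ∀ (t a : ℝ), ‖X a * cexp ((t : ℂ) * (a : ℂ) * I)‖ = ‖X a‖ := by
    intro t a
    rw [norm_mul, ← ofReal_mul, norm_exp_ofReal_mul_I, mul_one]
  have hcont : Continuous H := by
    have : Continuous fun t : ℝ => ∫ a : ℝ, X a * cexp ((t : ℂ) * (a : ℂ) * I) := by
      refine continuous_of_dominated (bound := fun a => ‖X a‖) ?_ ?_ hX.norm ?_
      · intro t
        exact hX.1.mul (by fun_prop : Continuous fun a : ℝ =>
          cexp ((t : ℂ) * (a : ℂ) * I)).aestronglyMeasurable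
      · intro t
        exact Eventually.of_forall fun a => (hn t a).le
      · refine Eventually.of_forall fun a => ?_
        fun_prop
    exact this.norm.pow 2
  have hH0 : ∀ t, 0 ≤ H t := fun t => by rw [hH]; positivity
  have hHle : ∀ t, H t ≤ (∫ a : ℝ, ‖X a‖) ^ 2 := by
    intro t
    have : ‖∫ a : ℝ, X a * cexp ((t : ℂ) * (a : ℂ) * I)‖ ≤ ∫ a : ℝ, ‖X a‖ := by
      refine (norm_integral_le_integral_norm _).trans (le_of_eq ?_)
      simp_rw [hn t]
    exact pow_le_pow_left₀ (norm_nonneg _) this 2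
  have hint : Integrable (fun t : ℝ => pk x t * H t) := by
    refine (integrable_pk' hx).mul_bdd (c := (∫ a : ℝ, ‖X a‖) ^ 2)
      hcont.aestronglyMeasurable (Eventually.of_forall fun t => ?_)
    rw [Real.norm_of_nonneg (hH0 t)]
    exact hHle t
  refine ⟨hint, ?_⟩
  have hX20 : 0 ≤ ∫ a : ℝ, ‖X a‖ ^ 2 := integral_nonneg fun a => by positivity
  -- regularised inequality
  have hreg : ∀ n : ℕ, ∫ t : ℝ, Real.exp (-(1 / ((n : ℝ) + 1)) * t ^ 2) * (pk x t * H t) ≤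
      (2 / x) * ∫ a : ℝ, ‖X a‖ ^ 2 := by
    intro n
    have hν : 0 < 1 / ((n : ℝ) + 1) := by positivity
    have hgi : Integrable (fun t : ℝ => Real.exp (-(1 / ((n : ℝ) + 1)) * t ^ 2) * H t) := by
      refine (integrable_exp_neg_mul_sq hν).mul_bdd (c := (∫ a : ℝ, ‖X a‖) ^ 2)
        hcont.aestronglyMeasurable (Eventually.of_forall fun t => ?_)
      rw [Real.norm_of_nonneg (hH0 t)]
      exact hHle t
    calc ∫ t : ℝ, Real.exp (-(1 / ((n : ℝ) + 1)) * t ^ 2) * (pk x t * H t)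
        ≤ ∫ t : ℝ, (1 / (Real.pi * x)) * (Real.exp (-(1 / ((n : ℝ) + 1)) * t ^ 2) * H t) := by
          refine integral_mono_of_nonneg (Eventually.of_forall fun t => ?_)
            (hgi.const_mul _) (Eventually.of_forall fun t => ?_)
          · exact mul_nonneg (Real.exp_pos _).le (mul_nonneg (pk_nonneg hx.le t) (hH0 t))
          · show Real.exp (-(1 / ((n : ℝ) + 1)) * t ^ 2) * (pk x t * H t) ≤
              (1 / (Real.pi * x)) * (Real.exp (-(1 / ((n : ℝ) + 1)) * t ^ 2) * H t)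
            have := mul_le_mul_of_nonneg_right (pk_le hx t)
              (mul_nonneg (Real.exp_pos (-(1 / ((n : ℝ) + 1)) * t ^ 2)).le (hH0 t))
            calc _ = pk x t * (Real.exp (-(1 / ((n : ℝ) + 1)) * t ^ 2) * H t) := by ring
              _ ≤ _ := this
      _ = (1 / (Real.pi * x)) * ∫ t : ℝ, Real.exp (-(1 / ((n : ℝ) + 1)) * t ^ 2) * H t :=
          integral_const_mul _ _
      _ ≤ (1 / (Real.pi * x)) * (2 * Real.pi * ∫ a : ℝ, ‖X a‖ ^ 2) :=
          mul_le_mul_of_nonneg_left (gauss_reg hν hX hX2) (by positivity)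
      _ = _ := by
          have := Real.pi_pos
          field_simp
  have hlim : Tendsto (fun n : ℕ => ∫ t : ℝ,
      Real.exp (-(1 / ((n : ℝ) + 1)) * t ^ 2) * (pk x t * H t)) atTop
      (nhds (∫ t : ℝ, pk x t * H t)) := by
    refine tendsto_integral_of_dominated_convergence (fun t => pk x t * H t) ?_ hint ?_ ?_
    · intro n
      exact ((by fun_prop : Continuous fun t : ℝ =>
        Real.exp (-(1 / ((n : ℝ) + 1)) * t ^ 2)).mul
        ((continuous_pk hx).mul hcont)).aestronglyMeasurable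
    · intro n
      refine Eventually.of_forall fun t => ?_
      have h1 : 0 ≤ pk x t * H t := mul_nonneg (pk_nonneg hx.le t) (hH0 t)
      rw [norm_mul, Real.norm_of_nonneg (Real.exp_pos _).le, Real.norm_of_nonneg h1]
      have h2 : Real.exp (-(1 / ((n : ℝ) + 1)) * t ^ 2) ≤ 1 := by
        apply Real.exp_le_one_iff.2
        have : 0 ≤ 1 / ((n : ℝ) + 1) * t ^ 2 := by positivity
        linarith
      exact mul_le_of_le_one_left h1 h2
    · refine Eventually.of_forall fun t => ?_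
      have h3 : Tendsto (fun n : ℕ => Real.exp (-(1 / ((n : ℝ) + 1)) * t ^ 2)) atTop
          (nhds 1) := by
        have h4 : Tendsto (fun n : ℕ => (-(1 / ((n : ℝ) + 1)) * t ^ 2)) atTop (nhds 0) := by
          have := ((tendsto_one_div_add_atTop_nhds_zero_nat (𝕜 := ℝ)).neg).mul_const (t ^ 2)
          simpa using this
        have := (Real.continuous_exp.tendsto 0).comp h4
        rw [Real.exp_zero] at this
        exact this
      have := h3.mul_const (pk x t * H t)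
      rw [one_mul] at this
      exact this
  exact le_of_tendsto' hlim hreg

end MP_c588fa_an
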