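import Pool.Agent.Lib_MP_c588fa_an.Defs

set_option autoImplicit false
open MeasureTheory Filter Set Complex

namespace MP_c588fa_an

/-- the dominating function of the Laplace integrals of `g` -/
noncomputable def lapDom (η : ℝ → ℝ) (σ : ℝ) (y : ℝ) : ℝ :=
  (Ici (0 : ℝ)).indicator (fun y => Real.exp (σ * y - η y)) y

lemma lapDom_integrable {η : ℝ → ℝ} (hη : ContinuousOn η (Ici 0))
    (hlim : Tendsto (fun x => η x / x) atTop atTop) (σ : ℝ) : Integrable (lapDom η σ) := by
  unfold lapDom
  rw [integrable_indicator_iff measurableSet_Ici]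
  obtain ⟨N, hN⟩ := (eventually_atTop.1 ((hlim.eventually_ge_atTop (σ + 1)).and
    (eventually_gt_atTop (0 : ℝ))))
  set N' : ℝ := max N 0 with hN'
  have hN0 : 0 ≤ N' := le_max_right _ _
  have hcont : ContinuousOn (fun y => Real.exp (σ * y - η y)) (Ici 0) := by
    apply Real.continuous_exp.comp_continuousOn
    exact (continuousOn_const.mul continuousOn_id).sub hη
  have h1 : IntegrableOn (fun y => Real.exp (σ * y - η y)) (Icc 0 N') :=
    (hcont.mono Icc_subset_Ici_self).integrableOn_Icc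
  have h2 : IntegrableOn (fun y => Real.exp (σ * y - η y)) (Ioi N') := by
    have hexp : IntegrableOn (fun y : ℝ => Real.exp (-y)) (Ioi N') :=
      integrableOn_exp_neg_Ioi N'
    refine Integrable.mono' hexp ?_ ?_
    · refine (hcont.mono ?_).aestronglyMeasurable measurableSet_Ioi
      intro y hy
      exact le_trans hN0 (le_of_lt hy)
    · refine (ae_restrict_iff' measurableSet_Ioi).2 (Eventually.of_forall ?_)
      intro y hy
      rw [Real.norm_eq_abs, abs_of_pos (Real.exp_pos _)]
      apply Real.exp_le_exp.2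
      have hy' : N' < y := hy
      have hyN : N ≤ y := le_trans (le_max_left _ _) hy'.le
      obtain ⟨ha, hb⟩ := hN y hyN
      rw [le_div_iff₀ hb] at ha
      linarith
  have h3 := h1.union h2
  rwa [Icc_union_Ioi_eq_Ici hN0] at h3

lemma norm_lap_le {η : ℝ → ℝ} {g : ℝ → ℂ} (hg0 : ∀ y : ℝ, y < 0 → g y = 0)
    (hg : ∀ y : ℝ, 0 ≤ y → ‖g y‖ ≤ Real.exp (-η y)) {s : ℂ} {σ : ℝ} (hs : s.re ≤ σ) (y : ℝ) :
    ‖g y * cexp (s * (y : ℂ))‖ ≤ lapDom η σ y := by
  unfold lapDom
  by_cases hy : 0 ≤ y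
  · rw [indicator_of_mem (show y ∈ Ici (0 : ℝ) from hy), norm_mul, norm_exp]
    have h1 : (s * (y : ℂ)).re = s.re * y := by simp
    rw [h1]
    calc ‖g y‖ * Real.exp (s.re * y) ≤ Real.exp (-η y) * Real.exp (σ * y) := by
          apply mul_le_mul (hg y hy) _ (Real.exp_pos _).le (Real.exp_pos _).le
          exact Real.exp_le_exp.2 (mul_le_mul_of_nonneg_right hs hy)
      _ = Real.exp (σ * y - η y) := by rw [← Real.exp_add]; ring_nf
  · rw [indicator_of_notMem (show y ∉ Ici (0 : ℝ) from hy), hg0 y (lt_of_not_ge hy)]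
    simp

lemma lap_integrable {η : ℝ → ℝ} (hη : ContinuousOn η (Ici 0))
    (hlim : Tendsto (fun x => η x / x) atTop atTop)
    {g : ℝ → ℂ} (hgm : Measurable g) (hg0 : ∀ y : ℝ, y < 0 → g y = 0)
    (hg : ∀ y : ℝ, 0 ≤ y → ‖g y‖ ≤ Real.exp (-η y)) (s : ℂ) :
    Integrable (fun y : ℝ => g y * cexp (s * (y : ℂ))) := by
  refine Integrable.mono' (lapDom_integrable hη hlim s.re) ?_
    (Eventually.of_forall fun y => norm_lap_le hg0 hg le_rfl y)
  exact (hgm.mul (by fun_prop)).aestronglyMeasurable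

theorem laplace_g {η : ℝ → ℝ} (hη : ContinuousOn η (Ici 0))
    (hlim : Tendsto (fun x => η x / x) atTop atTop)
    {g : ℝ → ℂ} (hgm : Measurable g) (hg0 : ∀ y : ℝ, y < 0 → g y = 0)
    (hg : ∀ y : ℝ, 0 ≤ y → ‖g y‖ ≤ Real.exp (-η y)) :
    (∀ σ : ℝ, Integrable (fun y : ℝ => g y * cexp ((σ : ℂ) * (y : ℂ)))) ∧
    Differentiable ℂ (fun s : ℂ => ∫ y : ℝ, g y * cexp (s * (y : ℂ))) ∧
    (∀ σ : ℝ, ∃ M : ℝ, ∀ s : ℂ, s.re ≤ σ → ‖∫ y : ℝ, g y * cexp (s * (y : ℂ))‖ ≤ M) ∧
    Tendsto (fun σ : ℝ => ∫ y : ℝ, g y * cexp ((σ : ℂ) * (y : ℂ))) atBot (nhds 0) := by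
  refine ⟨fun σ => lap_integrable hη hlim hgm hg0 hg σ, ?_, ?_, ?_⟩
  · intro s₀
    have key := (hasDerivAt_integral_of_dominated_loc_of_deriv_le (μ := volume)
      (F := fun (s : ℂ) (y : ℝ) => g y * cexp (s * (y : ℂ)))
      (F' := fun (s : ℂ) (y : ℝ) => g y * ((y : ℂ) * cexp (s * (y : ℂ))))
      (x₀ := s₀) (s := Metric.ball s₀ 1) (bound := lapDom η (s₀.re + 2))
      (Metric.ball_mem_nhds s₀ one_pos) ?_ ?_ ?_ ?_ ?_ ?_).2
    · exact key.differentiableAt
    · refine Eventually.of_forall fun s => ?_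
      exact (hgm.mul (by fun_prop)).aestronglyMeasurable
    · exact lap_integrable hη hlim hgm hg0 hg s₀
    · exact (hgm.mul (by fun_prop)).aestronglyMeasurable
    · refine Eventually.of_forall fun y s hs => ?_
      by_cases hy : 0 ≤ y
      · have h1 : ‖g y * ((y : ℂ) * cexp (s * (y : ℂ)))‖ = y * ‖g y * cexp (s * (y : ℂ))‖ := by
          rw [norm_mul, norm_mul, norm_mul, Complex.norm_real, Real.norm_eq_abs, abs_of_nonneg hy]
          ring
        have h2 : s.re ≤ s₀.re + 1 := by
          have h3 : ‖s - s₀‖ < 1 := by rwa [Metric.mem_ball, dist_eq_norm] at hs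
          have h4 : (s - s₀).re ≤ ‖s - s₀‖ := Complex.re_le_norm _
          rw [Complex.sub_re] at h4
          linarith
        rw [h1]
        have h5 := norm_lap_le (η := η) hg0 hg h2 y
        have h6 : y ≤ Real.exp y := by linarith [Real.add_one_le_exp y]
        calc y * ‖g y * cexp (s * (y : ℂ))‖ ≤ Real.exp y * lapDom η (s₀.re + 1) y :=
              mul_le_mul h6 h5 (norm_nonneg _) (Real.exp_pos _).le
          _ = lapDom η (s₀.re + 2) y := by
              unfold lapDom
              rw [indicator_of_mem (show y ∈ Ici (0 : ℝ) from hy),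
                indicator_of_mem (show y ∈ Ici (0 : ℝ) from hy), ← Real.exp_add]
              ring_nf
      · have h1 : g y = 0 := hg0 y (lt_of_not_ge hy)
        unfold lapDom
        rw [indicator_of_notMem (show y ∉ Ici (0 : ℝ) from hy), h1]
        simp
    · exact lapDom_integrable hη hlim _
    · refine Eventually.of_forall fun y s _ => ?_
      have h1 : HasDerivAt (fun s : ℂ => s * (y : ℂ)) (y : ℂ) s := by
        simpa using (hasDerivAt_id s).mul_const (y : ℂ)
      have h2 := (h1.cexp).const_mul (g y)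
      rw [mul_comm (cexp (s * (y : ℂ))) (y : ℂ)] at h2
      exact h2
  · intro σ
    refine ⟨∫ y, lapDom η σ y, fun s hs => ?_⟩
    exact norm_integral_le_of_norm_le (lapDom_integrable hη hlim σ)
      (Eventually.of_forall fun y => norm_lap_le hg0 hg hs y)
  · have h0 : (∫ _ : ℝ, (0 : ℂ)) = 0 := by simp
    rw [← h0]
    refine tendsto_integral_filter_of_dominated_convergence (lapDom η 0) ?_ ?_
      (lapDom_integrable hη hlim 0) ?_
    · refine Eventually.of_forall fun σ => ?_
      exact (hgm.mul (by fun_prop)).aestronglyMeasurable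
    · filter_upwards [eventually_le_atBot (0 : ℝ)] with σ hσ
      refine Eventually.of_forall fun y => ?_
      exact norm_lap_le hg0 hg (by simpa using hσ) y
    · have hne : ∀ᵐ y : ℝ, y ≠ 0 := by
        simp [ae_iff, measure_singleton]
      filter_upwards [hne] with y hy
      rcases lt_or_gt_of_ne hy with h | h
      · rw [hg0 y h]
        simp
      · have h1 : Tendsto (fun σ : ℝ => Real.exp (σ * y)) atBot (nhds 0) := by
          apply Real.tendsto_exp_atBot.comp
          exact tendsto_id.atBot_mul_const h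
        have h2 : Tendsto (fun σ : ℝ => ‖g y * cexp ((σ : ℂ) * (y : ℂ))‖) atBot (nhds 0) := by
          have h3 : (fun σ : ℝ => ‖g y * cexp ((σ : ℂ) * (y : ℂ))‖) =
              fun σ : ℝ => ‖g y‖ * Real.exp (σ * y) := by
            funext σ
            rw [norm_mul, norm_exp]
            simp
          rw [h3]
          simpa using h1.const_mul ‖g y‖
        exact tendsto_zero_iff_norm_tendsto_zero.2 h2

theorem laplace_f {f : ℝ → ℂ} (hf0 : ∀ x : ℝ, x ≤ 0 → f x = 0) {c : ℝ}
    (hf : Integrable (fun x : ℝ => f x * cexp (-((c : ℂ) * (x : ℂ))))) :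
    DiffContOnCl ℂ (fun s : ℂ => ∫ x : ℝ, f x * cexp (-(s * (x : ℂ)))) {s : ℂ | c < s.re} ∧
    ∀ s : ℂ, c ≤ s.re → ‖∫ x : ℝ, f x * cexp (-(s * (x : ℂ)))‖ ≤
      ∫ x : ℝ, ‖f x * cexp (-((c : ℂ) * (x : ℂ)))‖ := by
  have hfm : AEStronglyMeasurable f volume := by
    have h1 : f = fun x : ℝ => (f x * cexp (-((c : ℂ) * (x : ℂ)))) * cexp ((c : ℂ) * (x : ℂ)) := by
      funext x
      rw [mul_assoc, ← Complex.exp_add]
      simp
    rw [h1]
    exact hf.aestronglyMeasurable.mul (by fun_prop)
  have hmeas : ∀ s : ℂ, AEStronglyMeasurable (fun x : ℝ => f x * cexp (-(s * (x : ℂ)))) volume := by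
    intro s
    exact hfm.mul (by fun_prop)
  have hnorm : ∀ (s : ℂ) (x : ℝ), ‖f x * cexp (-(s * (x : ℂ)))‖ = ‖f x‖ * Real.exp (-(s.re * x)) := by
    intro s x
    rw [norm_mul, norm_exp]
    simp
  have hle : ∀ s : ℂ, c ≤ s.re → ∀ x : ℝ, ‖f x * cexp (-(s * (x : ℂ)))‖ ≤
      ‖f x * cexp (-((c : ℂ) * (x : ℂ)))‖ := by
    intro s hs x
    rw [hnorm, hnorm, Complex.ofReal_re]
    rcases le_or_gt x 0 with hx | hx
    · rw [hf0 x hx]; simp
    · apply mul_le_mul_of_nonneg_left _ (norm_nonneg _)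
      apply Real.exp_le_exp.2
      have := mul_le_mul_of_nonneg_right hs hx.le
      linarith
  have hbound : ∀ s : ℂ, c ≤ s.re → ‖∫ x : ℝ, f x * cexp (-(s * (x : ℂ)))‖ ≤
      ∫ x : ℝ, ‖f x * cexp (-((c : ℂ) * (x : ℂ)))‖ := by
    intro s hs
    exact norm_integral_le_of_norm_le hf.norm (Eventually.of_forall fun x => hle s hs x)
  refine ⟨⟨?_, ?_⟩, hbound⟩
  · intro s₀ hs₀
    have hs₀' : c < s₀.re := hs₀
    apply DifferentiableAt.differentiableWithinAt
    set δ : ℝ := (s₀.re - c) / 2 with hδ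
    have hδ0 : 0 < δ := by rw [hδ]; linarith
    have key := (hasDerivAt_integral_of_dominated_loc_of_deriv_le (μ := volume)
      (F := fun (s : ℂ) (x : ℝ) => f x * cexp (-(s * (x : ℂ))))
      (F' := fun (s : ℂ) (x : ℝ) => f x * (-(x : ℂ) * cexp (-(s * (x : ℂ)))))
      (x₀ := s₀) (s := Metric.ball s₀ δ)
      (bound := fun x => (1 / δ) * ‖f x * cexp (-((c : ℂ) * (x : ℂ)))‖)
      (Metric.ball_mem_nhds s₀ hδ0) ?_ ?_ ?_ ?_ ?_ ?_).2
    · exact key.differentiableAt
    · exact Eventually.of_forall fun s => hmeas s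
    · exact Integrable.mono' hf.norm (hmeas s₀) (Eventually.of_forall fun x => hle s₀ hs₀'.le x)
    · exact hfm.mul (by fun_prop)
    · refine Eventually.of_forall fun x s hs => ?_
      rcases le_or_gt x 0 with hx | hx
      · rw [hf0 x hx]; simp
      · have h1 : ‖f x * (-(x : ℂ) * cexp (-(s * (x : ℂ))))‖ =
            ‖f x‖ * (x * Real.exp (-(s.re * x))) := by
          rw [norm_mul, norm_mul, norm_neg, Complex.norm_real, Real.norm_eq_abs, abs_of_pos hx,
            norm_exp]
          simp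
        rw [h1, hnorm, Complex.ofReal_re]
        have h2 : c + δ ≤ s.re := by
          have h3 : ‖s - s₀‖ < δ := by rwa [Metric.mem_ball, dist_eq_norm] at hs
          have h4 : -(s - s₀).re ≤ ‖s - s₀‖ := by
            have := Complex.abs_re_le_norm (s - s₀)
            exact le_trans (neg_le_abs _) this
          rw [Complex.sub_re] at h4
          have : s₀.re = c + 2 * δ := by rw [hδ]; ring
          linarith
        have h5 : x * Real.exp (-(s.re * x)) ≤ (1 / δ) * Real.exp (-(c * x)) := by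
          have h6 : Real.exp (-(s.re * x)) ≤ Real.exp (-(δ * x)) * Real.exp (-(c * x)) := by
            rw [← Real.exp_add]
            apply Real.exp_le_exp.2
            have := mul_le_mul_of_nonneg_right h2 hx.le
            linarith
          have h7 : δ * x * Real.exp (-(δ * x)) ≤ 1 := by
            have h8 : δ * x ≤ Real.exp (δ * x) := by linarith [Real.add_one_le_exp (δ * x)]
            calc δ * x * Real.exp (-(δ * x)) ≤ Real.exp (δ * x) * Real.exp (-(δ * x)) :=
                  mul_le_mul_of_nonneg_right h8 (Real.exp_pos _).le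
              _ = 1 := by rw [← Real.exp_add]; simp
          have h9 : x * Real.exp (-(δ * x)) ≤ 1 / δ := by
            rw [le_div_iff₀ hδ0]
            linarith
          calc x * Real.exp (-(s.re * x)) ≤ x * (Real.exp (-(δ * x)) * Real.exp (-(c * x))) :=
                mul_le_mul_of_nonneg_left h6 hx.le
            _ = (x * Real.exp (-(δ * x))) * Real.exp (-(c * x)) := by ring
            _ ≤ (1 / δ) * Real.exp (-(c * x)) :=
                mul_le_mul_of_nonneg_right h9 (Real.exp_pos _).le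
        calc ‖f x‖ * (x * Real.exp (-(s.re * x))) ≤ ‖f x‖ * ((1 / δ) * Real.exp (-(c * x))) :=
              mul_le_mul_of_nonneg_left h5 (norm_nonneg _)
          _ = (1 / δ) * (‖f x‖ * Real.exp (-(c * x))) := by ring
    · exact hf.norm.const_mul _
    · refine Eventually.of_forall fun x s _ => ?_
      have h0 : HasDerivAt (fun s : ℂ => s * (x : ℂ)) (x : ℂ) s := by
        simpa using (hasDerivAt_id s).mul_const (x : ℂ)
      have h1 : HasDerivAt (fun s : ℂ => -(s * (x : ℂ))) (-(x : ℂ)) s := h0.neg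
      have h2 := (h1.cexp).const_mul (f x)
      rw [mul_comm (cexp (-(s * (x : ℂ)))) (-(x : ℂ))] at h2
      exact h2
  · have hcl : closure {s : ℂ | c < s.re} = {s : ℂ | c ≤ s.re} := Complex.closure_setOfPred_lt_re c
    rw [hcl]
    refine continuousOn_of_dominated (fun s _ => hmeas s)
      (fun s hs => Eventually.of_forall fun x => hle s hs x) hf.norm
      (Eventually.of_forall fun x => ?_)
    fun_prop

end MP_c588fa_an
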