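import Pool.Agent.Lib_MP_c588fa_an.Uniq

set_option autoImplicit false
open MeasureTheory Filter Set Complex

namespace MP_c588fa_an

namespace Large

/-- the truncated transform -/
noncomputable def A (f : ℝ → ℂ) (ε : ℝ) (s : ℂ) : ℂ :=
  ∫ x in Ioc (0 : ℝ) ε, f x * cexp (s * ((ε - x : ℝ) : ℂ))

variable {f : ℝ → ℂ} {ε : ℝ}

lemma norm_kernel (s : ℂ) (y : ℝ) : ‖cexp (s * ((y : ℝ) : ℂ))‖ = Real.exp (s.re * y) := by
  rw [Complex.norm_exp]
  congr 1
  simp

lemma cont_kernel (s : ℂ) : Continuous fun x : ℝ => cexp (s * ((ε - x : ℝ) : ℂ)) := by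
  fun_prop

lemma integrable_A (hf : IntegrableOn f (Ioc 0 ε)) (s : ℂ) :
    IntegrableOn (fun x : ℝ => f x * cexp (s * ((ε - x : ℝ) : ℂ))) (Ioc 0 ε) := by
  have h1 : IntegrableOn f (Icc 0 ε) := by
    rwa [integrableOn_Icc_iff_integrableOn_Ioc]
  have h2 : IntegrableOn (fun x : ℝ => f x * cexp (s * ((ε - x : ℝ) : ℂ))) (Icc 0 ε) :=
    h1.mul_continuousOn (cont_kernel s).continuousOn isCompact_Icc
  exact h2.mono_set Ioc_subset_Icc_self

lemma norm_A_le (hf : IntegrableOn f (Ioc 0 ε)) (hε1 : ε ≤ 1) (s : ℂ) {M : ℝ}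
    (hM : s.re ≤ M) (hM0 : 0 ≤ M) :
    ‖A f ε s‖ ≤ Real.exp M * ∫ x in Ioc (0 : ℝ) ε, ‖f x‖ := by
  unfold A
  refine (norm_integral_le_integral_norm _).trans ?_
  rw [← integral_const_mul]
  refine setIntegral_mono_on (integrable_A hf s).norm (hf.norm.const_mul _) measurableSet_Ioc ?_
  intro x hx
  rw [norm_mul, norm_kernel, mul_comm]
  refine mul_le_mul_of_nonneg_right ?_ (norm_nonneg _)
  apply Real.exp_le_exp.mpr
  have h1 : 0 ≤ ε - x := by linarith [hx.2]
  have h2 : ε - x ≤ 1 := by linarith [hx.1]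
  nlinarith

lemma norm_A_left (hf : IntegrableOn f (Ioc 0 ε)) (s : ℂ) (hs : s.re ≤ 0) :
    ‖A f ε s‖ ≤ ∫ x in Ioc (0 : ℝ) ε, ‖f x‖ := by
  unfold A
  refine (norm_integral_le_integral_norm _).trans ?_
  refine setIntegral_mono_on (integrable_A hf s).norm hf.norm measurableSet_Ioc ?_
  intro x hx
  rw [norm_mul, norm_kernel]
  have h1 : 0 ≤ ε - x := by linarith [hx.2]
  have h3 : Real.exp (s.re * (ε - x)) ≤ 1 := Real.exp_le_one_iff.mpr (by nlinarith)
  calc ‖f x‖ * Real.exp (s.re * (ε - x)) ≤ ‖f x‖ * 1 :=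
        mul_le_mul_of_nonneg_left h3 (norm_nonneg _)
    _ = ‖f x‖ := mul_one _

lemma differentiable_A (hf : IntegrableOn f (Ioc 0 ε)) (hε1 : ε ≤ 1) :
    Differentiable ℂ (A f ε) := by
  intro s₀
  have hmeas : ∀ s : ℂ, AEStronglyMeasurable (fun x : ℝ => f x * cexp (s * ((ε - x : ℝ) : ℂ)))
      (volume.restrict (Ioc 0 ε)) := fun s => (integrable_A hf s).aestronglyMeasurable
  have h := hasDerivAt_integral_of_dominated_loc_of_deriv_le (𝕜 := ℂ)
    (μ := volume.restrict (Ioc (0 : ℝ) ε))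
    (F := fun (s : ℂ) (x : ℝ) => f x * cexp (s * ((ε - x : ℝ) : ℂ)))
    (F' := fun (s : ℂ) (x : ℝ) => f x * (cexp (s * ((ε - x : ℝ) : ℂ)) * ((ε - x : ℝ) : ℂ)))
    (bound := fun x : ℝ => Real.exp (|s₀.re| + 1) * ‖f x‖) (x₀ := s₀) (s := Metric.ball s₀ 1)
    (Metric.ball_mem_nhds s₀ one_pos) (Filter.Eventually.of_forall hmeas) (integrable_A hf s₀)
    ?_ ?_ (hf.norm.const_mul _) ?_
  · exact h.2.differentiableAt
  · have h1 : AEStronglyMeasurable (fun x : ℝ => (f x * cexp (s₀ * ((ε - x : ℝ) : ℂ))) *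
        ((ε - x : ℝ) : ℂ)) (volume.restrict (Ioc 0 ε)) :=
      (hmeas s₀).mul (by fun_prop : Continuous fun x : ℝ => ((ε - x : ℝ) : ℂ)).aestronglyMeasurable
    refine h1.congr (Filter.Eventually.of_forall fun x => ?_)
    simp only; ring
  · refine (ae_restrict_iff' measurableSet_Ioc).mpr (Filter.Eventually.of_forall fun x hx s hs => ?_)
    have h1 : 0 ≤ ε - x := by linarith [hx.2]
    have h2 : ε - x ≤ 1 := by linarith [hx.1]
    have hre : s.re ≤ |s₀.re| + 1 := by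
      have h3 : |s.re - s₀.re| < 1 := by
        have := Complex.abs_re_le_norm (s - s₀)
        rw [Complex.sub_re] at this
        have h4 : ‖s - s₀‖ < 1 := by simpa [dist_eq_norm] using hs
        linarith
      have h5 := (abs_lt.mp h3).2
      have h6 := le_abs_self s₀.re
      linarith
    rw [norm_mul, norm_mul, norm_kernel, Complex.norm_real, Real.norm_eq_abs, abs_of_nonneg h1]
    have h7 : Real.exp (s.re * (ε - x)) ≤ Real.exp (|s₀.re| + 1) := by
      apply Real.exp_le_exp.mpr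
      have := abs_nonneg s₀.re
      nlinarith
    have h8 : Real.exp (s.re * (ε - x)) * (ε - x) ≤ Real.exp (|s₀.re| + 1) * 1 :=
      mul_le_mul h7 h2 h1 (Real.exp_pos _).le
    calc ‖f x‖ * (Real.exp (s.re * (ε - x)) * (ε - x))
        ≤ ‖f x‖ * (Real.exp (|s₀.re| + 1) * 1) := mul_le_mul_of_nonneg_left h8 (norm_nonneg _)
      _ = _ := by ring
  · refine Filter.Eventually.of_forall fun x s _ => ?_
    have h1 : HasDerivAt (fun s : ℂ => s * ((ε - x : ℝ) : ℂ)) ((ε - x : ℝ) : ℂ) s := by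
      simpa using (hasDerivAt_id s).mul_const ((ε - x : ℝ) : ℂ)
    exact (h1.cexp).const_mul (f x)

lemma tendsto_A (hf : IntegrableOn f (Ioc 0 ε)) (hε : 0 < ε) :
    Tendsto (fun n : ℕ => A f ε (-(n : ℂ))) atTop (nhds 0) := by
  have h := tendsto_integral_of_dominated_convergence (μ := volume.restrict (Ioc (0 : ℝ) ε))
    (F := fun (n : ℕ) (x : ℝ) => f x * cexp (-(n : ℂ) * ((ε - x : ℝ) : ℂ)))
    (f := fun _ => (0 : ℂ)) (fun x => ‖f x‖)
    (fun n => (integrable_A hf (-(n : ℂ))).aestronglyMeasurable) hf.norm ?_ ?_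
  · have h' := h
    rw [integral_zero] at h'
    exact h'
  · intro n
    refine (ae_restrict_iff' measurableSet_Ioc).mpr (Filter.Eventually.of_forall fun x hx => ?_)
    rw [norm_mul, norm_kernel]
    have h1 : 0 ≤ ε - x := by linarith [hx.2]
    have h3 : Real.exp ((-(n : ℂ)).re * (ε - x)) ≤ 1 := by
      apply Real.exp_le_one_iff.mpr
      have : (-(n : ℂ)).re = -(n : ℝ) := by simp
      rw [this]
      have : (0 : ℝ) ≤ n := Nat.cast_nonneg n
      nlinarith
    calc ‖f x‖ * Real.exp ((-(n : ℂ)).re * (ε - x)) ≤ ‖f x‖ * 1 :=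
          mul_le_mul_of_nonneg_left h3 (norm_nonneg _)
      _ = ‖f x‖ := mul_one _
  · have hne : ∀ᵐ x : ℝ ∂(volume.restrict (Ioc (0 : ℝ) ε)), x ≠ ε := by
      have : ∀ᵐ x : ℝ ∂(volume : Measure ℝ), x ≠ ε := by
        rw [ae_iff]
        simp
      exact ae_restrict_of_ae this
    filter_upwards [hne, (ae_restrict_iff' measurableSet_Ioc).mpr
      (Filter.Eventually.of_forall fun x hx => hx)] with x hx1 hx2
    have h1 : 0 < ε - x := by
      rcases lt_or_eq_of_le hx2.2 with h | h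
      · linarith
      · exact absurd h hx1
    rw [tendsto_zero_iff_norm_tendsto_zero]
    have h2 : Tendsto (fun n : ℕ => ‖f x‖ * Real.exp (-((ε - x) * (n : ℝ)))) atTop (nhds 0) := by
      have h3 : Tendsto (fun n : ℕ => (ε - x) * (n : ℝ)) atTop atTop :=
        tendsto_natCast_atTop_atTop.const_mul_atTop h1
      have h4 := (Real.tendsto_exp_neg_atTop_nhds_zero.comp h3).const_mul ‖f x‖
      simpa using h4
    refine h2.congr fun n => ?_
    rw [norm_mul, norm_kernel]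
    congr 2
    simp
    ring

end Large

open Large in
theorem exists_large {f : ℝ → ℂ} (hf : IntegrableOn f (Ioc 0 1)) {ε : ℝ} (hε : 0 < ε) (hε1 : ε ≤ 1)
    (hne : ¬ ∀ᵐ x : ℝ, x ∈ Ioc 0 ε → f x = 0) (S : ℝ) :
    ∃ σ : ℝ, S ≤ σ ∧
      Real.exp (-(ε * σ)) ≤ ‖∫ x in Ioc (0 : ℝ) 1, f x * cexp (-((σ : ℂ) * (x : ℂ)))‖ := by
  by_contra hcon
  push Not at hcon
  have hfε : IntegrableOn f (Ioc 0 ε) := hf.mono_set (Ioc_subset_Ioc_right hε1)
  have hf2 : IntegrableOn f (Ioc ε 1) := hf.mono_set (Ioc_subset_Ioc_left hε.le)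
  set N : ℝ := ∫ x in Ioc (0 : ℝ) ε, ‖f x‖ with hN
  have hN0 : 0 ≤ N := integral_nonneg fun x => norm_nonneg _
  set N' : ℝ := ∫ x in Ioc ε 1, ‖f x‖ with hN'
  -- boundedness on the positive axis
  have hreal : ∀ σ : ℝ, max S 0 ≤ σ → ‖A f ε (σ : ℂ)‖ ≤ 1 + N' := by
    intro σ hσ
    have hσS : S ≤ σ := (le_max_left _ _).trans hσ
    have hσ0 : 0 ≤ σ := (le_max_right _ _).trans hσ
    have hlt := hcon σ hσS
    -- splitting
    have hi : ∀ a b : ℝ, IntegrableOn f (Ioc a b) →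
        IntegrableOn (fun x : ℝ => f x * cexp ((σ : ℂ) * ((ε - x : ℝ) : ℂ))) (Ioc a b) := by
      intro a b h
      have h1 : IntegrableOn f (Icc a b) := by rwa [integrableOn_Icc_iff_integrableOn_Ioc]
      exact (h1.mul_continuousOn (cont_kernel (σ : ℂ)).continuousOn isCompact_Icc).mono_set
        Ioc_subset_Icc_self
    have hsplit : ∫ x in Ioc (0 : ℝ) 1, f x * cexp ((σ : ℂ) * ((ε - x : ℝ) : ℂ)) =
        A f ε (σ : ℂ) + ∫ x in Ioc ε 1, f x * cexp ((σ : ℂ) * ((ε - x : ℝ) : ℂ)) := by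
      unfold A
      rw [← setIntegral_union (Ioc_disjoint_Ioc_of_le le_rfl) measurableSet_Ioc (hi 0 ε hfε)
        (hi ε 1 hf2), Ioc_union_Ioc_eq_Ioc hε.le hε1]
    have hfac : ∫ x in Ioc (0 : ℝ) 1, f x * cexp ((σ : ℂ) * ((ε - x : ℝ) : ℂ)) =
        cexp ((σ : ℂ) * (ε : ℂ)) * ∫ x in Ioc (0 : ℝ) 1, f x * cexp (-((σ : ℂ) * (x : ℂ))) := by
      rw [← integral_const_mul]
      refine integral_congr_ae (Filter.Eventually.of_forall fun x => ?_)
      simp only
      rw [show (σ : ℂ) * ((ε - x : ℝ) : ℂ) = (σ : ℂ) * (ε : ℂ) + -((σ : ℂ) * (x : ℂ)) by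
        push_cast; ring, Complex.exp_add]
      ring
    have h1 : ‖∫ x in Ioc (0 : ℝ) 1, f x * cexp ((σ : ℂ) * ((ε - x : ℝ) : ℂ))‖ ≤ 1 := by
      rw [hfac, norm_mul, Complex.norm_exp]
      have h2 : ((σ : ℂ) * (ε : ℂ)).re = ε * σ := by simp; ring
      rw [h2]
      calc Real.exp (ε * σ) * ‖∫ x in Ioc (0 : ℝ) 1, f x * cexp (-((σ : ℂ) * (x : ℂ)))‖
          ≤ Real.exp (ε * σ) * Real.exp (-(ε * σ)) :=
            mul_le_mul_of_nonneg_left hlt.le (Real.exp_pos _).le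
        _ = 1 := by rw [← Real.exp_add]; simp
    have h3 : ‖∫ x in Ioc ε 1, f x * cexp ((σ : ℂ) * ((ε - x : ℝ) : ℂ))‖ ≤ N' := by
      refine (norm_integral_le_integral_norm _).trans ?_
      refine setIntegral_mono_on (hi ε 1 hf2).norm hf2.norm measurableSet_Ioc ?_
      intro x hx
      rw [norm_mul, norm_kernel]
      have h4 : ε - x ≤ 0 := by linarith [hx.1]
      have h5 : Real.exp ((σ : ℂ).re * (ε - x)) ≤ 1 := by
        apply Real.exp_le_one_iff.mpr
        rw [Complex.ofReal_re]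
        nlinarith
      calc ‖f x‖ * Real.exp ((σ : ℂ).re * (ε - x)) ≤ ‖f x‖ * 1 :=
            mul_le_mul_of_nonneg_left h5 (norm_nonneg _)
        _ = ‖f x‖ := mul_one _
    have h6 : A f ε (σ : ℂ) = (∫ x in Ioc (0 : ℝ) 1, f x * cexp ((σ : ℂ) * ((ε - x : ℝ) : ℂ))) -
        ∫ x in Ioc ε 1, f x * cexp ((σ : ℂ) * ((ε - x : ℝ) : ℂ)) := by
      rw [hsplit]; ring
    rw [h6]
    exact (norm_sub_le _ _).trans (add_le_add h1 h3)
  have hdiff := differentiable_A hfε hε1
  -- Phragmen Lindelof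
  have hright : ∀ z : ℂ, 0 ≤ z.re → ‖A f ε z‖ ≤ N := by
    intro z hz
    refine PhragmenLindelof.right_half_plane_of_bounded_on_real hdiff.diffContOnCl ?_ ?_ ?_ hz
    · refine ⟨1, by norm_num, 1, ?_⟩
      refine Asymptotics.IsBigO.of_bound (N + 1) (Filter.Eventually.of_forall fun s => ?_)
      have h1 := norm_A_le hfε hε1 s (M := ‖s‖) ((le_abs_self _).trans (Complex.abs_re_le_norm s))
        (norm_nonneg _)
      rw [Real.norm_eq_abs, abs_of_pos (Real.exp_pos _), Real.rpow_one, one_mul]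
      refine h1.trans ?_
      rw [mul_comm]
      exact mul_le_mul_of_nonneg_right (by linarith) (Real.exp_pos _).le
    · refine ⟨1 + N', ?_⟩
      rw [eventually_map]
      filter_upwards [eventually_ge_atTop (max S 0)] with σ hσ
      exact hreal σ hσ
    · intro t
      refine norm_A_left hfε _ ?_
      simp
  have hbdd : ∀ z : ℂ, ‖A f ε z‖ ≤ N := by
    intro z
    rcases le_total 0 z.re with h | h
    · exact hright z h
    · exact norm_A_left hfε z h
  have hconst : ∀ z w : ℂ, A f ε z = A f ε w := by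
    intro z w
    refine Differentiable.apply_eq_apply_of_bounded hdiff ?_ z w
    rw [isBounded_iff_forall_norm_le]
    refine ⟨N, ?_⟩
    rintro _ ⟨z, rfl⟩
    exact hbdd z
  have hzero : ∀ z : ℂ, A f ε z = 0 := by
    intro z
    have h1 := tendsto_A hfε hε
    have h2 : (fun n : ℕ => A f ε (-(n : ℂ))) = fun _ => A f ε z := by
      funext n; exact hconst _ _
    rw [h2] at h1
    exact tendsto_nhds_unique tendsto_const_nhds h1
  -- Fourier uniqueness
  have hint : Integrable ((Ioc (0 : ℝ) ε).indicator f) := by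
    rwa [integrable_indicator_iff measurableSet_Ioc]
  have hfz : (Ioc (0 : ℝ) ε).indicator f =ᵐ[volume] 0 := by
    refine ae_zero_of_fourier_zero hint fun t => ?_
    have h1 := hzero (-(t : ℂ) * I)
    unfold A at h1
    have h2 : ∀ x : ℝ, f x * cexp (-(t : ℂ) * I * ((ε - x : ℝ) : ℂ)) =
        cexp (-(t : ℂ) * I * (ε : ℂ)) * (f x * cexp ((t : ℂ) * (x : ℂ) * I)) := by
      intro x
      rw [show -(t : ℂ) * I * ((ε - x : ℝ) : ℂ) = -(t : ℂ) * I * (ε : ℂ) + (t : ℂ) * (x : ℂ) * I by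
        push_cast; ring, Complex.exp_add]
      ring
    simp only [h2] at h1
    rw [integral_const_mul] at h1
    have h3 : ∫ x in Ioc (0 : ℝ) ε, f x * cexp ((t : ℂ) * (x : ℂ) * I) = 0 := by
      rcases mul_eq_zero.mp h1 with h | h
      · exact absurd h (Complex.exp_ne_zero _)
      · exact h
    have h4 : ∀ x : ℝ, (Ioc (0 : ℝ) ε).indicator f x * cexp ((t : ℂ) * (x : ℂ) * I) =
        (Ioc (0 : ℝ) ε).indicator (fun x => f x * cexp ((t : ℂ) * (x : ℂ) * I)) x := by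
      intro x
      by_cases hx : x ∈ Ioc (0 : ℝ) ε <;> simp [Set.indicator, hx]
    simp only [h4]
    rw [integral_indicator measurableSet_Ioc]
    exact h3
  apply hne
  filter_upwards [hfz] with x hx hx2
  rw [Set.indicator_of_mem hx2] at hx
  exact hx

end MP_c588fa_an
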