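import Pool.Agent.Lib_MP_c588fa_an.Defs

/-!
PIECE F3: the product of two Laplace transforms is a Fourier integral.
-/

set_option autoImplicit false
open MeasureTheory Filter Set Complex

namespace MP_c588fa_an

theorem shear_integrable {φ γ : ℝ → ℂ} (hφ : Integrable φ) (hγ : Integrable γ) :
    Integrable (fun z : ℝ × ℝ => φ z.1 * γ (z.1 + z.2)) (volume.prod volume) := by
  have h1 : Integrable (fun z : ℝ × ℝ => φ z.1 * γ z.2) (volume.prod volume) := hφ.mul_prod hγ
  have h2 := measurePreserving_prod_add (volume : Measure ℝ) (volume : Measure ℝ)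
  exact (h2.integrable_comp h1.aestronglyMeasurable).mpr h1

theorem product_formula {f g : ℝ → ℂ} (σ : ℝ)
    (hf : Integrable (fun x : ℝ => f x * cexp (-((σ : ℂ) * (x : ℂ)))))
    (hg : Integrable (fun y : ℝ => g y * cexp ((σ : ℂ) * (y : ℂ)))) :
    Integrable (fun a : ℝ => cexp ((σ : ℂ) * (a : ℂ)) * ∫ x : ℝ, f x * g (x + a)) ∧
    ∀ t : ℝ, (∫ x : ℝ, f x * cexp (-(((σ : ℂ) + (t : ℂ) * I) * (x : ℂ)))) *
        (∫ y : ℝ, g y * cexp (((σ : ℂ) + (t : ℂ) * I) * (y : ℂ))) =
      ∫ a : ℝ, (cexp ((σ : ℂ) * (a : ℂ)) * ∫ x : ℝ, f x * g (x + a)) *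
        cexp ((t : ℂ) * (a : ℂ) * I) := by
  constructor
  · have h := (shear_integrable hf hg).integral_prod_right
    refine h.congr (ae_of_all _ fun a => ?_)
    simp only
    rw [← integral_const_mul]
    congr 1
    funext x
    have e : cexp ((σ : ℂ) * ((x + a : ℝ) : ℂ)) =
        cexp ((σ : ℂ) * (x : ℂ)) * cexp ((σ : ℂ) * (a : ℂ)) := by
      rw [← Complex.exp_add]; push_cast; ring_nf
    have e2 : cexp (-((σ : ℂ) * (x : ℂ))) * cexp ((σ : ℂ) * (x : ℂ)) = 1 := by
      rw [← Complex.exp_add]; simp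
    rw [e]
    linear_combination (f x * g (x + a) * cexp ((σ : ℂ) * (a : ℂ))) * e2
  · intro t
    have hφ : Integrable (fun x : ℝ => f x * cexp (-(((σ : ℂ) + (t : ℂ) * I) * (x : ℂ)))) := by
      have h1 : Integrable (fun x : ℝ => (f x * cexp (-((σ : ℂ) * (x : ℂ)))) *
          cexp (-((t : ℂ) * (x : ℂ) * I))) := by
        refine hf.mul_bdd (c := 1) (Continuous.aestronglyMeasurable (by fun_prop))
          (ae_of_all _ fun x => ?_)
        rw [Complex.norm_exp]
        simp
      refine h1.congr (ae_of_all _ fun x => ?_)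
      simp only
      rw [mul_assoc, ← Complex.exp_add]
      congr 2
      ring
    have hγ : Integrable (fun y : ℝ => g y * cexp (((σ : ℂ) + (t : ℂ) * I) * (y : ℂ))) := by
      have h1 : Integrable (fun x : ℝ => (g x * cexp ((σ : ℂ) * (x : ℂ))) *
          cexp ((t : ℂ) * (x : ℂ) * I)) := by
        refine hg.mul_bdd (c := 1) (Continuous.aestronglyMeasurable (by fun_prop))
          (ae_of_all _ fun x => ?_)
        rw [Complex.norm_exp]
        simp
      refine h1.congr (ae_of_all _ fun x => ?_)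
      simp only
      rw [mul_assoc, ← Complex.exp_add]
      congr 2
      ring
    have hP := shear_integrable hφ hγ
    have hswap := integral_integral_swap (μ := (volume : Measure ℝ)) (ν := (volume : Measure ℝ))
      (f := fun x a : ℝ => f x * cexp (-(((σ : ℂ) + (t : ℂ) * I) * (x : ℂ))) *
        (g (x + a) * cexp (((σ : ℂ) + (t : ℂ) * I) * ((x + a : ℝ) : ℂ)))) hP
    have hl : (∫ x : ℝ, ∫ a : ℝ, f x * cexp (-(((σ : ℂ) + (t : ℂ) * I) * (x : ℂ))) *
        (g (x + a) * cexp (((σ : ℂ) + (t : ℂ) * I) * ((x + a : ℝ) : ℂ)))) =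
        (∫ x : ℝ, f x * cexp (-(((σ : ℂ) + (t : ℂ) * I) * (x : ℂ)))) *
        (∫ y : ℝ, g y * cexp (((σ : ℂ) + (t : ℂ) * I) * (y : ℂ))) := by
      rw [← integral_mul_const]
      congr 1
      funext x
      rw [integral_const_mul]
      congr 1
      exact integral_add_left_eq_self
        (fun y : ℝ => g y * cexp (((σ : ℂ) + (t : ℂ) * I) * (y : ℂ))) x
    rw [← hl, hswap]
    congr 1
    funext a
    rw [← integral_const_mul, ← integral_mul_const]
    congr 1
    funext x
    have e : cexp (((σ : ℂ) + (t : ℂ) * I) * ((x + a : ℝ) : ℂ)) =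
        cexp (((σ : ℂ) + (t : ℂ) * I) * (x : ℂ)) *
          (cexp ((σ : ℂ) * (a : ℂ)) * cexp ((t : ℂ) * (a : ℂ) * I)) := by
      rw [← Complex.exp_add, ← Complex.exp_add]; push_cast; ring_nf
    have e2 : cexp (-(((σ : ℂ) + (t : ℂ) * I) * (x : ℂ))) *
        cexp (((σ : ℂ) + (t : ℂ) * I) * (x : ℂ)) = 1 := by
      rw [← Complex.exp_add]; simp
    rw [e]
    linear_combination (f x * g (x + a) * (cexp ((σ : ℂ) * (a : ℂ)) *
      cexp ((t : ℂ) * (a : ℂ) * I))) * e2

end MP_c588fa_an
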