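import Pool.Agent.Lib_MP_c588fa_an.Defs

set_option autoImplicit false
open MeasureTheory Filter Set Complex

namespace MP_c588fa_an

lemma seqPL_step {G : ℂ → ℂ} (hG : Differentiable ℂ G) {C : ℝ}
    (hC : ∀ s : ℂ, s.re ≤ 0 → ‖G s‖ ≤ C) {ε R : ℝ} (hε : 0 < ε) (hR : 1 ≤ R)
    (hgr : ∀ s : ℂ, ‖s‖ ≤ R → ‖G s‖ ≤ Real.exp (ε * R)) {s : ℂ} (hs : 0 < s.re)
    (hsR : ‖s‖ < R) :
    ‖G s‖ ≤ max C 1 * Real.exp (ε * (2 * ‖s‖ + ‖s‖ ^ 2)) := by
  have hR0 : 0 < R := by linarith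
  set U : Set ℂ := Metric.ball (0 : ℂ) R ∩ {z : ℂ | 0 < z.re} with hU
  have hUo : IsOpen U := Metric.isOpen_ball.inter (isOpen_lt continuous_const Complex.continuous_re)
  have hUb : Bornology.IsBounded U := Metric.isBounded_ball.subset inter_subset_left
  set E : ℂ → ℂ := fun z => -((ε * R : ℝ) : ℂ) * (2 * z / (R : ℂ) - z ^ 2 / (R : ℂ) ^ 2) with hE
  have hEre : ∀ z : ℂ, (E z).re = -(ε * R * (2 * z.re / R - (z.re ^ 2 - z.im ^ 2) / R ^ 2)) := by
    intro z
    have h1 : E z = ((-(ε * R) : ℝ) : ℂ) * (((2 / R : ℝ) : ℂ) * z - ((1 / R ^ 2 : ℝ) : ℂ) * z ^ 2) := by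
      simp only [hE]; push_cast; ring
    rw [h1, Complex.re_ofReal_mul, Complex.sub_re, Complex.re_ofReal_mul, Complex.re_ofReal_mul]
    have : (z ^ 2).re = z.re ^ 2 - z.im ^ 2 := by
      rw [pow_two, Complex.mul_re]; ring
    rw [this]; ring
  have hd : Differentiable ℂ (fun z => G z * cexp (E z)) := by
    refine hG.mul ?_
    refine Differentiable.cexp ?_
    simp only [hE]
    fun_prop
  have hb : ∀ z ∈ frontier U, ‖G z * cexp (E z)‖ ≤ max C 1 := by
    intro z hz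
    have hzc : z ∈ closure U := frontier_subset_closure hz
    have hz1 : ‖z‖ ≤ R := by
      have : z ∈ Metric.closedBall (0 : ℂ) R :=
        (closure_minimal (inter_subset_left.trans Metric.ball_subset_closedBall)
          Metric.isClosed_closedBall) hzc
      simpa using this
    have hz2 : 0 ≤ z.re := by
      have : z ∈ {z : ℂ | 0 ≤ z.re} :=
        (closure_minimal (fun w hw => (le_of_lt hw.2 : (0 : ℝ) ≤ w.re))
          (isClosed_le continuous_const Complex.continuous_re)) hzc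
      exact this
    have hz3 : z ∉ U := by
      intro hzU
      rw [frontier, hUo.interior_eq] at hz
      exact hz.2 hzU
    rw [norm_mul, Complex.norm_exp, hEre]
    by_cases hre : z.re = 0
    · have h1 : ‖G z‖ ≤ C := hC z hre.le
      have h2 : Real.exp (-(ε * R * (2 * z.re / R - (z.re ^ 2 - z.im ^ 2) / R ^ 2))) ≤ 1 := by
        rw [Real.exp_le_one_iff, hre]
        have : 0 ≤ ε * R * (2 * 0 / R - (0 ^ 2 - z.im ^ 2) / R ^ 2) := by
          have : (2 * 0 / R - (0 ^ 2 - z.im ^ 2) / R ^ 2) = z.im ^ 2 / R ^ 2 := by ring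
          rw [this]; positivity
        linarith
      calc ‖G z‖ * _ ≤ ‖G z‖ * 1 := mul_le_mul_of_nonneg_left h2 (norm_nonneg _)
        _ ≤ max C 1 := by rw [mul_one]; exact h1.trans (le_max_left _ _)
    · have hre' : 0 < z.re := lt_of_le_of_ne hz2 (Ne.symm hre)
      have hnorm : ‖z‖ = R := by
        refine le_antisymm hz1 ?_
        by_contra hlt
        push Not at hlt
        exact hz3 ⟨by simpa using hlt, hre'⟩
      have hsq : z.re ^ 2 + z.im ^ 2 = R ^ 2 := by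
        rw [← hnorm, Complex.sq_norm, Complex.normSq_apply]; ring
      have hle : z.re ≤ R := by
        rw [← hnorm]; exact Complex.re_le_norm z
      have h1 : ‖G z‖ ≤ Real.exp (ε * R) := hgr z hz1
      have hu : 1 ≤ 2 * z.re / R - (z.re ^ 2 - z.im ^ 2) / R ^ 2 := by
        have : z.im ^ 2 = R ^ 2 - z.re ^ 2 := by linarith
        rw [this]
        have e : 2 * z.re / R - (z.re ^ 2 - (R ^ 2 - z.re ^ 2)) / R ^ 2 =
            1 + 2 * (z.re / R) * (1 - z.re / R) := by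
          field_simp; ring
        rw [e]
        have h0 : 0 ≤ z.re / R := by positivity
        have h1' : z.re / R ≤ 1 := by rw [div_le_one hR0]; exact hle
        have : 0 ≤ 2 * (z.re / R) * (1 - z.re / R) := by
          apply mul_nonneg (by positivity); linarith
        linarith
      have h2 : Real.exp (-(ε * R * (2 * z.re / R - (z.re ^ 2 - z.im ^ 2) / R ^ 2))) ≤
          Real.exp (-(ε * R)) := by
        apply Real.exp_le_exp.mpr
        have : ε * R * 1 ≤ ε * R * (2 * z.re / R - (z.re ^ 2 - z.im ^ 2) / R ^ 2) :=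
          mul_le_mul_of_nonneg_left hu (by positivity)
        linarith
      calc ‖G z‖ * _ ≤ Real.exp (ε * R) * Real.exp (-(ε * R)) :=
            mul_le_mul h1 h2 (Real.exp_pos _).le (Real.exp_pos _).le
        _ = 1 := by rw [← Real.exp_add]; simp
        _ ≤ max C 1 := le_max_right _ _
  have hsU : s ∈ closure U := subset_closure ⟨by simpa using hsR, hs⟩
  have key := Complex.norm_le_of_forall_mem_frontier_norm_le hUb hd.diffContOnCl hb hsU
  rw [norm_mul, Complex.norm_exp, hEre] at key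
  have hpos := Real.exp_pos (-(ε * R * (2 * s.re / R - (s.re ^ 2 - s.im ^ 2) / R ^ 2)))
  have h3 : ‖G s‖ ≤ max C 1 * Real.exp (ε * R * (2 * s.re / R - (s.re ^ 2 - s.im ^ 2) / R ^ 2)) := by
    rw [Real.exp_neg] at key
    rw [← div_eq_mul_inv, div_le_iff₀ (Real.exp_pos _)] at key
    exact key
  refine h3.trans ?_
  refine mul_le_mul_of_nonneg_left ?_ (by positivity)
  apply Real.exp_le_exp.mpr
  have hre1 : s.re ≤ ‖s‖ := Complex.re_le_norm s
  have him : s.im ^ 2 ≤ ‖s‖ ^ 2 := by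
    rw [Complex.sq_norm, Complex.normSq_apply]; nlinarith [sq_nonneg s.re]
  have e : ε * R * (2 * s.re / R - (s.re ^ 2 - s.im ^ 2) / R ^ 2) =
      ε * (2 * s.re + (s.im ^ 2 - s.re ^ 2) / R) := by
    field_simp; ring
  rw [e]
  refine mul_le_mul_of_nonneg_left ?_ hε.le
  have h4 : (s.im ^ 2 - s.re ^ 2) / R ≤ ‖s‖ ^ 2 := by
    rw [div_le_iff₀ hR0]
    nlinarith [sq_nonneg s.re, sq_nonneg ‖s‖]
  linarith

theorem seqPL {G : ℂ → ℂ} (hG : Differentiable ℂ G) {C : ℝ} (hC : ∀ s : ℂ, s.re ≤ 0 → ‖G s‖ ≤ C)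
    (hgrow : ∀ ε : ℝ, 0 < ε → ∀ S : ℝ, ∃ R : ℝ, S ≤ R ∧
      ∀ s : ℂ, ‖s‖ ≤ R → ‖G s‖ ≤ Real.exp (ε * R)) (s : ℂ) :
    ‖G s‖ ≤ max C 1 := by
  rcases le_or_gt s.re 0 with hs | hs
  · exact (hC s hs).trans (le_max_left _ _)
  have h1 : ∀ ε : ℝ, 0 < ε → ‖G s‖ ≤ max C 1 * Real.exp (ε * (2 * ‖s‖ + ‖s‖ ^ 2)) := by
    intro ε hε
    obtain ⟨R, hR, hgr⟩ := hgrow ε hε (‖s‖ + 1)
    exact seqPL_step hG hC hε (by linarith [norm_nonneg s]) hgr hs (by linarith)
  have h2 : Tendsto (fun ε : ℝ => max C 1 * Real.exp (ε * (2 * ‖s‖ + ‖s‖ ^ 2)))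
      (nhdsWithin 0 (Ioi 0)) (nhds (max C 1 * Real.exp (0 * (2 * ‖s‖ + ‖s‖ ^ 2)))) := by
    refine tendsto_nhdsWithin_of_tendsto_nhds ?_
    have : Continuous (fun ε : ℝ => max C 1 * Real.exp (ε * (2 * ‖s‖ + ‖s‖ ^ 2))) := by fun_prop
    exact this.tendsto 0
  rw [zero_mul, Real.exp_zero, mul_one] at h2
  refine ge_of_tendsto h2 ?_
  filter_upwards [self_mem_nhdsWithin] with ε hε using h1 ε hε

end MP_c588fa_an
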