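import Pool.Agent.Lib_MP_c588fa_an.Defs

set_option autoImplicit false
open MeasureTheory Filter Set Complex
open scoped ENNReal

namespace MP_c588fa_an

/-- the extended valued kernel -/
noncomputable def kk (v : ℝ) : ℝ≥0∞ := (ENNReal.ofReal |v|) ^ (-(1 / 2 : ℝ))

lemma measurable_kk : Measurable kk := by
  unfold kk
  fun_prop

/-- excess over one, on the positive side -/
noncomputable def gg (v : ℝ) : ℝ≥0∞ :=
  (Ioc (0 : ℝ) 1).indicator (fun v => ENNReal.ofReal (v ^ (-(1 / 2 : ℝ)) - 1)) v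

lemma measurable_gg : Measurable gg := by
  unfold gg
  refine Measurable.indicator ?_ measurableSet_Ioc
  fun_prop

lemma kk_eq {v : ℝ} (hv : v ≠ 0) : kk v = ENNReal.ofReal (|v| ^ (-(1 / 2 : ℝ))) := by
  unfold kk
  rw [ENNReal.ofReal_rpow_of_pos (abs_pos.2 hv)]

lemma kk_le {v : ℝ} (hv : v ≠ 0) : kk v ≤ 1 + (gg v + gg (-v)) := by
  rw [kk_eq hv]
  by_cases h1 : |v| ≤ 1
  · have h2 : 1 ≤ |v| ^ (-(1 / 2 : ℝ)) :=
      Real.one_le_rpow_of_pos_of_le_one_of_nonpos (abs_pos.2 hv) h1 (by norm_num)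
    have h3 : ENNReal.ofReal (|v| ^ (-(1 / 2 : ℝ))) =
        1 + ENNReal.ofReal (|v| ^ (-(1 / 2 : ℝ)) - 1) := by
      rw [← ENNReal.ofReal_one, ← ENNReal.ofReal_add (by norm_num) (by linarith)]
      congr 1; ring
    rw [h3]
    gcongr
    rcases lt_or_gt_of_ne hv with h | h
    · have : gg (-v) = ENNReal.ofReal (|v| ^ (-(1 / 2 : ℝ)) - 1) := by
        unfold gg
        rw [abs_of_neg h] at h1 ⊢
        rw [indicator_of_mem (show -v ∈ Ioc (0 : ℝ) 1 from ⟨by linarith, h1⟩)]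
      rw [this]
      exact le_add_self
    · have : gg v = ENNReal.ofReal (|v| ^ (-(1 / 2 : ℝ)) - 1) := by
        unfold gg
        rw [abs_of_pos h] at h1 ⊢
        rw [indicator_of_mem (show v ∈ Ioc (0 : ℝ) 1 from ⟨h, h1⟩)]
      rw [this]
      exact le_self_add
  · push Not at h1
    have h2 : |v| ^ (-(1 / 2 : ℝ)) ≤ 1 := Real.rpow_le_one_of_one_le_of_nonpos h1.le (by norm_num)
    calc ENNReal.ofReal (|v| ^ (-(1 / 2 : ℝ))) ≤ ENNReal.ofReal 1 := ENNReal.ofReal_le_ofReal h2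
      _ = 1 := ENNReal.ofReal_one
      _ ≤ _ := le_self_add

lemma lintegral_gg : ∫⁻ v, gg v ≤ 1 := by
  have h1 : ∫⁻ v, gg v = ∫⁻ v in Ioc (0 : ℝ) 1, ENNReal.ofReal (v ^ (-(1 / 2 : ℝ)) - 1) := by
    unfold gg
    rw [← lintegral_indicator measurableSet_Ioc]
  rw [h1]
  have hi : IntervalIntegrable (fun v : ℝ => v ^ (-(1 / 2 : ℝ)) - 1) volume 0 1 :=
    (intervalIntegral.intervalIntegrable_rpow' (by norm_num)).sub intervalIntegrable_const
  have hi2 : IntegrableOn (fun v : ℝ => v ^ (-(1 / 2 : ℝ)) - 1) (Ioc 0 1) volume := by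
    rwa [intervalIntegrable_iff_integrableOn_Ioc_of_le zero_le_one] at hi
  rw [← ofReal_integral_eq_lintegral_ofReal hi2 ?_]
  · rw [← intervalIntegral.integral_of_le zero_le_one, intervalIntegral.integral_sub
      (intervalIntegral.intervalIntegrable_rpow' (by norm_num)) intervalIntegrable_const,
      integral_rpow (Or.inl (by norm_num))]
    norm_num
  · filter_upwards [ae_restrict_mem measurableSet_Ioc] with v hv
    have := Real.one_le_rpow_of_pos_of_le_one_of_nonpos hv.1 hv.2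
      (show (-(1 / 2 : ℝ)) ≤ 0 by norm_num)
    simp only [Pi.zero_apply]; linarith

lemma lintegral_kk (u n : ℝ) : ∫⁻ σ in Icc n (n + 1), kk (u - σ) ≤ 3 := by
  have hne : ∀ᵐ σ : ℝ, u - σ ≠ 0 := by
    have : (volume : Measure ℝ) {u} = 0 := by simp
    rw [ae_iff]
    refine measure_mono_null ?_ this
    intro σ hσ
    have hσ' : u - σ = 0 := not_not.1 hσ
    rw [mem_singleton_iff]; linarith
  calc ∫⁻ σ in Icc n (n + 1), kk (u - σ)
      ≤ ∫⁻ σ in Icc n (n + 1), (1 + (gg (u - σ) + gg (-(u - σ)))) := by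
        refine lintegral_mono_ae (ae_restrict_of_ae ?_)
        filter_upwards [hne] with σ hσ using kk_le hσ
    _ = (∫⁻ σ in Icc n (n + 1), 1) + ∫⁻ σ in Icc n (n + 1), (gg (u - σ) + gg (-(u - σ))) := by
        rw [lintegral_add_left measurable_const]
    _ ≤ 1 + ∫⁻ σ, (gg (u - σ) + gg (-(u - σ))) := by
        gcongr
        · simp
        · exact Measure.restrict_le_self
    _ = 1 + ((∫⁻ σ, gg (u - σ)) + ∫⁻ σ, gg (-(u - σ))) := by
        rw [lintegral_add_left (show Measurable (fun σ : ℝ => gg (u - σ)) from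
          measurable_gg.comp (measurable_const.sub measurable_id))]
    _ ≤ 1 + (1 + 1) := by
        have hA : ∫⁻ σ, gg (u - σ) ≤ 1 := by
          rw [lintegral_sub_left_eq_self gg u]; exact lintegral_gg
        have hB : ∫⁻ σ, gg (-(u - σ)) ≤ 1 := by
          have : ∀ σ : ℝ, -(u - σ) = σ - u := fun σ => by ring
          simp_rw [this]
          rw [lintegral_sub_right_eq_self gg u]; exact lintegral_gg
        exact add_le_add le_rfl (add_le_add hA hB)
    _ = 3 := by norm_num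

theorem exists_sigma {ρ p : ℝ → ℝ} (hρ : Integrable ρ) (hρ0 : ∀ x, 0 ≤ ρ x) (hp : Measurable p)
    (n : ℝ) :
    ∃ σ : ℝ, σ ∈ Icc n (n + 1) ∧ (∀ᵐ x : ℝ, ρ x ≠ 0 → p x ≠ σ) ∧
      Integrable (fun x => ρ x / Real.sqrt |p x - σ|) ∧
      ∫ x, ρ x / Real.sqrt |p x - σ| ≤ 3 * ∫ x, ρ x := by
  have hmeas : AEMeasurable (Function.uncurry fun (σ x : ℝ) => ENNReal.ofReal (ρ x) * kk (p x - σ))
      ((volume.restrict (Icc n (n + 1))).prod volume) := by
    have h1 : AEMeasurable (fun z : ℝ × ℝ => ENNReal.ofReal (ρ z.2))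
        ((volume.restrict (Icc n (n + 1))).prod volume) :=
      hρ.1.aemeasurable.ennreal_ofReal.comp_snd
    have h2 : Measurable (fun z : ℝ × ℝ => kk (p z.2 - z.1)) :=
      measurable_kk.comp ((hp.comp measurable_snd).sub measurable_fst)
    exact h1.mul h2.aemeasurable
  have htot : ∫⁻ σ in Icc n (n + 1), ∫⁻ x, ENNReal.ofReal (ρ x) * kk (p x - σ) ≤
      3 * ∫⁻ x, ENNReal.ofReal (ρ x) := by
    rw [lintegral_lintegral_swap hmeas]
    calc ∫⁻ x, ∫⁻ σ in Icc n (n + 1), ENNReal.ofReal (ρ x) * kk (p x - σ)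
        = ∫⁻ x, ENNReal.ofReal (ρ x) * ∫⁻ σ in Icc n (n + 1), kk (p x - σ) := by
          congr 1; ext x
          rw [lintegral_const_mul _ (show Measurable (fun σ : ℝ => kk (p x - σ)) from
            measurable_kk.comp (measurable_const.sub measurable_id))]
      _ ≤ ∫⁻ x, ENNReal.ofReal (ρ x) * 3 := by
          gcongr with x
          exact lintegral_kk (p x) n
      _ = 3 * ∫⁻ x, ENNReal.ofReal (ρ x) := by
          rw [lintegral_mul_const' _ _ (by norm_num), mul_comm]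
  have hfin : ∫⁻ x, ENNReal.ofReal (ρ x) = ENNReal.ofReal (∫ x, ρ x) :=
    (ofReal_integral_eq_lintegral_ofReal hρ (Eventually.of_forall hρ0)).symm
  have hvol : (volume : Measure ℝ) (Icc n (n + 1)) = 1 := by simp
  obtain ⟨σ, hσ, hle⟩ := exists_le_setLAverage (μ := (volume : Measure ℝ)) (s := Icc n (n + 1))
    (f := fun σ => ∫⁻ x, ENNReal.ofReal (ρ x) * kk (p x - σ))
    (by rw [hvol]; norm_num) (by rw [hvol]; norm_num) hmeas.lintegral_prod_right'
  rw [setLAverage_eq, hvol, div_one] at hle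
  have hle2 : ∫⁻ x, ENNReal.ofReal (ρ x) * kk (p x - σ) ≤ ENNReal.ofReal (3 * ∫ x, ρ x) := by
    refine (hle.trans htot).trans ?_
    rw [hfin, ENNReal.ofReal_mul (by norm_num)]
    gcongr
    norm_num
  have hpm : AEMeasurable (fun x => ENNReal.ofReal (ρ x) * kk (p x - σ)) volume :=
    hρ.1.aemeasurable.ennreal_ofReal.mul
      (measurable_kk.comp (hp.sub measurable_const)).aemeasurable
  have hne : ∀ᵐ x : ℝ, ρ x ≠ 0 → p x ≠ σ := by
    have h1 := ae_lt_top' hpm (ne_top_of_le_ne_top ENNReal.ofReal_ne_top hle2)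
    filter_upwards [h1] with x hx hρx hpx
    have hk : kk (p x - σ) = ⊤ := by
      unfold kk
      rw [hpx, sub_self, abs_zero, ENNReal.ofReal_zero, ENNReal.zero_rpow_of_neg (by norm_num)]
    rw [hk, ENNReal.mul_top] at hx
    · exact absurd hx (lt_irrefl _)
    · have : 0 < ρ x := lt_of_le_of_ne (hρ0 x) (Ne.symm hρx)
      simpa using this
  have hpt : ∀ x, ENNReal.ofReal (ρ x / Real.sqrt |p x - σ|) ≤
      ENNReal.ofReal (ρ x) * kk (p x - σ) := by
    intro x
    by_cases hv : p x - σ = 0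
    · rw [hv]; simp
    · rw [kk_eq hv, ← ENNReal.ofReal_mul (hρ0 x), Real.rpow_neg (abs_nonneg _), Real.sqrt_eq_rpow,
        div_eq_mul_inv]
  have hnn : ∀ x, 0 ≤ ρ x / Real.sqrt |p x - σ| := fun x => div_nonneg (hρ0 x) (Real.sqrt_nonneg _)
  have hle3 : ∫⁻ x, ENNReal.ofReal (ρ x / Real.sqrt |p x - σ|) ≤ ENNReal.ofReal (3 * ∫ x, ρ x) :=
    (lintegral_mono hpt).trans hle2
  have hsm : AEStronglyMeasurable (fun x => ρ x / Real.sqrt |p x - σ|) volume := by
    refine (hρ.1.aemeasurable.div ?_).aestronglyMeasurable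
    fun_prop
  refine ⟨σ, hσ, hne, ⟨hsm, ?_⟩, ?_⟩
  · rw [hasFiniteIntegral_iff_ofReal (Eventually.of_forall hnn)]
    exact lt_of_le_of_lt hle3 ENNReal.ofReal_lt_top
  · rw [integral_eq_lintegral_of_nonneg_ae (Eventually.of_forall hnn) hsm]
    have h0 : 0 ≤ 3 * ∫ x, ρ x := by
      have : 0 ≤ ∫ x, ρ x := integral_nonneg (fun x => hρ0 x)
      linarith
    calc (∫⁻ x, ENNReal.ofReal (ρ x / Real.sqrt |p x - σ|)).toReal
        ≤ (ENNReal.ofReal (3 * ∫ x, ρ x)).toReal :=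
          ENNReal.toReal_mono ENNReal.ofReal_ne_top hle3
      _ = 3 * ∫ x, ρ x := ENNReal.toReal_ofReal h0

end MP_c588fa_an
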