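import Pool.Agent.Lib_MP_c588fa_an.Defs

set_option autoImplicit false
open MeasureTheory Filter Set Complex FourierTransform SchwartzMap

namespace MP_c588fa_an

theorem ae_zero_of_fourier_zero {h : ℝ → ℂ} (hh : Integrable h)
    (hz : ∀ t : ℝ, ∫ x : ℝ, h x * cexp ((t : ℂ) * (x : ℂ) * I) = 0) : h =ᵐ[volume] 0 := by
  have hF : ∀ w : ℝ, 𝓕 h w = 0 := by
    intro w
    rw [Real.fourier_real_eq_integral_exp_smul]
    have h1 := hz (-2 * Real.pi * w)
    rw [← h1]
    refine integral_congr_ae (Filter.Eventually.of_forall fun x => ?_)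
    simp only [smul_eq_mul]
    rw [mul_comm]
    congr 2
    push_cast
    ring
  refine ae_eq_zero_of_integral_contDiff_smul_eq_zero hh.locallyIntegrable ?_
  intro g hg hgs
  have hg' : ContDiff ℝ (⊤ : ℕ∞) (fun x => ((g x : ℝ) : ℂ)) :=
    Complex.ofRealCLM.contDiff.comp hg
  have hgs' : HasCompactSupport (fun x => ((g x : ℝ) : ℂ)) :=
    hgs.comp_left (g := fun y : ℝ => (y : ℂ)) (by simp)
  let G : 𝓢(ℝ, ℂ) := hgs'.toSchwartzMap hg'
  let P : 𝓢(ℝ, ℂ) := 𝓕⁻ G
  have hGP : 𝓕 P = G := by simp [P]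
  have key := VectorFourier.integral_fourierIntegral_smul_eq_flip (L := innerₗ ℝ)
    (μ := volume) (ν := volume)
    Real.continuous_fourierChar continuous_inner hh P.integrable
  have e1 : ∀ x : ℝ, VectorFourier.fourierIntegral Real.fourierChar volume (innerₗ ℝ).flip P x =
      ((g x : ℝ) : ℂ) := by
    intro x
    have : 𝓕 P x = G x := by rw [hGP]
    have h2 : G x = ((g x : ℝ) : ℂ) := rfl
    rw [← h2, ← this]
    rw [SchwartzMap.fourier_coe]
    simp [Real.fourier_eq, VectorFourier.fourierIntegral]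
  have e2 : ∀ x : ℝ, VectorFourier.fourierIntegral Real.fourierChar volume (innerₗ ℝ) h x = 0 := by
    intro x
    exact hF x
  simp only [e1, e2, zero_smul, integral_zero] at key
  rw [key]
  refine integral_congr_ae (Filter.Eventually.of_forall fun x => ?_)
  simp [mul_comm]

end MP_c588fa_an
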