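import Pool.Agent.Lib_MP_c588fa_an.Defs

/-!
PIECE F2: pointwise bound of the correlation function.
-/

set_option autoImplicit false
open MeasureTheory Filter Set Complex

namespace MP_c588fa_an

/-- superadditivity defect of a convex function -/
theorem convex_add_le {η : ℝ → ℝ} (hconv : ConvexOn ℝ (Ici 0) η) {x a : ℝ} (hx : 0 < x)
    (ha : 0 ≤ a) : η x + η a ≤ η 0 + η (x + a) := by
  have hxa : 0 < x + a := by linarith
  have h0 : (0 : ℝ) ∈ Ici (0 : ℝ) := self_mem_Ici
  have h1 : (x + a) ∈ Ici (0 : ℝ) := hxa.le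
  have g1 : (0 : ℝ) ≤ a / (x + a) := by positivity
  have g2 : (0 : ℝ) ≤ x / (x + a) := by positivity
  have g3 : a / (x + a) + x / (x + a) = 1 := by field_simp; ring
  have g4 : x / (x + a) + a / (x + a) = 1 := by field_simp
  have e1 := hconv.2 h0 h1 g1 g2 g3
  have e2 := hconv.2 h0 h1 g2 g1 g4
  simp only [smul_eq_mul, mul_zero, zero_add] at e1 e2
  have f1 : x / (x + a) * (x + a) = x := by field_simp
  have f2 : a / (x + a) * (x + a) = a := by field_simp
  rw [f1] at e1
  rw [f2] at e2
  have f3 : a / (x + a) * η 0 + x / (x + a) * η 0 = η 0 := by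
    rw [← add_mul]
    rw [g3, one_mul]
  have f4 : x / (x + a) * η (x + a) + a / (x + a) * η (x + a) = η (x + a) := by
    rw [← add_mul]
    rw [g4, one_mul]
  linarith

theorem X_bound {η p : ℝ → ℝ} (hconv : ConvexOn ℝ (Ici 0) η) (hp : Measurable p)
    (hsub : ∀ x : ℝ, 0 < x → ∀ y : ℝ, 0 ≤ y → η x + p x * (y - x) ≤ η y)
    {f g : ℝ → ℂ} (hfm : Measurable f) (hgm : Measurable g)
    (hf0 : ∀ x : ℝ, x ≤ 0 → f x = 0) (hg0 : ∀ y : ℝ, y < 0 → g y = 0)
    (hg : ∀ y : ℝ, 0 ≤ y → ‖g y‖ ≤ Real.exp (-η y))
    (hρ : Integrable (fun x => ‖f x‖ * Real.exp (-η x))) {σ a : ℝ}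
    (hfg : 0 ≤ a → ∫ x : ℝ, f x * g (x + a) = 0) :
    ‖cexp ((σ : ℂ) * (a : ℂ)) * ∫ x : ℝ, {x : ℝ | p x < σ}.indicator f x * g (x + a)‖ ≤
      ∫ x : ℝ, (‖f x‖ * Real.exp (-η x)) * Real.exp (-(|a| * |p x - σ|)) := by
  -- pointwise bound
  have hpt : ∀ x, ‖f x * g (x + a)‖ ≤ ‖f x‖ * Real.exp (-η x) * Real.exp (-(p x * a)) := by
    intro x
    rcases le_or_gt x 0 with hx | hx
    · rw [hf0 x hx]; simp
    · rcases lt_or_ge (x + a) 0 with hxa | hxa
      · rw [hg0 _ hxa, mul_zero, norm_zero]; positivity
      · rw [norm_mul, mul_assoc]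
        refine mul_le_mul_of_nonneg_left ?_ (norm_nonneg _)
        refine (hg _ hxa).trans ?_
        rw [← Real.exp_add]
        apply Real.exp_le_exp.mpr
        have := hsub x hx (x + a) hxa
        have e : x + a - x = a := by ring
        rw [e] at this
        linarith
  -- the right hand side
  have hRint : Integrable (fun x => (‖f x‖ * Real.exp (-η x)) *
      Real.exp (-(|a| * |p x - σ|))) := by
    refine Integrable.mono' hρ ?_ ?_
    · refine hρ.aestronglyMeasurable.mul ?_
      have hm : Measurable (fun x => Real.exp (-(|a| * |p x - σ|))) := by fun_prop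
      exact hm.aestronglyMeasurable
    · refine ae_of_all _ fun x => ?_
      have h1 : (0 : ℝ) ≤ ‖f x‖ * Real.exp (-η x) := by positivity
      rw [Real.norm_eq_abs, abs_of_nonneg (by positivity)]
      have h2 : Real.exp (-(|a| * |p x - σ|)) ≤ 1 := by
        rw [Real.exp_le_one_iff]
        have : 0 ≤ |a| * |p x - σ| := by positivity
        linarith
      calc (‖f x‖ * Real.exp (-η x)) * Real.exp (-(|a| * |p x - σ|))
          ≤ (‖f x‖ * Real.exp (-η x)) * 1 := by gcongr
        _ = _ := mul_one _
  have hnexp : ‖cexp ((σ : ℂ) * (a : ℂ))‖ = Real.exp (σ * a) := by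
    rw [Complex.norm_exp, ← Complex.ofReal_mul, Complex.ofReal_re]
  have hSm : MeasurableSet {x : ℝ | p x < σ} := measurableSet_lt hp measurable_const
  -- the bound on a set where the sign is right
  have key : ∀ T : Set ℝ, MeasurableSet T → (∀ x ∈ T, (p x - σ) * a = |a| * |p x - σ|) →
      ‖cexp ((σ : ℂ) * (a : ℂ)) * ∫ x : ℝ, T.indicator f x * g (x + a)‖ ≤
      ∫ x : ℝ, (‖f x‖ * Real.exp (-η x)) * Real.exp (-(|a| * |p x - σ|)) := by
    intro T hT hTs
    rw [← integral_const_mul]
    refine norm_integral_le_of_norm_le hRint (ae_of_all _ fun x => ?_)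
    by_cases hx : x ∈ T
    · rw [indicator_of_mem hx, norm_mul, hnexp]
      calc Real.exp (σ * a) * ‖f x * g (x + a)‖
          ≤ Real.exp (σ * a) * (‖f x‖ * Real.exp (-η x) * Real.exp (-(p x * a))) := by
            gcongr; exact hpt x
        _ = (‖f x‖ * Real.exp (-η x)) * (Real.exp (σ * a) * Real.exp (-(p x * a))) := by ring
        _ = (‖f x‖ * Real.exp (-η x)) * Real.exp (-(|a| * |p x - σ|)) := by
            rw [← Real.exp_add, ← hTs x hx]
            congr 2
            ring
    · rw [indicator_of_notMem hx, zero_mul, mul_zero, norm_zero]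
      positivity
  rcases lt_or_ge a 0 with ha | ha
  · refine key _ hSm ?_
    intro x hx
    rw [mem_ofPred_eq] at hx
    rw [abs_of_neg ha, abs_of_neg (by linarith)]
    ring
  · -- a nonnegative: pass to the complement
    have hint : Integrable (fun x => f x * g (x + a)) := by
      refine Integrable.mono' (hρ.mul_const (Real.exp (η 0 - η a))) ?_ ?_
      · exact (hfm.mul (hgm.comp (measurable_id.add_const a))).aestronglyMeasurable
      · refine ae_of_all _ fun x => ?_
        rcases le_or_gt x 0 with hx | hx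
        · rw [hf0 x hx]; simp
        · rw [norm_mul, mul_assoc]
          refine mul_le_mul_of_nonneg_left ?_ (norm_nonneg _)
          refine (hg _ (by linarith)).trans ?_
          rw [← Real.exp_add]
          apply Real.exp_le_exp.mpr
          have := convex_add_le hconv hx ha
          linarith
    have hsplit : (∫ x : ℝ, {x : ℝ | p x < σ}.indicator f x * g (x + a)) =
        -∫ x : ℝ, {x : ℝ | p x < σ}ᶜ.indicator f x * g (x + a) := by
      have h1 : ∀ T : Set ℝ, MeasurableSet T → (∫ x : ℝ, T.indicator f x * g (x + a)) =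
          ∫ x in T, f x * g (x + a) := by
        intro T hT
        rw [← integral_indicator hT]
        congr 1
        funext x
        by_cases hx : x ∈ T
        · rw [indicator_of_mem hx, indicator_of_mem hx]
        · rw [indicator_of_notMem hx, indicator_of_notMem hx, zero_mul]
      rw [h1 _ hSm, h1 _ hSm.compl]
      have h2 := integral_add_compl hSm hint
      rw [hfg ha] at h2
      exact eq_neg_of_add_eq_zero_left h2
    rw [hsplit, mul_neg, norm_neg]
    refine key _ hSm.compl ?_
    intro x hx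
    rw [mem_compl_iff, mem_ofPred_eq, not_lt] at hx
    rw [abs_of_nonneg ha, abs_of_nonneg (by linarith)]
    ring

end MP_c588fa_an
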