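import Pool.Agent.Lib_MP_c588fa_an.Defs

set_option autoImplicit false
open MeasureTheory Filter Set Complex

namespace MP_c588fa_an

private lemma lint_exp_abs {c : ℝ} (hc : 0 < c) :
    ∫⁻ a : ℝ, ENNReal.ofReal (Real.exp (-(c * |a|))) = ENNReal.ofReal (2 / c) := by
  have h1 : ∫ a : ℝ, Real.exp (-(c * |a|)) = 2 / c := by
    have := integral_comp_abs (f := fun a : ℝ => Real.exp (-(c * a)))
    rw [this]
    have h2 : ∫ x in Ioi (0 : ℝ), Real.exp (-(c * x)) = 1 / c := by
      have h3 := integral_exp_mul_Ioi (a := -c) (by linarith) 0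
      have h4 : ∀ x : ℝ, Real.exp (-(c * x)) = Real.exp (-c * x) := fun x => by
        congr 1; ring
      simp_rw [h4]
      rw [h3]
      simp
    rw [h2]
    ring
  have h5 : Integrable fun a : ℝ => Real.exp (-(c * |a|)) := by
    by_contra hn
    rw [integral_undef hn] at h1
    have : 0 < 2 / c := by positivity
    linarith
  rw [← ofReal_integral_eq_lintegral_ofReal h5 (Eventually.of_forall fun a =>
    (Real.exp_pos _).le), h1]

theorem X_l2 {ρ p : ℝ → ℝ} (hρ : Integrable ρ) (hρ0 : ∀ x, 0 ≤ ρ x) (hp : Measurable p) {σ : ℝ}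
    (hne : ∀ᵐ x : ℝ, ρ x ≠ 0 → p x ≠ σ)
    (hint : Integrable (fun x => ρ x / Real.sqrt |p x - σ|))
    {X : ℝ → ℂ} (hXm : AEStronglyMeasurable X volume)
    (hX : ∀ᵐ a : ℝ, ‖X a‖ ≤ ∫ x, ρ x * Real.exp (-(|a| * |p x - σ|))) :
    Integrable (fun a : ℝ => ‖X a‖ ^ 2) ∧
      ∫ a : ℝ, ‖X a‖ ^ 2 ≤ (∫ x, ρ x / Real.sqrt |p x - σ|) ^ 2 := by
  set u : ℝ → ℝ := fun x => |p x - σ| with hu
  have hum : Measurable u := (hp.sub_const σ).norm
  have hu0 : ∀ x, 0 ≤ u x := fun x => abs_nonneg _
  set R : ℝ → ENNReal := fun x => ENNReal.ofReal (ρ x) with hR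
  have hRm : AEMeasurable R := hρ.1.aemeasurable.ennreal_ofReal
  set E : ℝ → ℝ → ENNReal := fun a x => ENNReal.ofReal (Real.exp (-(|a| * u x))) with hE
  have hEm : Measurable (fun w : ℝ × ℝ => E w.1 w.2) := by
    apply Measurable.ennreal_ofReal
    apply Real.measurable_exp.comp
    apply Measurable.neg
    exact (measurable_fst.norm).mul (hum.comp measurable_snd)
  set S : ℝ → ENNReal := fun x => ENNReal.ofReal (ρ x / Real.sqrt (u x)) with hS
  -- pointwise bound
  have hXe : ∀ᵐ a : ℝ, ENNReal.ofReal (‖X a‖ ^ 2) ≤ (∫⁻ x, R x * E a x) ^ 2 := by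
    filter_upwards [hX] with a ha
    have h1 : ENNReal.ofReal ‖X a‖ ≤ ∫⁻ x, R x * E a x := by
      refine (ENNReal.ofReal_le_ofReal ha).trans ?_
      rw [ofReal_integral_eq_lintegral_ofReal]
      · refine le_of_eq (lintegral_congr fun x => ?_)
        rw [hR, hE]
        beta_reduce
        rw [← ENNReal.ofReal_mul (hρ0 x)]
      · refine hρ.mul_bdd (c := 1) ?_ (Eventually.of_forall fun x => ?_)
        · exact (Real.measurable_exp.comp ((hum.const_mul |a|).neg)).aestronglyMeasurable
        · rw [Real.norm_of_nonneg (Real.exp_pos _).le]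
          exact Real.exp_le_one_iff.2 (neg_nonpos.2 (mul_nonneg (abs_nonneg _) (hu0 x)))
      · exact Eventually.of_forall fun x => mul_nonneg (hρ0 x) (Real.exp_pos _).le
    rw [ENNReal.ofReal_pow (norm_nonneg _)]
    exact pow_le_pow_left' h1 2
  -- total bound
  have htot : ∫⁻ a : ℝ, (∫⁻ x, R x * E a x) ^ 2 ≤ (∫⁻ x, S x) ^ 2 := by
    have hEa : ∀ a, Measurable (E a) := fun a => hEm.comp (measurable_const.prodMk measurable_id)
    calc ∫⁻ a : ℝ, (∫⁻ x, R x * E a x) ^ 2
        = ∫⁻ a : ℝ, ∫⁻ z : ℝ × ℝ, (R z.1 * E a z.1) * (R z.2 * E a z.2) := by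
          refine lintegral_congr fun a => ?_
          have hm : AEMeasurable (fun x => R x * E a x) := hRm.mul (hEa a).aemeasurable
          have := lintegral_prod_mul hm hm
          rw [Measure.volume_eq_prod, this, sq]
      _ = ∫⁻ z : ℝ × ℝ, ∫⁻ a : ℝ, (R z.1 * E a z.1) * (R z.2 * E a z.2) := by
          refine lintegral_lintegral_swap ?_
          have m1 : AEMeasurable (fun z : ℝ × ℝ => R z.1) (volume.prod volume) :=
            hRm.comp_quasiMeasurePreserving Measure.quasiMeasurePreserving_fst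
          have m2 : AEMeasurable (fun z : ℝ × ℝ => R z.2) (volume.prod volume) :=
            hRm.comp_quasiMeasurePreserving Measure.quasiMeasurePreserving_snd
          have m1' : AEMeasurable (fun w : ℝ × (ℝ × ℝ) => R w.2.1) (volume.prod volume) :=
            m1.comp_quasiMeasurePreserving Measure.quasiMeasurePreserving_snd
          have m2' : AEMeasurable (fun w : ℝ × (ℝ × ℝ) => R w.2.2) (volume.prod volume) :=
            m2.comp_quasiMeasurePreserving Measure.quasiMeasurePreserving_snd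
          have m3 : Measurable (fun w : ℝ × (ℝ × ℝ) => E w.1 w.2.1) :=
            hEm.comp (measurable_fst.prodMk (measurable_fst.comp measurable_snd))
          have m4 : Measurable (fun w : ℝ × (ℝ × ℝ) => E w.1 w.2.2) :=
            hEm.comp (measurable_fst.prodMk (measurable_snd.comp measurable_snd))
          exact (m1'.mul m3.aemeasurable).mul (m2'.mul m4.aemeasurable)
      _ ≤ ∫⁻ z : ℝ × ℝ, S z.1 * S z.2 := by
          have a1 : ∀ᵐ z : ℝ × ℝ, ρ z.1 ≠ 0 → p z.1 ≠ σ :=
            Measure.quasiMeasurePreserving_fst.ae hne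
          have a2 : ∀ᵐ z : ℝ × ℝ, ρ z.2 ≠ 0 → p z.2 ≠ σ :=
            Measure.quasiMeasurePreserving_snd.ae hne
          refine lintegral_mono_ae ?_
          filter_upwards [a1, a2] with z h1 h2
          by_cases hz1 : ρ z.1 = 0
          · have : R z.1 = 0 := by rw [hR]; simp [hz1]
            simp [this]
          by_cases hz2 : ρ z.2 = 0
          · have : R z.2 = 0 := by rw [hR]; simp [hz2]
            simp [this]
          have u1 : 0 < u z.1 := abs_pos.2 (sub_ne_zero.2 (h1 hz1))
          have u2 : 0 < u z.2 := abs_pos.2 (sub_ne_zero.2 (h2 hz2))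
          have e1 : ∀ a : ℝ, (R z.1 * E a z.1) * (R z.2 * E a z.2) =
              (R z.1 * R z.2) * ENNReal.ofReal (Real.exp (-((u z.1 + u z.2) * |a|))) := by
            intro a
            have : ENNReal.ofReal (Real.exp (-((u z.1 + u z.2) * |a|))) = E a z.1 * E a z.2 := by
              rw [hE]
              beta_reduce
              rw [← ENNReal.ofReal_mul (Real.exp_pos _).le, ← Real.exp_add]
              congr 2
              ring
            rw [this]
            ring
          simp_rw [e1]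
          rw [lintegral_const_mul' _ _ (by simp [hR, ENNReal.mul_eq_top]),
            lint_exp_abs (by positivity)]
          rw [hR, hS]
          beta_reduce
          rw [← ENNReal.ofReal_mul (hρ0 _), ← ENNReal.ofReal_mul (mul_nonneg (hρ0 _) (hρ0 _)),
            ← ENNReal.ofReal_mul (div_nonneg (hρ0 _) (Real.sqrt_nonneg _))]
          apply ENNReal.ofReal_le_ofReal
          have s1 : 0 < Real.sqrt (u z.1) := Real.sqrt_pos.2 u1
          have s2 : 0 < Real.sqrt (u z.2) := Real.sqrt_pos.2 u2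
          have q1 : Real.sqrt (u z.1) ^ 2 = u z.1 := Real.sq_sqrt u1.le
          have q2 : Real.sqrt (u z.2) ^ 2 = u z.2 := Real.sq_sqrt u2.le
          rw [div_mul_div_comm, mul_div_assoc']
          rw [div_le_div_iff₀ (by positivity) (by positivity)]
          have h0 : 0 ≤ ρ z.1 * ρ z.2 := mul_nonneg (hρ0 _) (hρ0 _)
          rw [mul_assoc]
          refine mul_le_mul_of_nonneg_left ?_ h0
          nlinarith [sq_nonneg (Real.sqrt (u z.1) - Real.sqrt (u z.2))]
      _ = (∫⁻ x, S x) ^ 2 := by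
          have hSm : AEMeasurable S := hint.1.aemeasurable.ennreal_ofReal
          rw [Measure.volume_eq_prod, lintegral_prod_mul hSm hSm, sq]
  have hSfin : ∫⁻ x, S x = ENNReal.ofReal (∫ x, ρ x / Real.sqrt (u x)) := by
    rw [ofReal_integral_eq_lintegral_ofReal hint (Eventually.of_forall fun x =>
      div_nonneg (hρ0 x) (Real.sqrt_nonneg _))]
  have hI0 : 0 ≤ ∫ x, ρ x / Real.sqrt (u x) :=
    integral_nonneg fun x => div_nonneg (hρ0 x) (Real.sqrt_nonneg _)
  have hfin : ∫⁻ a : ℝ, ENNReal.ofReal (‖X a‖ ^ 2) ≤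
      ENNReal.ofReal ((∫ x, ρ x / Real.sqrt (u x)) ^ 2) := by
    refine (lintegral_mono_ae hXe).trans (htot.trans ?_)
    rw [hSfin, ENNReal.ofReal_pow hI0]
  have hXm2 : AEStronglyMeasurable (fun a : ℝ => ‖X a‖ ^ 2) volume := hXm.norm.pow 2
  have hXi : Integrable (fun a : ℝ => ‖X a‖ ^ 2) := by
    refine ⟨hXm2, ?_⟩
    rw [hasFiniteIntegral_iff_ofReal (Eventually.of_forall fun a => by positivity)]
    exact hfin.trans_lt ENNReal.ofReal_lt_top
  refine ⟨hXi, ?_⟩
  rw [← ofReal_integral_eq_lintegral_ofReal hXi (Eventually.of_forall fun a => by positivity)]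
    at hfin
  exact (ENNReal.ofReal_le_ofReal_iff (by positivity)).1 hfin

end MP_c588fa_an
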