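import Pool.Agent.Lib_MP_c588fa_an.HalfPlane
import Pool.Agent.Lib_MP_c588fa_an.SeqPL
import Pool.Agent.Lib_MP_c588fa_an.Uniq
import Pool.Agent.Lib_MP_c588fa_an.Large
import Pool.Agent.Lib_MP_c588fa_an.L2
import Pool.Agent.Lib_MP_c588fa_an.XL2
import Pool.Agent.Lib_MP_c588fa_an.XBound
import Pool.Agent.Lib_MP_c588fa_an.Prod
import Pool.Agent.Lib_MP_c588fa_an.Laplace
import Pool.Agent.Lib_MP_c588fa_an.Sigma

set_option autoImplicit false
open MeasureTheory Filter Set Complex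

namespace MP_c588fa_an

lemma kernel_le {n σ x t : ℝ} {s : ℂ} (hn : 6 ≤ n) (hσ1 : n ≤ σ) (hσ2 : σ ≤ n + 1)
    (hx1 : n - 1 ≤ x) (hx2 : x ≤ n) (hs : ‖s‖ ≤ n / 2) :
    pk (σ - s.re) (t - s.im) ≤ 8 * pk x t := by
  have hsq : s.re ^ 2 + s.im ^ 2 ≤ n ^ 2 / 4 := by
    have h1 : ‖s‖ ^ 2 = s.re ^ 2 + s.im ^ 2 := by
      rw [Complex.sq_norm, Complex.normSq_apply]; ring
    have h2 : ‖s‖ ^ 2 ≤ (n / 2) ^ 2 := pow_le_pow_left₀ (norm_nonneg _) hs 2
    rw [← h1]; linarith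
  have hre : |s.re| ≤ n / 2 := (Complex.abs_re_le_norm s).trans hs
  have hre' := abs_le.mp hre
  set b : ℝ := σ - s.re with hb
  have hb0 : 0 < b := by simp only [hb]; linarith
  have hb1 : b ≤ 2 * x := by simp only [hb]; linarith
  have hx0 : 0 < x := by linarith
  have hden : x ^ 2 + t ^ 2 ≤ 4 * (b ^ 2 + (t - s.im) ^ 2) := by
    have h1 : x ^ 2 ≤ σ ^ 2 := by nlinarith
    have h2 : s.re ^ 2 + s.im ^ 2 ≤ (σ ^ 2 + t ^ 2) / 4 := by nlinarith [sq_nonneg t]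
    have h3 : σ ^ 2 ≤ 2 * b ^ 2 + 2 * s.re ^ 2 := by
      simp only [hb]; nlinarith [sq_nonneg (σ - 2 * s.re)]
    have h4 : t ^ 2 ≤ 2 * (t - s.im) ^ 2 + 2 * s.im ^ 2 := by nlinarith [sq_nonneg (t - 2 * s.im)]
    nlinarith
  unfold pk
  have h5 : b / (b ^ 2 + (t - s.im) ^ 2) ≤ 8 * (x / (x ^ 2 + t ^ 2)) := by
    rw [← mul_div_assoc, div_le_div_iff₀ (by positivity) (by positivity)]
    calc b * (x ^ 2 + t ^ 2) ≤ (2 * x) * (4 * (b ^ 2 + (t - s.im) ^ 2)) :=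
          mul_le_mul hb1 hden (by positivity) (by positivity)
      _ = 8 * x * (b ^ 2 + (t - s.im) ^ 2) := by ring
  have hpi := Real.pi_pos
  calc 1 / Real.pi * (b / (b ^ 2 + (t - s.im) ^ 2)) ≤
        1 / Real.pi * (8 * (x / (x ^ 2 + t ^ 2))) :=
        mul_le_mul_of_nonneg_left h5 (by positivity)
    _ = 8 * (1 / Real.pi * (x / (x ^ 2 + t ^ 2))) := by ring

lemma log_pointwise {u v M : ℝ} (hu0 : 0 ≤ u) (hu : u ≤ 1) (_hv0 : 0 ≤ v) (hv : v ≤ M)
    (hM : 1 ≤ M) :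
    Real.log (max v 1) ≤ (2 + (u * v) ^ 2) - Real.log (max u (1 / M)) := by
  have hM0 : 0 < M := by linarith
  have hvM : Real.log (max v 1) ≤ Real.log M :=
    Real.log_le_log (by positivity) (max_le hv hM)
  have hv1 : 0 ≤ Real.log (max v 1) := Real.log_nonneg (le_max_right _ _)
  rcases le_or_gt (1 / M) u with h | h
  · rw [max_eq_left h]
    have hu' : 0 < u := lt_of_lt_of_le (by positivity) h
    have hlu : Real.log u ≤ 0 := Real.log_nonpos hu0 hu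
    rcases le_or_gt v 1 with h1 | h1
    · rw [max_eq_right h1, Real.log_one]
      nlinarith [sq_nonneg (u * v)]
    · rw [max_eq_left h1.le]
      have h2 : Real.log v + Real.log u = Real.log (u * v) := by
        rw [mul_comm, Real.log_mul (by linarith) (by linarith)]
      have h3 : Real.log (u * v) ≤ u * v - 1 := Real.log_le_sub_one_of_pos (by positivity)
      nlinarith [sq_nonneg (u * v - 1)]
  · rw [max_eq_right h.le]
    have h2 : Real.log (1 / M) = -Real.log M := by rw [one_div, Real.log_inv]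
    rw [h2]
    nlinarith [sq_nonneg (u * v)]

lemma integrable_pk_mul {x : ℝ} (hx : 0 < x) {b : ℝ → ℝ} (hb : Continuous b) {B : ℝ}
    (hB : ∀ t, |b t| ≤ B) : Integrable (fun t => pk x t * b t) := by
  have h0 : Integrable (fun t : ℝ => pk x t) := by simpa using integrable_pk hx 0
  refine h0.mul_bdd (c := B) hb.aestronglyMeasurable ?_
  filter_upwards with t using by simpa using hB t

lemma log_integral {u v : ℝ → ℂ} (hu : Continuous u) (hv : Continuous v) {M : ℝ} (hM : 1 ≤ M)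
    (hu1 : ∀ t, ‖u t‖ ≤ 1) (hvM : ∀ t, ‖v t‖ ≤ M) {x : ℝ} (hx : 0 < x) {Q L : ℝ}
    (hint : Integrable (fun t => pk x t * ‖u t * v t‖ ^ 2))
    (hQ : ∫ t, pk x t * ‖u t * v t‖ ^ 2 ≤ Q)
    (hL : L ≤ ∫ t, pk x t * Real.log (max ‖u t‖ (1 / M))) :
    ∫ t, pk x t * Real.log (max ‖v t‖ 1) ≤ 2 + Q - L := by
  have hM0 : 0 < M := by linarith
  have h0 : Integrable (fun t : ℝ => pk x t) := by simpa using integrable_pk hx 0
  have hi1 : ∫ t : ℝ, pk x t = 1 := by simpa using integral_pk hx 0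
  have hc1 : Continuous (fun t => Real.log (max ‖u t‖ (1 / M))) := by
    refine Continuous.log (hu.norm.max continuous_const) ?_
    intro t
    have : 0 < max ‖u t‖ (1 / M) := lt_of_lt_of_le (by positivity) (le_max_right _ _)
    exact this.ne'
  have hc2 : Continuous (fun t => Real.log (max ‖v t‖ 1)) := by
    refine Continuous.log (hv.norm.max continuous_const) ?_
    intro t
    have : (0 : ℝ) < max ‖v t‖ 1 := lt_of_lt_of_le (by positivity) (le_max_right _ _)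
    exact this.ne'
  have hb1 : ∀ t, |Real.log (max ‖u t‖ (1 / M))| ≤ Real.log M := by
    intro t
    rw [abs_le]
    constructor
    · rw [← Real.log_inv, ← one_div]
      exact Real.log_le_log (by positivity) (le_max_right _ _)
    · have h2 : max ‖u t‖ (1 / M) ≤ 1 := max_le (hu1 t) (by rw [div_le_one hM0]; exact hM)
      have h3 : 0 < max ‖u t‖ (1 / M) := lt_of_lt_of_le (by positivity) (le_max_right _ _)
      exact (Real.log_nonpos h3.le h2).trans (Real.log_nonneg hM)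
  have hb2 : ∀ t, |Real.log (max ‖v t‖ 1)| ≤ Real.log M := by
    intro t
    rw [abs_of_nonneg (Real.log_nonneg (le_max_right _ _))]
    exact Real.log_le_log (lt_of_lt_of_le one_pos (le_max_right _ _)) (max_le (hvM t) hM)
  have hI1 := integrable_pk_mul hx hc1 hb1
  have hI2 := integrable_pk_mul hx hc2 hb2
  have hI3 : Integrable (fun t => pk x t * 2 + pk x t * ‖u t * v t‖ ^ 2 -
      pk x t * Real.log (max ‖u t‖ (1 / M))) := ((h0.mul_const 2).add hint).sub hI1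
  have hle : ∫ t, pk x t * Real.log (max ‖v t‖ 1) ≤ ∫ t, (pk x t * 2 +
      pk x t * ‖u t * v t‖ ^ 2 - pk x t * Real.log (max ‖u t‖ (1 / M))) := by
    refine integral_mono hI2 hI3 ?_
    intro t
    have h1 := log_pointwise (norm_nonneg (u t)) (hu1 t) (norm_nonneg (v t)) (hvM t) hM
    have h2 := mul_le_mul_of_nonneg_left h1 (pk_nonneg hx.le t)
    simp only [norm_mul]
    calc pk x t * Real.log (max ‖v t‖ 1) ≤ _ := h2
      _ = _ := by ring
  have hI4 : Integrable (fun t => pk x t * 2 + pk x t * ‖u t * v t‖ ^ 2) :=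
    (h0.mul_const 2).add hint
  have e1 : ∫ t, (pk x t * 2 + pk x t * ‖u t * v t‖ ^ 2 -
      pk x t * Real.log (max ‖u t‖ (1 / M))) = 2 + (∫ t, pk x t * ‖u t * v t‖ ^ 2) -
      ∫ t, pk x t * Real.log (max ‖u t‖ (1 / M)) := by
    rw [integral_sub hI4 hI1, integral_add (h0.mul_const 2) hint,
      integral_mul_const, hi1, one_mul]
  rw [e1] at hle
  linarith

section cut

variable {η p : ℝ → ℝ} {f g : ℝ → ℂ}

lemma cut_bound (hsub : ∀ x : ℝ, 0 < x → ∀ y : ℝ, 0 ≤ y → η x + p x * (y - x) ≤ η y)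
    (hf0 : ∀ x : ℝ, x ≤ 0 → f x = 0) {σ τ : ℝ} (hτ : σ ≤ τ) (x : ℝ) :
    ‖{x : ℝ | p x < σ}.indicator f x * cexp (-((τ : ℂ) * (x : ℂ)))‖ ≤
      (‖f x‖ * Real.exp (-η x)) * Real.exp (η 0) := by
  rcases le_or_gt x 0 with hx | hx
  · have : {x : ℝ | p x < σ}.indicator f x = 0 := by
      rw [indicator_apply]; split_ifs
      · exact hf0 x hx
      · rfl
    rw [this, zero_mul, norm_zero]; positivity
  · by_cases hpx : p x < σ
    · rw [indicator_of_mem (by exact hpx), norm_mul, Complex.norm_exp]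
      have h1 : (-((τ : ℂ) * (x : ℂ))).re = -(τ * x) := by simp
      rw [h1, mul_assoc, ← Real.exp_add]
      refine mul_le_mul_of_nonneg_left (Real.exp_le_exp.mpr ?_) (norm_nonneg _)
      have h2 := hsub x hx 0 le_rfl
      have h3 : p x * x ≤ τ * x := mul_le_mul_of_nonneg_right (hpx.le.trans hτ) hx.le
      nlinarith
    · rw [indicator_of_notMem (by exact hpx), zero_mul, norm_zero]; positivity

lemma cut_integrable (hp : Measurable p)
    (hsub : ∀ x : ℝ, 0 < x → ∀ y : ℝ, 0 ≤ y → η x + p x * (y - x) ≤ η y)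
    (hfm : Measurable f) (hf0 : ∀ x : ℝ, x ≤ 0 → f x = 0)
    (hρ : Integrable (fun x => ‖f x‖ * Real.exp (-η x))) {σ τ : ℝ} (hτ : σ ≤ τ) :
    Integrable (fun x : ℝ => {x : ℝ | p x < σ}.indicator f x * cexp (-((τ : ℂ) * (x : ℂ)))) := by
  refine (hρ.mul_const (Real.exp (η 0))).mono' ?_ ?_
  · refine ((hfm.indicator (measurableSet_lt hp measurable_const)).mul ?_).aestronglyMeasurable
    exact (by fun_prop : Continuous (fun x : ℝ => cexp (-((τ : ℂ) * (x : ℂ))))).measurable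
  · filter_upwards with x using cut_bound hsub hf0 hτ x

lemma cut_norm_le (hp : Measurable p)
    (hsub : ∀ x : ℝ, 0 < x → ∀ y : ℝ, 0 ≤ y → η x + p x * (y - x) ≤ η y)
    (hfm : Measurable f) (hf0 : ∀ x : ℝ, x ≤ 0 → f x = 0)
    (hρ : Integrable (fun x => ‖f x‖ * Real.exp (-η x)))
    (hnorm : (∫ x, ‖f x‖ * Real.exp (-η x)) * Real.exp (η 0) ≤ 1) (σ : ℝ) :
    ∫ x : ℝ, ‖{x : ℝ | p x < σ}.indicator f x * cexp (-((σ : ℂ) * (x : ℂ)))‖ ≤ 1 := by
  refine le_trans ?_ hnorm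
  rw [← integral_mul_const]
  exact integral_mono (cut_integrable hp hsub hfm hf0 hρ le_rfl).norm
    (hρ.mul_const _) (fun x => cut_bound hsub hf0 le_rfl x)

lemma compare (hp : Measurable p) (hmono : MonotoneOn p (Ioi 0))
    (hsub : ∀ x : ℝ, 0 < x → ∀ y : ℝ, 0 ≤ y → η x + p x * (y - x) ≤ η y)
    (hfm : Measurable f) (hf0 : ∀ x : ℝ, x ≤ 0 → f x = 0)
    (hρ : Integrable (fun x => ‖f x‖ * Real.exp (-η x))) {σ τ : ℝ} (hτ : σ ≤ τ)
    (hp1 : p 1 < σ) (hfi : IntegrableOn f (Ioc 0 1)) (hτ0 : 0 ≤ τ) :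
    ‖∫ x in Ioc (0 : ℝ) 1, f x * cexp (-((τ : ℂ) * (x : ℂ)))‖ ≤
      ‖∫ x : ℝ, {x : ℝ | p x < σ}.indicator f x * cexp (-((τ : ℂ) * (x : ℂ)))‖ +
        (∫ x, ‖f x‖ * Real.exp (-η x)) * Real.exp (η 1 - τ) := by
  have hI1 := cut_integrable hp hsub hfm hf0 hρ hτ
  have hI2 : IntegrableOn (fun x : ℝ => f x * cexp (-((τ : ℂ) * (x : ℂ)))) (Ioc 0 1) := by
    refine hfi.mul_bdd (c := 1) ?_ ?_
    · exact (by fun_prop : Continuous (fun x : ℝ =>
        cexp (-((τ : ℂ) * (x : ℂ))))).aestronglyMeasurable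
    · refine (ae_restrict_iff' measurableSet_Ioc).mpr ?_
      filter_upwards with x hx
      rw [Complex.norm_exp]
      have h1 : (-((τ : ℂ) * (x : ℂ))).re = -(τ * x) := by simp
      rw [h1, Real.exp_le_one_iff]
      have := mul_nonneg hτ0 hx.1.le
      linarith
  rw [← integral_indicator measurableSet_Ioc] at *
  rw [← integrable_indicator_iff measurableSet_Ioc] at hI2
  have e : ∫ x, (Ioc (0 : ℝ) 1).indicator (fun x : ℝ => f x * cexp (-((τ : ℂ) * (x : ℂ)))) x =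
      (∫ x : ℝ, {x : ℝ | p x < σ}.indicator f x * cexp (-((τ : ℂ) * (x : ℂ)))) -
      ∫ x : ℝ, ({x : ℝ | p x < σ}.indicator f x * cexp (-((τ : ℂ) * (x : ℂ))) -
        (Ioc (0 : ℝ) 1).indicator (fun x : ℝ => f x * cexp (-((τ : ℂ) * (x : ℂ)))) x) := by
    rw [integral_sub hI1 hI2]; ring
  rw [e]
  refine (norm_sub_le _ _).trans ?_
  gcongr
  rw [← integral_mul_const]
  refine norm_integral_le_of_norm_le (hρ.mul_const _) ?_
  filter_upwards with x
  rcases le_or_gt x 0 with hx | hx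
  · have h1 : {x : ℝ | p x < σ}.indicator f x = 0 := by
      rw [indicator_apply]; split_ifs
      · exact hf0 x hx
      · rfl
    rw [h1, indicator_of_notMem (by intro h; exact absurd h.1 (not_lt.mpr hx))]
    simp only [zero_mul, sub_zero, norm_zero]; positivity
  rcases le_or_gt x 1 with hx1 | hx1
  · have hpx : p x < σ := lt_of_le_of_lt (hmono hx (by norm_num : (0:ℝ) < 1) hx1) hp1
    have hmem : x ∈ Ioc (0 : ℝ) 1 := ⟨hx, hx1⟩
    rw [indicator_of_mem (by exact hpx), indicator_of_mem hmem]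
    simp only [sub_self, norm_zero]; positivity
  · rw [indicator_of_notMem (by intro h; exact absurd h.2 (not_le.mpr hx1) : x ∉ Ioc (0:ℝ) 1),
      sub_zero]
    by_cases hpx : p x < σ
    · rw [indicator_of_mem (by exact hpx), norm_mul, Complex.norm_exp]
      have h1 : (-((τ : ℂ) * (x : ℂ))).re = -(τ * x) := by simp
      rw [h1, mul_assoc, ← Real.exp_add]
      refine mul_le_mul_of_nonneg_left (Real.exp_le_exp.mpr ?_) (norm_nonneg _)
      have h2 := hsub x hx 1 zero_le_one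
      have h3 : p x * (x - 1) ≤ τ * (x - 1) :=
        mul_le_mul_of_nonneg_right (hpx.le.trans hτ) (by linarith)
      nlinarith
    · rw [indicator_of_notMem (by exact hpx), zero_mul, norm_zero]; positivity

lemma intOn_one (hmono : MonotoneOn p (Ioi 0))
    (hsub : ∀ x : ℝ, 0 < x → ∀ y : ℝ, 0 ≤ y → η x + p x * (y - x) ≤ η y)
    (hfm : Measurable f)
    (hρ : Integrable (fun x => ‖f x‖ * Real.exp (-η x))) : IntegrableOn f (Ioc 0 1) := by
  refine Integrable.mono' ((hρ.mul_const (Real.exp (η 0 + |p 1|))).integrableOn (s := Ioc 0 1))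
    hfm.aestronglyMeasurable ?_
  refine (ae_restrict_iff' measurableSet_Ioc).mpr ?_
  filter_upwards with x hx
  rw [mul_assoc, ← Real.exp_add]
  have h1 : η x ≤ η 0 + |p 1| := by
    have h2 := hsub x hx.1 0 le_rfl
    have h3 : p x ≤ |p 1| := (hmono hx.1 (by norm_num : (0:ℝ) < 1) hx.2).trans (le_abs_self _)
    have h4 : p x * x ≤ |p 1| * 1 :=
      mul_le_mul h3 hx.2 hx.1.le (abs_nonneg _)
    nlinarith
  have h5 : 1 ≤ Real.exp (-η x + (η 0 + |p 1|)) := by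
    rw [Real.one_le_exp_iff]; linarith
  nlinarith [norm_nonneg (f x)]

/-- the growth estimate on a sequence of radii -/
lemma growth (hη : ContinuousOn η (Ici 0)) (hconv : ConvexOn ℝ (Ici 0) η)
    (hlim : Tendsto (fun x => η x / x) atTop atTop)
    (hp : Measurable p) (hmono : MonotoneOn p (Ioi 0))
    (hsub : ∀ x : ℝ, 0 < x → ∀ y : ℝ, 0 ≤ y → η x + p x * (y - x) ≤ η y)
    (hfm : Measurable f) (hgm : Measurable g)
    (hf0 : ∀ x : ℝ, x ≤ 0 → f x = 0) (hg0 : ∀ y : ℝ, y < 0 → g y = 0)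
    (hg : ∀ y : ℝ, 0 ≤ y → ‖g y‖ ≤ Real.exp (-η y))
    (hρ : Integrable (fun x => ‖f x‖ * Real.exp (-η x)))
    (hnorm : (∫ x, ‖f x‖ * Real.exp (-η x)) * Real.exp (η 0) ≤ 1)
    (hne : ∀ ε : ℝ, 0 < ε → ¬ ∀ᵐ x : ℝ, x ∈ Ioc 0 ε → f x = 0)
    (hfg : ∀ᵐ a : ℝ, 0 ≤ a → ∫ x : ℝ, f x * g (x + a) = 0)
    {ε : ℝ} (hε : 0 < ε) (S : ℝ) :
    ∃ R : ℝ, S ≤ R ∧ ∀ s : ℂ, ‖s‖ ≤ R →
      ‖∫ y : ℝ, g y * cexp (s * (y : ℂ))‖ ≤ Real.exp (ε * R) := by
  obtain ⟨hGint, hGdiff, hGbd, -⟩ := laplace_g hη hlim hgm hg0 hg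
  set G : ℂ → ℂ := fun s => ∫ y : ℝ, g y * cexp (s * (y : ℂ)) with hG
  set ρ : ℝ → ℝ := fun x => ‖f x‖ * Real.exp (-η x) with hρdef
  have hρ0 : ∀ x, 0 ≤ ρ x := fun x => by simp only [hρdef]; positivity
  set M₀ : ℝ := ∫ x, ρ x with hM₀
  have hM₀0 : 0 ≤ M₀ := integral_nonneg hρ0
  set δ : ℝ := min (ε / 64) (1 / 2) with hδ
  have hδ0 : 0 < δ := lt_min (by positivity) (by norm_num)
  have hδ1 : δ ≤ ε / 64 := min_le_left _ _
  have hδ2 : δ ≤ 1 / 2 := min_le_right _ _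
  have hfi : IntegrableOn f (Ioc 0 1) := intOn_one hmono hsub hfm hρ
  -- the base point
  obtain ⟨τ, hτS, hτ⟩ := exists_large hfi hδ0 (by linarith) (hne δ hδ0)
    (max (4 * S) (max 12 (max (4 * M₀ * Real.exp (η 1)) (max (2 * p 1 + 2)
      (64 * (2 + 18 * M₀ ^ 2 + Real.log 2) / ε)))))
  have hτ1 : 4 * S ≤ τ := (le_max_left _ _).trans hτS
  have hτS2 := (le_max_right _ _).trans hτS
  have hτ2 : 12 ≤ τ := (le_max_left _ _).trans hτS2
  have hτS3 := (le_max_right _ _).trans hτS2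
  have hτ3 : 4 * M₀ * Real.exp (η 1) ≤ τ := (le_max_left _ _).trans hτS3
  have hτS4 := (le_max_right _ _).trans hτS3
  have hτ4 : 2 * p 1 + 2 ≤ τ := (le_max_left _ _).trans hτS4
  have hτ5 : 64 * (2 + 18 * M₀ ^ 2 + Real.log 2) / ε ≤ τ := (le_max_right _ _).trans hτS4
  -- the line
  set n : ℝ := τ / 2 with hn
  obtain ⟨σ, ⟨hσ1, hσ2⟩, hσne, hσint, hσle⟩ := exists_sigma hρ hρ0 hp n
  set x : ℝ := τ - σ with hx
  have hx1 : n - 1 ≤ x := by simp only [hx, hn] at *; linarith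
  have hx2 : x ≤ n := by simp only [hx, hn] at *; linarith
  have hn6 : 6 ≤ n := by simp only [hn]; linarith
  have hx0 : 0 < x := by linarith
  have hστ : σ ≤ τ := by simp only [hx] at hx0; linarith
  have hp1 : p 1 < σ := by simp only [hn] at hσ1; linarith
  set F : ℂ → ℂ := fun s => ∫ x : ℝ, {x : ℝ | p x < σ}.indicator f x * cexp (-(s * (x : ℂ)))
    with hF
  have hcut0 : ∀ x : ℝ, x ≤ 0 → {x : ℝ | p x < σ}.indicator f x = 0 := by
    intro x hx
    rw [indicator_apply]; split_ifs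
    · exact hf0 x hx
    · rfl
  obtain ⟨hFd, hFb⟩ := laplace_f hcut0 (cut_integrable hp hsub hfm hf0 hρ (le_refl σ))
  have hF1 : ∀ s : ℂ, σ ≤ s.re → ‖F s‖ ≤ 1 := fun s hs =>
    (hFb s hs).trans (cut_norm_le hp hsub hfm hf0 hρ hnorm σ)
  -- product formula
  obtain ⟨hXint, hprod⟩ := product_formula (f := {x : ℝ | p x < σ}.indicator f) (g := g) σ
    (cut_integrable hp hsub hfm hf0 hρ (le_refl σ)) (hGint σ)
  set X : ℝ → ℂ := fun a => cexp ((σ : ℂ) * (a : ℂ)) *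
    ∫ x : ℝ, {x : ℝ | p x < σ}.indicator f x * g (x + a) with hX
  have hXb : ∀ᵐ a : ℝ, ‖X a‖ ≤ ∫ x, ρ x * Real.exp (-(|a| * |p x - σ|)) := by
    filter_upwards [hfg] with a ha
    exact X_bound hconv hp hsub hfm hgm hf0 hg0 hg hρ ha
  obtain ⟨hX2, hX2le⟩ := X_l2 hρ hρ0 hp hσne hσint hXint.aestronglyMeasurable hXb
  have hX2le' : ∫ a : ℝ, ‖X a‖ ^ 2 ≤ 9 * M₀ ^ 2 := by
    refine hX2le.trans ?_
    have h0 : 0 ≤ ∫ x, ρ x / Real.sqrt |p x - σ| :=
      integral_nonneg (fun x => div_nonneg (hρ0 x) (Real.sqrt_nonneg _))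
    calc (∫ x, ρ x / Real.sqrt |p x - σ|) ^ 2 ≤ (3 * M₀) ^ 2 := pow_le_pow_left₀ h0 hσle 2
      _ = 9 * M₀ ^ 2 := by ring
  obtain ⟨hK1, hK2⟩ := l2_bound hXint hX2 hx0
  have hFG : ∀ t : ℝ, ∫ a : ℝ, X a * cexp ((t : ℂ) * (a : ℂ) * I) =
      F ((σ : ℂ) + (t : ℂ) * I) * G ((σ : ℂ) + (t : ℂ) * I) := fun t => (hprod t).symm
  simp only [hFG] at hK1 hK2
  have hK3 : ∫ t : ℝ, pk x t * ‖F ((σ : ℂ) + (t : ℂ) * I) * G ((σ : ℂ) + (t : ℂ) * I)‖ ^ 2 ≤
      18 * M₀ ^ 2 := by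
    refine hK2.trans ?_
    have h1 : 2 / x ≤ 2 := by
      rw [div_le_iff₀ hx0]; linarith
    calc 2 / x * ∫ a : ℝ, ‖X a‖ ^ 2 ≤ 2 * (9 * M₀ ^ 2) :=
          mul_le_mul h1 hX2le' (integral_nonneg (fun a => by positivity)) (by norm_num)
      _ = 18 * M₀ ^ 2 := by ring
  -- bound of G on the left half plane
  obtain ⟨M', hM'⟩ := hGbd σ
  set M : ℝ := max M' 1 with hM
  have hM1 : 1 ≤ M := le_max_right _ _
  have hGM : ∀ s : ℂ, s.re ≤ σ → ‖G s‖ ≤ M := fun s hs => (hM' s hs).trans (le_max_left _ _)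
  -- Jensen for F
  have hJ := halfPlane_jensen hFd hF1 (δ := 1 / M) (by positivity) hx0 0
  have hτeq : ((σ + x : ℝ) : ℂ) + ((0 : ℝ) : ℂ) * I = (τ : ℂ) := by
    simp only [hx]; push_cast; ring
  rw [hτeq] at hJ
  simp only [sub_zero] at hJ
  -- lower bound of F at the base point
  have hFτ : Real.exp (-(δ * τ)) / 2 ≤ ‖F (τ : ℂ)‖ := by
    have hc := compare hp hmono hsub hfm hf0 hρ hστ hp1 hfi (by linarith)
    have h1 : M₀ * Real.exp (η 1 - τ) ≤ Real.exp (-(δ * τ)) / 2 := by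
      have h2 : 2 * (M₀ * Real.exp (η 1)) ≤ Real.exp (τ / 2) := by
        have := Real.add_one_le_exp (τ / 2)
        linarith
      have h3 : Real.exp (η 1 - τ) = Real.exp (η 1) * Real.exp (-τ) := by
        rw [← Real.exp_add]; ring_nf
      have h4 : Real.exp (τ / 2) * Real.exp (-τ) ≤ Real.exp (-(δ * τ)) := by
        rw [← Real.exp_add, Real.exp_le_exp]
        nlinarith
      rw [h3]
      have h5 := mul_le_mul_of_nonneg_right h2 (Real.exp_pos (-τ)).le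
      nlinarith
    have h6 := hτ.trans hc
    linarith
  have hL : -(Real.log 2) - δ * τ ≤ Real.log (max ‖F (τ : ℂ)‖ (1 / M)) := by
    have h1 : Real.log (Real.exp (-(δ * τ)) / 2) = -(Real.log 2) - δ * τ := by
      rw [Real.log_div (Real.exp_pos _).ne' (by norm_num), Real.log_exp]; ring
    rw [← h1]
    exact Real.log_le_log (by positivity) (hFτ.trans (le_max_left _ _))
  have hline : Continuous (fun t : ℝ => (σ : ℂ) + (t : ℂ) * I) := by fun_prop
  have hGc : Continuous (fun t : ℝ => G ((σ : ℂ) + (t : ℂ) * I)) := hGdiff.continuous.comp hline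
  have hFc : Continuous (fun t : ℝ => F ((σ : ℂ) + (t : ℂ) * I)) := by
    refine hFd.continuousOn.comp_continuous hline ?_
    intro t
    rw [Complex.closure_setOfPred_lt_re]
    simp
  have hlog := log_integral (u := fun t : ℝ => F ((σ : ℂ) + (t : ℂ) * I))
    (v := fun t : ℝ => G ((σ : ℂ) + (t : ℂ) * I)) hFc hGc hM1
    (fun t => hF1 _ (by simp)) (fun t => hGM _ (by simp)) hx0 hK1 hK3 (hL.trans hJ)
  -- conclusion
  refine ⟨n / 2, ?_, ?_⟩
  · simp only [hn]; linarith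
  intro s hs
  have hsre : s.re < σ := by
    have := (Complex.re_le_norm s).trans hs
    linarith
  have h1 := halfPlane_jensen_left hGdiff hGM hsre
  have hc2 : Continuous (fun t : ℝ => Real.log (max ‖G ((σ : ℂ) + (t : ℂ) * I)‖ 1)) := by
    refine Continuous.log (hGc.norm.max continuous_const) ?_
    intro t
    have : (0 : ℝ) < max ‖G ((σ : ℂ) + (t : ℂ) * I)‖ 1 :=
      lt_of_lt_of_le (by positivity) (le_max_right _ _)
    exact this.ne'
  have hb2 : ∀ t : ℝ, |Real.log (max ‖G ((σ : ℂ) + (t : ℂ) * I)‖ 1)| ≤ Real.log M := by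
    intro t
    rw [abs_of_nonneg (Real.log_nonneg (le_max_right _ _))]
    exact Real.log_le_log (lt_of_lt_of_le one_pos (le_max_right _ _))
      (max_le (hGM _ (by simp)) hM1)
  have h2 : ∫ t : ℝ, pk (σ - s.re) (t - s.im) *
      Real.log (max ‖G ((σ : ℂ) + (t : ℂ) * I)‖ 1) ≤
      ∫ t : ℝ, 8 * (pk x t * Real.log (max ‖G ((σ : ℂ) + (t : ℂ) * I)‖ 1)) := by
    refine integral_mono ?_ ((integrable_pk_mul hx0 hc2 hb2).const_mul 8) ?_
    · refine (integrable_pk (by linarith : 0 < σ - s.re) s.im).mul_bdd (c := Real.log M)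
        hc2.aestronglyMeasurable ?_
      filter_upwards with t using by simpa using hb2 t
    · intro t
      have h3 := kernel_le (t := t) hn6 hσ1 hσ2 hx1 hx2 hs
      have h4 : 0 ≤ Real.log (max ‖G ((σ : ℂ) + (t : ℂ) * I)‖ 1) :=
        Real.log_nonneg (le_max_right _ _)
      calc pk (σ - s.re) (t - s.im) * Real.log (max ‖G ((σ : ℂ) + (t : ℂ) * I)‖ 1) ≤
            (8 * pk x t) * Real.log (max ‖G ((σ : ℂ) + (t : ℂ) * I)‖ 1) :=
            mul_le_mul_of_nonneg_right h3 h4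
        _ = _ := by ring
  rw [integral_const_mul] at h2
  have h5 : Real.log (max ‖G s‖ 1) ≤ ε * (n / 2) := by
    have h6 : 64 * (2 + 18 * M₀ ^ 2 + Real.log 2) ≤ ε * τ := by
      rw [div_le_iff₀ hε] at hτ5
      linarith
    have h7 : δ * τ ≤ ε / 64 * τ := mul_le_mul_of_nonneg_right hδ1 (by linarith)
    simp only [hn]
    linarith
  calc ‖G s‖ ≤ max ‖G s‖ 1 := le_max_left _ _
    _ = Real.exp (Real.log (max ‖G s‖ 1)) :=
        (Real.exp_log (lt_of_lt_of_le one_pos (le_max_right _ _))).symm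
    _ ≤ Real.exp (ε * (n / 2)) := Real.exp_le_exp.mpr h5

end cut

theorem main_normalised {η p : ℝ → ℝ} (hη : ContinuousOn η (Ici 0))
    (hconv : ConvexOn ℝ (Ici 0) η)
    (hlim : Tendsto (fun x => η x / x) atTop atTop)
    (hp : Measurable p) (hmono : MonotoneOn p (Ioi 0))
    (hsub : ∀ x : ℝ, 0 < x → ∀ y : ℝ, 0 ≤ y → η x + p x * (y - x) ≤ η y)
    {f g : ℝ → ℂ} (hfm : Measurable f) (hgm : Measurable g)
    (hf0 : ∀ x : ℝ, x ≤ 0 → f x = 0) (hg0 : ∀ y : ℝ, y < 0 → g y = 0)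
    (hg : ∀ y : ℝ, 0 ≤ y → ‖g y‖ ≤ Real.exp (-η y))
    (hρ : Integrable (fun x => ‖f x‖ * Real.exp (-η x)))
    (hnorm : (∫ x, ‖f x‖ * Real.exp (-η x)) * Real.exp (η 0) ≤ 1)
    (hne : ∀ ε : ℝ, 0 < ε → ¬ ∀ᵐ x : ℝ, x ∈ Ioc 0 ε → f x = 0)
    (hfg : ∀ᵐ a : ℝ, 0 ≤ a → ∫ x : ℝ, f x * g (x + a) = 0) : g =ᵐ[volume] 0 := by
  obtain ⟨hGint, hGdiff, hGbd, hGlim⟩ := laplace_g hη hlim hgm hg0 hg
  obtain ⟨C, hC⟩ := hGbd 0
  have hb := seqPL hGdiff hC (fun ε hε S => growth hη hconv hlim hp hmono hsub hfm hgm hf0 hg0 hg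
    hρ hnorm hne hfg hε S)
  have hbd : Bornology.IsBounded (Set.range (fun s : ℂ => ∫ y : ℝ, g y * cexp (s * (y : ℂ)))) := by
    rw [isBounded_iff_forall_norm_le]
    refine ⟨max C 1, ?_⟩
    rintro _ ⟨s, rfl⟩
    exact hb s
  have hconst : ∀ s : ℂ, ∫ y : ℝ, g y * cexp (s * (y : ℂ)) = 0 := by
    intro s
    have h1 : ∀ σ : ℝ, ∫ y : ℝ, g y * cexp ((σ : ℂ) * (y : ℂ)) =
        ∫ y : ℝ, g y * cexp (s * (y : ℂ)) := fun σ =>
      hGdiff.apply_eq_apply_of_bounded hbd (σ : ℂ) s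
    simp only [h1] at hGlim
    exact (tendsto_nhds_unique hGlim tendsto_const_nhds).symm
  refine ae_zero_of_fourier_zero ?_ ?_
  · simpa using hGint 0
  · intro t
    have := hconst ((t : ℂ) * I)
    rw [← this]
    congr 1
    ext y
    ring_nf

end MP_c588fa_an
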