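import Pool.Agent.Lib_MP_c588fa_an.Subgrad
import Pool.Agent.Lib_MP_c588fa_an.Main

set_option autoImplicit false
open MeasureTheory Filter Set Complex

namespace MP_c588fa_an

theorem main_theorem {η : ℝ → ℝ} (hη : ContinuousOn η (Ici 0)) (hconv : ConvexOn ℝ (Ici 0) η)
    (hlim : Tendsto (fun x => η x / x) atTop atTop)
    {f g : ℝ → ℂ} (hfm : AEStronglyMeasurable f (volume.restrict (Ioi 0)))
    (hgm : AEStronglyMeasurable g (volume.restrict (Ioi 0)))
    {C : ℝ} (hg : ∀ᵐ y : ℝ, 0 < y → ‖g y‖ ≤ C * Real.exp (-η y))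
    (hρ : IntegrableOn (fun x => ‖f x‖ * Real.exp (-η x)) (Ioi 0))
    (hne : ∀ ε : ℝ, 0 < ε → ¬ ∀ᵐ x : ℝ, x ∈ Ioc 0 ε → f x = 0)
    (hfg : ∀ᵐ a : ℝ, 0 ≤ a → ∫ x in Ioi (0 : ℝ), f x * g (x + a) = 0) :
    ∀ᵐ y : ℝ, 0 < y → g y = 0 := by
  obtain ⟨p, hp, hmono, hsub⟩ := exists_subgradient hconv
  set F : ℝ → ℂ := hfm.mk f with hF
  have hFm : Measurable F := hfm.stronglyMeasurable_mk.measurable
  set G : ℝ → ℂ := hgm.mk g with hG
  have hGm : Measurable G := hgm.stronglyMeasurable_mk.measurable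
  have hfF : ∀ᵐ x : ℝ, 0 < x → f x = F x := (ae_restrict_iff' measurableSet_Ioi).mp hfm.ae_eq_mk
  have hgG : ∀ᵐ x : ℝ, 0 < x → g x = G x := (ae_restrict_iff' measurableSet_Ioi).mp hgm.ae_eq_mk
  -- a continuous extension of `η`
  set ηt : ℝ → ℝ := fun y => η (max y 0) with hηt
  have hηtc : Continuous ηt := by
    rw [hηt]
    exact hη.comp_continuous (by fun_prop) (fun y => le_max_right y 0)
  set C' : ℝ := max C 1 with hC'
  have hC'pos : 0 < C' := lt_of_lt_of_le one_pos (le_max_right C 1)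
  set A : Set ℝ := {y | 0 ≤ y} ∩ {y | ‖G y‖ ≤ C' * Real.exp (-ηt y)} with hA
  have hAm : MeasurableSet A :=
    measurableSet_Ici.inter (measurableSet_le hGm.norm (by fun_prop))
  set g' : ℝ → ℂ := A.indicator (fun y => G y / (C' : ℂ)) with hg'
  have hg'm : Measurable g' := (hGm.div_const _).indicator hAm
  have hAae : ∀ᵐ y : ℝ, 0 < y → y ∈ A := by
    filter_upwards [hg, hgG] with y h1 h2 hy
    refine ⟨hy.le, ?_⟩
    show ‖G y‖ ≤ C' * Real.exp (-ηt y)
    rw [← h2 hy, hηt]
    simp only [max_eq_left hy.le]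
    exact (h1 hy).trans (mul_le_mul_of_nonneg_right (le_max_left C 1) (Real.exp_pos _).le)
  -- the function `f'`
  set J : ℝ := (∫ x in Ioi (0 : ℝ), ‖F x‖ * Real.exp (-η x)) * Real.exp (η 0) with hJ
  have hJ0 : 0 ≤ J := mul_nonneg (integral_nonneg fun x => by positivity) (Real.exp_pos _).le
  set c : ℝ := 1 / (J + 1) with hc
  have hcpos : 0 < c := by rw [hc]; positivity
  set f' : ℝ → ℂ := (Ioi (0 : ℝ)).indicator (fun x => (c : ℂ) * F x) with hf'
  have hf'm : Measurable f' := (hFm.const_mul _).indicator measurableSet_Ioi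
  have hf'e : (fun x => ‖f' x‖ * Real.exp (-η x)) =
      (Ioi (0 : ℝ)).indicator (fun x => c * (‖F x‖ * Real.exp (-η x))) := by
    funext x
    by_cases hx : x ∈ Ioi (0 : ℝ)
    · rw [hf', indicator_of_mem hx, indicator_of_mem hx, norm_mul, Complex.norm_real,
        Real.norm_of_nonneg hcpos.le, mul_assoc]
    · rw [hf', indicator_of_notMem hx, indicator_of_notMem hx, norm_zero, zero_mul]
  have hρF : IntegrableOn (fun x => ‖F x‖ * Real.exp (-η x)) (Ioi 0) := by
    refine hρ.congr ?_
    rw [EventuallyEq, ae_restrict_iff' measurableSet_Ioi]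
    filter_upwards [hfF] with x hx hx0
    rw [hx hx0]
  have hρ' : Integrable (fun x => ‖f' x‖ * Real.exp (-η x)) := by
    rw [hf'e, integrable_indicator_iff measurableSet_Ioi]
    exact hρF.const_mul c
  have hnorm : (∫ x, ‖f' x‖ * Real.exp (-η x)) * Real.exp (η 0) ≤ 1 := by
    rw [hf'e, integral_indicator measurableSet_Ioi, integral_const_mul, mul_assoc, ← hJ, hc,
      one_div, inv_mul_eq_div, div_le_one (by positivity)]
    linarith
  have hmain : g' =ᵐ[volume] 0 := by
    refine main_normalised hη hconv hlim hp hmono hsub hf'm hg'm ?_ ?_ ?_ hρ' hnorm ?_ ?_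
    · intro x hx
      rw [hf', indicator_of_notMem]
      simpa using hx
    · intro y hy
      rw [hg', indicator_of_notMem]
      exact fun h => absurd h.1 (not_le.mpr hy)
    · intro y hy
      by_cases hyA : y ∈ A
      · rw [hg', indicator_of_mem hyA, norm_div, Complex.norm_real,
          Real.norm_of_nonneg hC'pos.le, div_le_iff₀ hC'pos]
        have h1 : ‖G y‖ ≤ C' * Real.exp (-ηt y) := hyA.2
        rw [hηt] at h1
        simp only [max_eq_left hy] at h1
        linarith
      · rw [hg', indicator_of_notMem hyA, norm_zero]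
        exact (Real.exp_pos _).le
    · intro ε hε h
      apply hne ε hε
      filter_upwards [h, hfF] with x hx hx' hxε
      have hx0 : 0 < x := hxε.1
      have h1 := hx hxε
      rw [hf', indicator_of_mem (show x ∈ Ioi (0 : ℝ) from hx0)] at h1
      rw [hx' hx0]
      rcases mul_eq_zero.mp h1 with h2 | h2
      · exact absurd (Complex.ofReal_eq_zero.mp h2) hcpos.ne'
      · exact h2
    · filter_upwards [hfg] with a ha ha0
      have h1 : ∀ᵐ x : ℝ, 0 < x + a → (x + a ∈ A ∧ g (x + a) = G (x + a)) := by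
        have h2 : ∀ᵐ y : ℝ, 0 < y → (y ∈ A ∧ g y = G y) := by
          filter_upwards [hAae, hgG] with y h3 h4 hy
          exact ⟨h3 hy, h4 hy⟩
        exact (measurePreserving_add_right volume a).quasiMeasurePreserving.ae h2
      have h2 : (fun x => f' x * g' (x + a)) =ᵐ[volume]
          (Ioi (0 : ℝ)).indicator (fun x => ((c : ℂ) / (C' : ℂ)) * (f x * g (x + a))) := by
        filter_upwards [h1, hfF] with x h3 h4
        by_cases hx : x ∈ Ioi (0 : ℝ)
        · have hx0 : 0 < x := hx
          obtain ⟨h5, h6⟩ := h3 (by linarith)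
          rw [hf', indicator_of_mem hx, indicator_of_mem hx, hg', indicator_of_mem h5, h4 hx0, h6]
          ring
        · rw [hf', indicator_of_notMem hx, indicator_of_notMem hx, zero_mul]
      rw [integral_congr_ae h2, integral_indicator measurableSet_Ioi, integral_const_mul, ha ha0,
        mul_zero]
  filter_upwards [hmain, hAae, hgG] with y h1 h2 h3 hy
  rw [h3 hy]
  have h4 : g' y = 0 := h1
  rw [hg', indicator_of_mem (h2 hy), div_eq_zero_iff] at h4
  rcases h4 with h4 | h4
  · exact h4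
  · exact absurd (Complex.ofReal_eq_zero.mp h4) hC'pos.ne'

end MP_c588fa_an
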