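import Pool.Agent.Lib_MP_c588fa_an.Norm
import Pool.Agent.Lib_MP_c588fa_an.Dual
import Pool.Agent.Lib_MP_c588fa_an.Annih

set_option autoImplicit false
open MeasureTheory Filter Set Complex

namespace MP_c588fa_an

/-- one nonzero element of the ideal, starting at `b`: the dual function vanishes beyond `b` -/
lemma vanish_beyond {w : ℝ → ℝ} (hwc : Continuous w) (hwpos : ∀ x, 0 < w x)
    (hconc : ConcaveOn ℝ (Ici 0) (fun x => Real.log (w x)))
    (hlim : Tendsto (fun x => Real.log (w x) / x) atTop atBot)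
    {f k : ℝ → ℂ} (hfm : Measurable f) (hk : Measurable k) {C : ℝ} (hkC : ∀ x, ‖k x‖ ≤ C)
    (hfi : Integrable (fun x => (w x : ℂ) * f x) (volume.restrict (Ici (0 : ℝ))))
    {b : ℝ} (hb : 0 ≤ b) (hfb : ∀ᵐ x : ℝ, x ∈ Ioo 0 b → f x = 0)
    (hne : ∀ ε : ℝ, 0 < ε → ¬ ∀ᵐ x : ℝ, x ∈ Ioc b (b + ε) → f x = 0)
    (hann : ∀ᵐ a : ℝ, 0 ≤ a →
      ∫ x in Ioi (0 : ℝ), f x * (k (x + a) * (w (x + a) : ℂ)) = 0) :
    ∀ᵐ x : ℝ, b < x → k x = 0 := by
  have hC0 : 0 ≤ C := (norm_nonneg _).trans (hkC 0)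
  have hexp : ∀ x : ℝ, Real.exp (-(-Real.log (w (x + b)))) = w (x + b) := by
    intro x
    rw [neg_neg, Real.exp_log (hwpos _)]
  have main := main_theorem (η := fun x => -Real.log (w (x + b)))
    (f := fun x => f (x + b)) (g := fun x => k (x + b) * (w (x + b) : ℂ)) (C := C)
    ?_ ?_ ?_ ?_ ?_ ?_ ?_ ?_ ?_
  · -- translate back
    have h1 : ∀ᵐ x : ℝ, 0 < x - b → k (x - b + b) * (w (x - b + b) : ℂ) = 0 :=
      (measurePreserving_sub_right volume b).quasiMeasurePreserving.ae main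
    filter_upwards [h1] with x hx hbx
    have h2 := hx (sub_pos.mpr hbx)
    rw [sub_add_cancel] at h2
    rcases mul_eq_zero.mp h2 with h3 | h3
    · exact h3
    · exact absurd (Complex.ofReal_eq_zero.mp h3) (hwpos _).ne'
  · have : Continuous (fun x => -Real.log (w (x + b))) := by
      refine Continuous.neg (Continuous.log (by fun_prop) (fun x => (hwpos _).ne'))
    exact this.continuousOn
  · have h1 : ConvexOn ℝ (Ici 0) (fun x => -Real.log (w x)) := hconc.neg
    refine ⟨convex_Ici 0, ?_⟩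
    intro x hx y hy s t hs ht hst
    have h2 := h1.2 (show x + b ∈ Ici (0:ℝ) from add_nonneg hx hb)
      (show y + b ∈ Ici (0:ℝ) from add_nonneg hy hb) hs ht hst
    have h3 : s • (x + b) + t • (y + b) = s • x + t • y + b := by
      simp only [smul_eq_mul]
      linear_combination b * hst
    rw [h3] at h2
    exact h2
  · rw [tendsto_atTop]
    intro M
    have h1 : ∀ᶠ x in atTop, Real.log (w x) / x ≤ -(max M 0) :=
      hlim.eventually (eventually_le_atBot _)
    have h2 : ∀ᶠ x in atTop, Real.log (w (x + b)) / (x + b) ≤ -(max M 0) :=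
      (tendsto_atTop_add_const_right atTop b tendsto_id).eventually h1
    filter_upwards [h2, eventually_gt_atTop 0] with x hx hx0
    rw [div_le_iff₀ (by linarith)] at hx
    rw [le_div_iff₀ hx0]
    have h3 : M * x ≤ max M 0 * x := mul_le_mul_of_nonneg_right (le_max_left _ _) hx0.le
    have h4 : 0 ≤ max M 0 * b := mul_nonneg (le_max_right _ _) hb
    linarith
  · exact (hfm.comp (measurable_id.add_const b)).aestronglyMeasurable
  · exact ((hk.comp (measurable_id.add_const b)).mul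
      (measurable_ofReal.comp (hwc.measurable.comp (measurable_id.add_const b)))).aestronglyMeasurable
  · refine Eventually.of_forall (fun y _ => ?_)
    rw [hexp, norm_mul, Complex.norm_real, Real.norm_of_nonneg (hwpos _).le]
    exact mul_le_mul_of_nonneg_right (hkC _) (hwpos _).le
  · simp_rw [hexp]
    have h1 : IntegrableOn (fun x => (w x : ℂ) * f x) (Ioi b) := by
      refine IntegrableOn.mono_set (s := Ioi b) (t := Ici 0) hfi ?_
      intro x hx
      exact hb.trans (le_of_lt hx)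
    have h2 : IntegrableOn (fun x => ‖f x‖ * w x) (Ioi b) := by
      refine h1.norm.congr (Eventually.of_forall (fun x => ?_))
      show ‖(w x : ℂ) * f x‖ = ‖f x‖ * w x
      rw [norm_mul, Complex.norm_real, Real.norm_of_nonneg (hwpos _).le, mul_comm]
    have h3 : IntegrableOn (fun x => ‖f (x + b)‖ * w (x + b)) ((fun x => x + b) ⁻¹' (Ioi b)) :=
      ((measurePreserving_add_right volume b).integrableOn_comp_preimage
        (measurableEmbedding_addRight b)).mpr h2
    have h4 : (fun x : ℝ => x + b) ⁻¹' (Ioi b) = Ioi 0 := by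
      ext x; simp
    rw [h4] at h3
    exact h3
  · intro ε hε hall
    refine hne ε hε ?_
    have h1 : ∀ᵐ x : ℝ, x - b ∈ Ioc 0 ε → f (x - b + b) = 0 :=
      (measurePreserving_sub_right volume b).quasiMeasurePreserving.ae hall
    filter_upwards [h1] with x hx hxb
    have := hx ⟨by linarith [hxb.1], by linarith [hxb.2]⟩
    rwa [sub_add_cancel] at this
  · filter_upwards [hann] with a ha ha0
    have h1 := ha ha0
    have h2 : ∫ x in Ioi (0 : ℝ), f x * (k (x + a) * (w (x + a) : ℂ)) =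
        ∫ x in Ioi b, f x * (k (x + a) * (w (x + a) : ℂ)) := by
      rw [← integral_indicator measurableSet_Ioi, ← integral_indicator measurableSet_Ioi]
      refine integral_congr_ae ?_
      have hb' : ∀ᵐ x : ℝ, x ≠ b := by
        simp [ae_iff]
      filter_upwards [hfb, hb'] with x hx hxb
      by_cases h3 : x ∈ Ioi b
      · rw [indicator_of_mem h3, indicator_of_mem (show x ∈ Ioi (0:ℝ) from lt_of_le_of_lt hb h3)]
      · rw [indicator_of_notMem h3]
        by_cases h4 : x ∈ Ioi (0:ℝ)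
        · rw [indicator_of_mem h4, hx ⟨h4, lt_of_le_of_ne (not_lt.mp h3) hxb⟩, zero_mul]
        · rw [indicator_of_notMem h4]
    rw [h2] at h1
    have h3 : ∫ x in (fun x => x + b) ⁻¹' (Ioi b),
        (fun x => f x * (k (x + a) * (w (x + a) : ℂ))) (x + b) =
        ∫ x in Ioi b, f x * (k (x + a) * (w (x + a) : ℂ)) :=
      (measurePreserving_add_right volume b).setIntegral_preimage_emb
        (measurableEmbedding_addRight b) (fun x => f x * (k (x + a) * (w (x + a) : ℂ))) (Ioi b)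
    have h4 : (fun x : ℝ => x + b) ⁻¹' (Ioi b) = Ioi 0 := by
      ext x; simp
    rw [h4, h1] at h3
    rw [← h3]
    refine integral_congr_ae (Eventually.of_forall (fun x => ?_))
    show f (x + b) * (k (x + a + b) * (w (x + a + b) : ℂ)) =
      f (x + b) * (k (x + b + a) * (w (x + b + a) : ℂ))
    rw [add_right_comm x a b]

theorem standard_ideal {w : ℝ → ℝ} (hwc : Continuous w) (hwpos : ∀ x, 0 < w x)
    (hsm : ∀ s t : ℝ, 0 ≤ s → 0 ≤ t → w (s + t) ≤ w s * w t)
    (hconc : ConcaveOn ℝ (Ici 0) (fun x => Real.log (w x)))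
    (hlim : Tendsto (fun x => Real.log (w x) / x) atTop atBot)
    {ν : Measure ℝ} (hν : ν = (volume.restrict (Ici (0 : ℝ))).withDensity
      (fun x => ENNReal.ofReal (w x)))
    {I : Submodule ℂ (Lp ℂ 1 ν)} (hcl : IsClosed (I : Set (Lp ℂ 1 ν)))
    (hI : ∀ f ∈ I, ∀ g h : Lp ℂ 1 ν, (h : ℝ → ℂ) =ᵐ[ν]
      (fun x => ∫ t in (0 : ℝ)..x, (f : ℝ → ℂ) t * (g : ℝ → ℂ) (x - t)) → h ∈ I)
    (hne : I ≠ ⊥) :
    ∃ a : ℝ, 0 ≤ a ∧ ∀ h : Lp ℂ 1 ν, h ∈ I ↔ ∀ᵐ x ∂ν, x < a → (h : ℝ → ℂ) x = 0 := by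
  have hfin : IsFiniteMeasure ν := by
    rw [hν]; exact (finite_nu hwc hwpos hlim).2
  -- nu-almost everywhere
  have hnn : ∀ᵐ x ∂ν, 0 ≤ x := ae_nu_of hν (ae_restrict_mem measurableSet_Ici)
  have hiff : ∀ P : ℝ → Prop, (∀ᵐ x ∂ν, P x) ↔ ∀ᵐ x : ℝ, x ∈ Ici (0:ℝ) → P x := by
    intro P
    rw [← ae_restrict_iff' measurableSet_Ici]
    exact ⟨fun h => ae_vol_of hwc hwpos hν h, fun h => ae_nu_of hν h⟩
  -- an element which is nonzero
  obtain ⟨f0, hf0I, hf0⟩ := (Submodule.ne_bot_iff I).mp hne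
  -- the general sup lemma
  have hsup : ∀ F : Set (Lp ℂ 1 ν), (∃ f ∈ F, f ≠ 0) → ∃ a : ℝ, 0 ≤ a ∧
      (∀ f ∈ F, ∀ᵐ x ∂ν, x < a → (f : ℝ → ℂ) x = 0) ∧
      ∀ c : ℝ, a < c → ¬ ∀ f ∈ F, ∀ᵐ x ∂ν, x < c → (f : ℝ → ℂ) x = 0 := by
    rintro F ⟨f1, hf1F, hf1⟩
    let A : Set ℝ := {a | ∀ f ∈ F, ∀ᵐ x ∂ν, x < a → (f : ℝ → ℂ) x = 0}
    have h0A : (0:ℝ) ∈ A := by
      intro f _
      filter_upwards [hnn] with x hx hx0
      exact absurd hx0 (not_lt.mpr hx)
    have hbdd : BddAbove A := by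
      by_contra hnb
      refine hf1 ?_
      rw [Lp.eq_zero_iff_ae_eq_zero]
      have h1 : ∀ n : ℕ, ∀ᵐ x ∂ν, x < (n:ℝ) → (f1 : ℝ → ℂ) x = 0 := by
        intro n
        obtain ⟨a, haA, hna⟩ := not_bddAbove_iff.mp hnb n
        filter_upwards [haA f1 hf1F] with x hx hxn
        exact hx (hxn.trans hna)
      filter_upwards [ae_all_iff.mpr h1] with x hx
      obtain ⟨n, hn⟩ := exists_nat_gt x
      exact hx n hn
    refine ⟨sSup A, le_csSup hbdd h0A, ?_, ?_⟩
    · intro f hf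
      have h1 : ∀ n : ℕ, ∀ᵐ x ∂ν, x < sSup A - 1 / ((n:ℝ) + 1) → (f : ℝ → ℂ) x = 0 := by
        intro n
        obtain ⟨a, haA, hna⟩ := exists_lt_of_lt_csSup ⟨0, h0A⟩
          (show sSup A - 1 / ((n:ℝ) + 1) < sSup A from sub_lt_self _ (by positivity))
        filter_upwards [haA f hf] with x hx hxn
        exact hx (hxn.trans hna)
      filter_upwards [ae_all_iff.mpr h1] with x hx hxa
      obtain ⟨n, hn⟩ := exists_nat_one_div_lt (sub_pos.mpr hxa)
      exact hx n (by linarith)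
    · intro c hc hall
      exact absurd (le_csSup hbdd (show c ∈ A from hall)) (not_le.mpr hc)
  obtain ⟨α, hα0, hα1, hα2⟩ := hsup (I : Set (Lp ℂ 1 ν)) ⟨f0, hf0I, hf0⟩
  refine ⟨α, hα0, fun h => ⟨fun hh => hα1 h hh, ?_⟩⟩
  intro hh
  by_contra hnot
  -- Hahn Banach
  obtain ⟨φ, hφI, hφh⟩ : ∃ φ : Lp ℂ 1 ν →L[ℂ] ℂ, (∀ f ∈ I, φ f = 0) ∧ φ h ≠ 0 := by
    have hconvex : Convex ℝ (I : Set (Lp ℂ 1 ν)) := (I.restrictScalars ℝ).convex
    obtain ⟨φ, u, h1, h2⟩ := RCLike.geometric_hahn_banach_closed_point (𝕜 := ℂ) hconvex hcl hnot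
    refine ⟨φ, ?_, ?_⟩
    · intro f hf
      by_contra hne0
      have h4 := h1 ((((|u| + 1 : ℝ) : ℂ) / φ f) • f) (I.smul_mem _ hf)
      rw [map_smul, smul_eq_mul, div_mul_cancel₀ _ hne0] at h4
      have h5 : |u| + 1 < u := by simpa using h4
      linarith [le_abs_self u]
    · intro h0
      have h3 := h1 0 I.zero_mem
      rw [map_zero] at h3
      rw [h0] at h2
      simp only [map_zero] at h2 h3
      linarith
  obtain ⟨k, hk, hkC, hrep⟩ := dual_L1 φ
  have hann : ∀ f ∈ I, ∀ᵐ a : ℝ, 0 ≤ a →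
      ∫ x in Ioi (0 : ℝ), (f : ℝ → ℂ) x * (k (x + a) * (w (x + a) : ℂ)) = 0 := by
    intro f hf
    exact annih hwc hwpos hsm hν hI hφI hk hkC hrep hf
  -- k vanishes beyond c for all c > α
  have hkc : ∀ c : ℝ, α < c → ∀ᵐ x : ℝ, c < x → k x = 0 := by
    intro c hc
    have h1 := hα2 c hc
    simp only [not_forall] at h1
    obtain ⟨f, hfI, hfc⟩ := h1
    have hfne : f ≠ 0 := by
      rintro rfl
      apply hfc
      filter_upwards [Lp.coeFn_zero ℂ 1 ν] with x hx _
      exact hx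
    obtain ⟨b, hb0, hb1, hb2⟩ := hsup {f} ⟨f, rfl, hfne⟩
    have hb1' : ∀ᵐ x ∂ν, x < b → (f : ℝ → ℂ) x = 0 := hb1 f rfl
    have hbc : b ≤ c := by
      by_contra hcb
      have hcb := not_le.mp hcb
      apply hfc
      filter_upwards [hb1'] with x hx hxc
      exact hx (hxc.trans hcb)
    have hfm : Measurable (f : ℝ → ℂ) := (Lp.stronglyMeasurable f).measurable
    have hfi : Integrable (fun x => (w x : ℂ) * f x) (volume.restrict (Ici (0 : ℝ))) :=
      (integrable_nu_iff hwc hwpos hν _).mp (L1.integrable_coeFn f)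
    have h2 := vanish_beyond hwc hwpos hconc hlim hfm hk hkC hfi hb0 ?_ ?_ (hann f hfI)
    · filter_upwards [h2] with x hx hcx
      exact hx (lt_of_le_of_lt hbc hcx)
    · have h3 := (hiff _).mp hb1'
      filter_upwards [h3] with x hx hxb
      exact hx hxb.1.le hxb.2
    · intro ε hε hall
      refine hb2 (b + ε) (by linarith) ?_
      intro f' hf'
      rw [mem_singleton_iff.mp hf', hiff]
      have hb' : ∀ᵐ x : ℝ, x ≠ b := by
        simp [ae_iff]
      filter_upwards [(hiff _).mp hb1', hall, hb'] with x hx1 hx2 hx3 hx0 hxb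
      rcases lt_or_gt_of_ne hx3 with h5 | h5
      · exact hx1 hx0 h5
      · exact hx2 ⟨h5, hxb.le⟩
  have hkα : ∀ᵐ x : ℝ, α < x → k x = 0 := by
    have h1 : ∀ n : ℕ, ∀ᵐ x : ℝ, α + 1 / ((n:ℝ) + 1) < x → k x = 0 := by
      intro n
      exact hkc _ (by have : (0:ℝ) < 1 / ((n:ℝ) + 1) := by positivity
                      linarith)
    filter_upwards [ae_all_iff.mpr h1] with x hx hxa
    obtain ⟨n, hn⟩ := exists_nat_one_div_lt (sub_pos.mpr hxa)
    exact hx n (by linarith)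
  apply hφh
  rw [hrep]
  have h5 : ∀ᵐ x ∂ν, (h : ℝ → ℂ) x * k x = 0 := by
    have h6 : ∀ᵐ x ∂ν, α < x → k x = 0 := by
      rw [hiff]
      filter_upwards [hkα] with x hx _
      exact hx
    have h7 : ∀ᵐ x ∂ν, x ≠ α := by
      rw [hiff]
      have hb' : ∀ᵐ x : ℝ, x ≠ α := by
        simp [ae_iff]
      filter_upwards [hb'] with x hx _
      exact hx
    filter_upwards [hh, h6, h7] with x hx1 hx2 hx3
    rcases lt_or_gt_of_ne hx3 with h8 | h8
    · rw [hx1 h8, zero_mul]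
    · rw [hx2 h8, mul_zero]
  rw [integral_congr_ae h5]
  simp

end MP_c588fa_an
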