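import Pool.Agent.Lib_MP_c588fa_an.Defs

set_option autoImplicit false
open MeasureTheory Filter Set Complex

namespace MP_c588fa_an

theorem exists_subgradient {η : ℝ → ℝ} (hη : ConvexOn ℝ (Ici 0) η) :
    ∃ p : ℝ → ℝ, Measurable p ∧ MonotoneOn p (Ioi 0) ∧
      ∀ x : ℝ, 0 < x → ∀ y : ℝ, 0 ≤ y → η x + p x * (y - x) ≤ η y := by
  refine ⟨fun x => derivWithin η (Ioi x) x, measurable_derivWithin_Ioi η, ?_, ?_⟩
  · have h := hη.monotoneOn_rightDeriv
    rwa [interior_Ici] at h
  · intro x hx y hy
    have hxi : x ∈ interior (Ici (0 : ℝ)) := by rw [interior_Ici]; exact hx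
    rcases lt_trichotomy x y with hxy | hxy | hxy
    · have h := hη.rightDeriv_le_slope_of_mem_interior hxi (show y ∈ Ici (0 : ℝ) from hy) hxy
      rw [slope_def_field, le_div_iff₀ (by linarith)] at h
      linarith
    · subst hxy; simp
    · have h := hη.slope_le_leftDeriv_of_mem_interior (show y ∈ Ici (0 : ℝ) from hy) hxi hxy
      have h2 := hη.leftDeriv_le_rightDeriv_of_mem_interior hxi
      have h3 := h.trans h2
      rw [slope_def_field, div_le_iff₀ (by linarith)] at h3
      have h4 : derivWithin η (Ioi x) x * (y - x) = -(derivWithin η (Ioi x) x * (x - y)) := by ring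
      show η x + derivWithin η (Ioi x) x * (y - x) ≤ η y
      rw [h4]; linarith

end MP_c588fa_an
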